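import Pool.Agent.Lib_MP_1209e6_dc.Defs

/-! PIECE CJ: the automorphisms of the cyclic cover. -/

set_option autoImplicit false

open MvPolynomial

namespace Pool.Agent.DC

/-- `K = ℂ(z)(w)`, `w ^ μ ∈ ℂ(z)`, is Galois over `ℂ(z)` (splitting field of `X ^ μ - w ^ μ`:
`X_pow_sub_C_splits_of_isPrimitiveRoot`, `IsGalois.of_separable_splitting_field`, `separable_X_pow_sub_C`; or by
hand). `σ` enumerates the Galois group; the coefficients of `∏ (X - σ_i u)` are fixed by the group, so in
`ℂ(z)`. -/
theorem exists_conj {m μ : ℕ} (hμ : μ ≠ 0) {F : MvPolynomial (Fin (m + 2)) ℂ} {K : Type} [Field K]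
    [Algebra ℂ K] (z : Fin (m + 1) → K) (w : K) (hw : w ^ μ = aeval (Fin.cons 1 z) F) (hw0 : w ≠ 0)
    (hgen : IntermediateField.adjoin ℂ (Set.range z ∪ {w}) = ⊤) :
    ∃ (r : ℕ) (σ : Fin r → K ≃ₐ[ℂ] K), (∃ i, ∀ u, σ i u = u) ∧
      ∀ u n, (∏ i, (Polynomial.X - Polynomial.C (σ i u))).coeff n ∈
        IntermediateField.adjoin ℂ (Set.range z) := by
  classical
  have hchar : CharZero K := charZero_of_injective_algebraMap (algebraMap ℂ K).injective
  let E : IntermediateField ℂ K := IntermediateField.adjoin ℂ (Set.range z)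
  have hzE : ∀ j, z j ∈ E := fun j => IntermediateField.subset_adjoin ℂ _ ⟨j, rfl⟩
  have hwE : w ^ μ ∈ E := by
    rw [hw]
    have : ∀ G : MvPolynomial (Fin (m + 2)) ℂ, aeval (Fin.cons 1 z : Fin (m + 2) → K) G ∈ E := by
      intro G
      induction G using MvPolynomial.induction_on with
      | C a => rw [aeval_C]; exact E.algebraMap_mem a
      | add p q hp hq => rw [map_add]; exact add_mem hp hq
      | mul_X p i hp =>
        rw [map_mul, aeval_X]
        refine mul_mem hp ?_
        refine Fin.cases ?_ (fun j => ?_) i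
        · exact one_mem _
        · exact hzE j
    exact this F
  let α : E := ⟨w ^ μ, hwE⟩
  have hα : α ≠ 0 := by
    intro h
    exact pow_ne_zero μ hw0 (congrArg Subtype.val h)
  have hchE : CharZero E := charZero_of_injective_algebraMap (algebraMap ℂ E).injective
  have hζ := Complex.isPrimitiveRoot_exp μ hμ
  have hζK : IsPrimitiveRoot (algebraMap ℂ K (Complex.exp (2 * Real.pi * Complex.I / μ))) μ :=
    hζ.map_of_injective (algebraMap ℂ K).injective
  have hsplit : ((Polynomial.X ^ μ - Polynomial.C α : Polynomial E).map (algebraMap E K)).Splits := by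
    rw [Polynomial.map_sub, Polynomial.map_pow, Polynomial.map_X, Polynomial.map_C]
    exact X_pow_sub_C_splits_of_isPrimitiveRoot hζK (show w ^ μ = algebraMap E K α from rfl)
  have hroot : w ∈ (Polynomial.X ^ μ - Polynomial.C α : Polynomial E).rootSet K := by
    rw [Polynomial.mem_rootSet]
    refine ⟨?_, ?_⟩
    · exact Polynomial.X_pow_sub_C_ne_zero (Nat.pos_of_ne_zero hμ) α
    · rw [map_sub, map_pow, Polynomial.aeval_X, Polynomial.aeval_C]
      exact sub_self _
  have hint : IsIntegral E w := by
    refine ⟨Polynomial.X ^ μ - Polynomial.C α, Polynomial.monic_X_pow_sub_C α hμ, ?_⟩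
    rw [Polynomial.eval₂_sub, Polynomial.eval₂_pow, Polynomial.eval₂_X, Polynomial.eval₂_C]
    exact sub_self _
  have htop : IntermediateField.adjoin E ({w} : Set K) = ⊤ := by
    rw [eq_top_iff]
    intro u _
    have hu : u ∈ IntermediateField.adjoin ℂ (Set.range z ∪ {w}) := by
      rw [hgen]
      exact IntermediateField.mem_top
    induction hu using IntermediateField.adjoin_induction with
    | mem x hx =>
      rcases hx with ⟨j, rfl⟩ | hx
      · exact (IntermediateField.adjoin E ({w} : Set K)).algebraMap_mem ⟨z j, hzE j⟩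
      · exact IntermediateField.subset_adjoin E _ hx
    | algebraMap r =>
      exact (IntermediateField.adjoin E ({w} : Set K)).algebraMap_mem (algebraMap ℂ E r)
    | add x y _ _ hx hy => exact add_mem (hx trivial) (hy trivial)
    | inv x _ hx => exact inv_mem (hx trivial)
    | mul x y _ _ hx hy => exact mul_mem (hx trivial) (hy trivial)
  have hsf : Polynomial.IsSplittingField E K (Polynomial.X ^ μ - Polynomial.C α) := by
    refine ⟨hsplit, ?_⟩
    rw [eq_top_iff]
    have h1 : Algebra.adjoin E ({w} : Set K) = ⊤ :=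
      (IntermediateField.adjoin_eq_top_iff_of_isAlgebraic (fun x hx => by
        rw [Set.mem_singleton_iff.1 hx]
        exact hint.isAlgebraic)).1 htop
    rw [← h1]
    exact Algebra.adjoin_mono (Set.singleton_subset_iff.2 hroot)
  have hsep : (Polynomial.X ^ μ - Polynomial.C α : Polynomial E).Separable :=
    Polynomial.separable_X_pow_sub_C α (Nat.cast_ne_zero.2 hμ) hα
  have hgal : IsGalois E K := IsGalois.of_separable_splitting_field hsep
  have hfin : FiniteDimensional E K := Polynomial.IsSplittingField.finiteDimensional K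
    (Polynomial.X ^ μ - Polynomial.C α)
  have : Fintype (K ≃ₐ[E] K) := Fintype.ofFinite _
  let e := Fintype.equivFin (K ≃ₐ[E] K)
  refine ⟨Fintype.card (K ≃ₐ[E] K), fun i => (e.symm i).restrictScalars ℂ, ⟨e AlgEquiv.refl, ?_⟩, ?_⟩
  · intro u
    rw [AlgEquiv.restrictScalars_apply, Equiv.symm_apply_apply]
    rfl
  · intro u n
    have h1 : (∏ i, (Polynomial.X - Polynomial.C (((e.symm i).restrictScalars ℂ) u))) =
        ∏ g : K ≃ₐ[E] K, (Polynomial.X - Polynomial.C (g u)) :=
      Fintype.prod_equiv e.symm _ _ fun i => rfl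
    rw [h1]
    have h2 : ∀ h : K ≃ₐ[E] K, h ((∏ g : K ≃ₐ[E] K, (Polynomial.X - Polynomial.C (g u))).coeff n) =
        (∏ g : K ≃ₐ[E] K, (Polynomial.X - Polynomial.C (g u))).coeff n := by
      intro h
      have h3 : (∏ g : K ≃ₐ[E] K, (Polynomial.X - Polynomial.C (g u))).map (h : K →+* K) =
          ∏ g : K ≃ₐ[E] K, (Polynomial.X - Polynomial.C (g u)) := by
        rw [Polynomial.map_prod]
        refine Fintype.prod_equiv (Equiv.mulLeft h) _ _ fun g => ?_
        rw [Polynomial.map_sub, Polynomial.map_X, Polynomial.map_C]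
        rfl
      have h4 := congrArg (fun P => Polynomial.coeff P n) h3
      rw [Polynomial.coeff_map] at h4
      exact h4
    obtain ⟨b, hb⟩ := (IsGalois.mem_range_algebraMap_iff_fixed _).2 h2
    rw [← hb]
    exact b.2

end Pool.Agent.DC
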