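import Pool.Agent.Lib_MP_1209e6_ds.Defs

/-!
# Smooth cyclic covers of projective space: definitions

`MP_1209e6_ag`: lines on which the branch form `F` is `∏ q_i ^ k_i * r` with `deg q_i = a_i`, `deg r ≤ e`,
`∑ (k_i - 1) a_i = m = n - 1`, `deg F = ∑ k_i a_i + e`. In the applications (`w ^ μ = F` on `ℙⁿ`):
`μ = 2`: `q² r`, `e = 4`; `μ = 3`: `q³ r`, `e = 3`; `μ = 4`: `q⁴ s² r`, `e = 2`; `μ = 6`: `q⁶ s³ u² r`, `e = 1`.
-/

set_option autoImplicit false

open MvPolynomial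

namespace Pool.Agent.DC

open Pool.Agent.DS (Smooth pt lp Phi phi Generic)

section lines

variable {Ω : Type} [Field Ω] [Algebra ℂ Ω] {m : ℕ}

/-- a line through `x` on which `F` is `∏ q_i ^ k_i * r`, `deg q_i = a_i`, `deg r ≤ e` -/
structure CLine {c : ℕ} (a k : Fin c → ℕ) (e : ℕ) (F : MvPolynomial (Fin (m + 2)) ℂ)
    (x : Fin (m + 1) → Ω) where
  v : Fin (m + 1) → Ω
  q : Fin c → Polynomial Ω
  r : Polynomial Ω
  v_ne : v ≠ 0
  q_monic : ∀ i, (q i).Monic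
  q_deg : ∀ i, (q i).natDegree = a i
  r_deg : r.natDegree ≤ e
  eq : aeval (lp x v) F = (∏ i, q i ^ k i) * r

/-- `∏ q_i ^ (k_i - 1)`, of degree `m` -/
noncomputable def CLine.G {c : ℕ} {a k : Fin c → ℕ} {e : ℕ} {F : MvPolynomial (Fin (m + 2)) ℂ}
    {x : Fin (m + 1) → Ω} (T : CLine a k e F x) : Polynomial Ω := ∏ i, T.q i ^ (k i - 1)

/-- at a multiple root `s` of `F` on the line the point is smooth, in the strong sense that a partial
derivative `F_j`, `j ≥ 1`, does not vanish -/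
def PartNe (F : MvPolynomial (Fin (m + 2)) ℂ) (x v : Fin (m + 1) → Ω) : Prop :=
  ∀ s, ((Polynomial.X - Polynomial.C s) ^ 2 ∣ aeval (lp x v) F) →
    ∃ j : Fin (m + 1), aeval (pt x v s) (pderiv (Fin.succ j) F) ≠ 0

/-- the polynomials `G` for which the differential of `F` on the line is a surjective module map to
`Ω[X] / G` -/
structure CGood (F : MvPolynomial (Fin (m + 2)) ℂ) (x v : Fin (m + 1) → Ω) (G : Polynomial Ω) : Prop where
  ne : G ≠ 0
  der : ∀ δ : Derivation ℂ Ω Ω, G ∣ Phi F x v fun j =>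
    Polynomial.C (δ (v j)) + Polynomial.X * Polynomial.C (δ (x j))
  dir : G ∣ Phi F x v fun j => Polynomial.C (v j)
  part : ∀ s, G.IsRoot s → ∃ j : Fin (m + 1), aeval (pt x v s) (pderiv (Fin.succ j) F) ≠ 0

/-- the nondegeneracy of the line (all proved in `Nice.lean`) -/
structure CNice {c : ℕ} {a k : Fin c → ℕ} {e : ℕ} {F : MvPolynomial (Fin (m + 2)) ℂ}
    {x : Fin (m + 1) → Ω} (T : CLine a k e F x) : Prop where
  ne_zero : ∀ i s, (T.q i).IsRoot s → s ≠ 0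
  sqfree : ∀ s, ¬ (Polynomial.X - Polynomial.C s) ^ 2 ∣ (∏ i, T.q i) * T.r
  ker : ∀ y : Fin (m + 1) → Ω, (T.G ∣ Phi F x T.v fun j => Polynomial.C (y j)) →
    ∃ c, ∀ j, y j = c * T.v j
  dir : T.G ∣ Phi F x T.v fun j => Polynomial.C (T.v j)
  der : ∀ δ : Derivation ℂ Ω Ω, T.G ∣ Phi F x T.v fun j =>
    Polynomial.C (δ (T.v j)) + Polynomial.X * Polynomial.C (δ (x j))

end lines

/-- the polynomial `F (1, c + X b)` -/
noncomputable def al {Ω : Type} [Field Ω] [Algebra ℂ Ω] {m : ℕ} (F : MvPolynomial (Fin (m + 2)) ℂ)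
    (c b : Fin (m + 1) → Ω) : Polynomial Ω :=
  aeval (Fin.cons 1 fun j => Polynomial.C (c j) + Polynomial.X * Polynomial.C (b j)) F

/-- `K = ℂ(z, w)` is the function field of the cyclic cover `w ^ μ = F(1, z)` of `ℙⁿ` -/
def IsCyclic (μ : ℕ) {m : ℕ} (K : Type) [Field K] [Algebra ℂ K] (F : MvPolynomial (Fin (m + 2)) ℂ) : Prop :=
  ∃ (z : Fin (m + 1) → K) (w : K), AlgebraicIndependent ℂ z ∧ w ^ μ = aeval (Fin.cons 1 z) F ∧
    IntermediateField.adjoin ℂ (Set.range z ∪ {w}) = ⊤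

end Pool.Agent.DC
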