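import Pool.Agent.Lib_MP_1209e6_dc.Defs
import Pool.Agent.Lib_MP_1209e6_ds.Exist20
import Pool.Agent.Lib_MP_1209e6_ds.Exist

/-! PIECE EX: existence of the line (generalise `ds/Exist20.lean` and `ds/Exist.lean`). -/

set_option autoImplicit false

namespace Pool.Agent.DC

section exist

open Polynomial

open Pool.Agent.DS (line line_map line_top exists_common_zero mq mq_monic mq_natDegree mq_natDegree_le
  mq_coeff mq_map mq_zero coeff_low deg_low)

/-- polynomial of degree `≤ e` with given coefficients -/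
noncomputable def rqe {A : Type*} [CommRing A] {e : ℕ} (u : A) (c : Fin e → A) : A[X] :=
  C u * X ^ e + ∑ j : Fin e, C (c j) * X ^ (j : ℕ)

theorem rqe_natDegree_le {A : Type*} [CommRing A] {e : ℕ} (u : A) (c : Fin e → A) :
    (rqe u c).natDegree ≤ e := by
  unfold rqe
  refine (natDegree_add_le _ _).trans (max_le (natDegree_C_mul_X_pow_le _ _) ?_)
  exact natDegree_le_of_degree_le (deg_low c).le

theorem rqe_coeff {A : Type*} [CommRing A] {e : ℕ} (u : A) (c : Fin e → A) (j : Fin e) :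
    (rqe u c).coeff (j : ℕ) = c j := by
  unfold rqe
  rw [coeff_add, coeff_low, coeff_C_mul_X_pow, if_neg (by have := j.2; omega), zero_add]

theorem rqe_coeff_top {A : Type*} [CommRing A] {e : ℕ} (u : A) (c : Fin e → A) :
    (rqe u c).coeff e = u := by
  unfold rqe
  rw [coeff_add, coeff_C_mul_X_pow, if_pos rfl]
  have : (∑ j : Fin e, C (c j) * X ^ (j : ℕ)).coeff e = 0 :=
    coeff_eq_zero_of_degree_lt (deg_low c)
  rw [this, add_zero]

theorem rqe_map {A B : Type*} [CommRing A] [CommRing B] (φ : A →+* B) {e : ℕ} (u : A)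
    (c : Fin e → A) : (rqe u c).map φ = rqe (φ u) fun j => φ (c j) := by
  unfold rqe
  simp [Polynomial.map_sum]

theorem rqe_zero {A : Type*} [CommRing A] {e : ℕ} (u : A) :
    rqe u (fun _ : Fin e => (0 : A)) = C u * X ^ e := by
  simp [rqe]

variable {Ω : Type} [Field Ω]

theorem prod_monic {c : ℕ} (a k : Fin c → ℕ) (q : ∀ i, Fin (a i) → Ω) :
    (∏ i, mq (q i) ^ k i).Monic :=
  monic_prod_of_monic _ _ fun i _ => (mq_monic (q i)).pow (k i)

theorem prod_natDegree {c : ℕ} (a k : Fin c → ℕ) (q : ∀ i, Fin (a i) → Ω) :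
    (∏ i, mq (q i) ^ k i).natDegree = ∑ i, k i * a i := by
  rw [natDegree_prod_of_monic _ _ fun i _ => (mq_monic (q i)).pow (k i)]
  refine Finset.sum_congr rfl fun i _ => ?_
  rw [(mq_monic (q i)).natDegree_pow, mq_natDegree]

/-- **Existence of the lines.** -/
theorem exists_tangent [IsAlgClosed Ω] {m c : ℕ} (a k : Fin c → ℕ) (e : ℕ) (hk : ∀ i, 1 ≤ k i)
    (hm : ∑ i, (k i - 1) * a i = m) (F : MvPolynomial (Fin (m + 2)) Ω)
    (hF : F.IsHomogeneous ((∑ i, k i * a i) + e)) (x : Fin (m + 1) → Ω)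
    (hx : MvPolynomial.aeval (Fin.cons 1 x : Fin (m + 2) → Ω) F ≠ 0) :
    ∃ (v : Fin (m + 1) → Ω) (q : ∀ i, Fin (a i) → Ω) (r : Fin e → Ω), v ≠ 0 ∧
      line F v x = (∏ i, mq (q i) ^ k i) *
        rqe (MvPolynomial.aeval (Fin.cons 1 x : Fin (m + 2) → Ω) F) r := by
  classical
  set u := MvPolynomial.aeval (Fin.cons 1 x : Fin (m + 2) → Ω) F with hu
  obtain ⟨d, hd⟩ : ∃ d, d = (∑ i, k i * a i) + e := ⟨_, rfl⟩
  rw [← hd] at hF
  let J := Fin (m + 1) ⊕ (Σ i : Fin c, Fin (a i)) ⊕ Fin e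
  let A := MvPolynomial J Ω
  let V : Fin (m + 1) → A := fun i => MvPolynomial.X (Sum.inl i)
  let Q : ∀ i, Fin (a i) → A := fun i j => MvPolynomial.X (Sum.inr (Sum.inl ⟨i, j⟩))
  let R : Fin e → A := fun i => MvPolynomial.X (Sum.inr (Sum.inr i))
  let x' : Fin (m + 1) → A := fun i => MvPolynomial.C (x i)
  let P : A[X] := line F V x' - (∏ i, mq (Q i) ^ k i) * rqe (MvPolynomial.C u) R
  have hP : ∀ y : J → Ω, P.map (MvPolynomial.aeval y : A →ₐ[Ω] Ω).toRingHom =
      line F (fun i => y (Sum.inl i)) x - (∏ i, mq (fun j => y (Sum.inr (Sum.inl ⟨i, j⟩))) ^ k i) *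
        rqe u (fun i => y (Sum.inr (Sum.inr i))) := by
    intro y
    have h1 := line_map F V x' (MvPolynomial.aeval y : A →ₐ[Ω] Ω)
    change Polynomial.map ((MvPolynomial.aeval y : A →ₐ[Ω] Ω) : A →+* Ω) P = _
    simp only [P, Polynomial.map_sub, Polynomial.map_mul, Polynomial.map_prod, Polynomial.map_pow, h1,
      mq_map, rqe_map]
    have hC : ∀ c : Ω, (MvPolynomial.aeval y : A →ₐ[Ω] Ω) (MvPolynomial.C c) = c := fun c => by
      rw [MvPolynomial.aeval_C]; rfl
    have hX : ∀ j : J, (MvPolynomial.aeval y : A →ₐ[Ω] Ω) (MvPolynomial.X j) = y j := fun j =>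
      MvPolynomial.aeval_X y j
    simp only [RingHom.coe_coe, V, Q, R, x', hC, hX]
  have hcard : Fintype.card (Fin d) < Fintype.card J := by
    simp only [J, Fintype.card_sum, Fintype.card_fin, Fintype.card_sigma]
    have h1 : ∑ i, k i * a i = ∑ i, (k i - 1) * a i + ∑ i, a i := by
      rw [← Finset.sum_add_distrib]
      refine Finset.sum_congr rfl fun i _ => ?_
      obtain ⟨l, hl⟩ : ∃ l, k i = l + 1 := ⟨k i - 1, by have := hk i; omega⟩
      rw [hl, Nat.add_sub_cancel]
      ring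
    omega
  have hzero : line F (0 : Fin (m + 1) → Ω) x = C u * X ^ d := by
    have h1 : (fun i => C ((Fin.cons 0 (0 : Fin (m + 1) → Ω) : Fin (m + 2) → Ω) i) +
        X * C ((Fin.cons 1 x : Fin (m + 2) → Ω) i)) =
        fun i => X * C ((Fin.cons 1 x : Fin (m + 2) → Ω) i) := by
      funext i
      refine Fin.cases ?_ (fun i => ?_) i
      · simp
      · simp
    unfold line
    rw [h1, hu, MvPolynomial.aeval_def, MvPolynomial.eval₂_eq', MvPolynomial.aeval_def,
      MvPolynomial.eval₂_eq', map_sum, Finset.sum_mul]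
    refine Finset.sum_congr rfl fun s hs => ?_
    have h2 : ∑ i, s i = d := by
      have h3 := hF (MvPolynomial.mem_support_iff.1 hs)
      rw [Finsupp.weight_apply, Finsupp.sum_fintype _ _ (by simp)] at h3
      simpa using h3
    rw [Polynomial.algebraMap_apply, map_mul, mul_assoc]
    congr 1
    rw [← h2, ← Finset.prod_pow_eq_pow_sum, map_prod, ← Finset.prod_mul_distrib]
    refine Finset.prod_congr rfl fun i _ => ?_
    rw [mul_pow, map_pow, mul_comm]
  have hpow : (∏ i, (X ^ a i : Polynomial Ω) ^ k i) = X ^ ∑ i, k i * a i := by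
    rw [← Finset.prod_pow_eq_pow_sum]
    refine Finset.prod_congr rfl fun i _ => ?_
    rw [← pow_mul, mul_comm]
  obtain ⟨y, hy0, hy⟩ := exists_common_zero (Ω := Ω) (J := J)
    (fun k : Fin d => P.coeff k) (by
      intro j
      have h2 : (P.map (MvPolynomial.aeval (0 : J → Ω) : A →ₐ[Ω] Ω).toRingHom).coeff j =
        MvPolynomial.aeval (0 : J → Ω) (P.coeff j) := by rw [coeff_map]; rfl
      rw [← h2, hP 0]
      have h3 : line F (fun i => (0 : J → Ω) (Sum.inl i)) x = C u * X ^ d := hzero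
      have h4 : (∏ i, mq (fun j : Fin (a i) => (0 : J → Ω) (Sum.inr (Sum.inl ⟨i, j⟩))) ^ k i) =
          X ^ ∑ i, k i * a i := by
        rw [← hpow]
        refine Finset.prod_congr rfl fun i _ => ?_
        congr 1
        exact mq_zero
      have h5 : rqe u (fun i : Fin e => (0 : J → Ω) (Sum.inr (Sum.inr i))) = C u * X ^ e :=
        rqe_zero u
      rw [h3, h4, h5]
      have h6 : (C u * X ^ d - X ^ (∑ i, k i * a i) * (C u * X ^ e) : Polynomial Ω) = 0 := by
        rw [hd]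
        ring
      rw [h6, coeff_zero]) hcard
  have hD : line F (fun i => y (Sum.inl i)) x =
      (∏ i, mq (fun j => y (Sum.inr (Sum.inl ⟨i, j⟩))) ^ k i) *
        rqe u (fun i => y (Sum.inr (Sum.inr i))) := by
    have hmon := prod_monic a k (fun i j => y (Sum.inr (Sum.inl ⟨i, j⟩)))
    have hnat := prod_natDegree a k (fun i j => y (Sum.inr (Sum.inl ⟨i, j⟩)))
    rw [← sub_eq_zero, ← hP y]
    ext j
    rw [coeff_zero]
    rcases lt_trichotomy j d with hj | hj | hj
    · rw [coeff_map]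
      exact hy ⟨j, hj⟩
    · rw [hP y, coeff_sub, hj]
      have h1 := (line_top hF (Fin.cons 0 fun i => y (Sum.inl i)) (Fin.cons 1 x)).2
      have h2 : (line F (fun i => y (Sum.inl i)) x).coeff d = u := h1
      have h4 := hmon.coeff_natDegree
      rw [hnat] at h4
      rw [h2, hd, coeff_mul_add_eq_of_natDegree_le hnat.le (rqe_natDegree_le _ _), h4, rqe_coeff_top]
      ring
    · rw [hP y, coeff_sub]
      have h1 := (line_top hF (Fin.cons 0 fun i => y (Sum.inl i)) (Fin.cons 1 x)).1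
      have h2 : (line F (fun i => y (Sum.inl i)) x).coeff j = 0 :=
        coeff_eq_zero_of_natDegree_lt (lt_of_le_of_lt h1 hj)
      have h3 : ((∏ i, mq (fun j => y (Sum.inr (Sum.inl ⟨i, j⟩))) ^ k i) *
          rqe u (fun i => y (Sum.inr (Sum.inr i))) : Polynomial Ω).natDegree ≤ d := by
        rw [hd]
        exact natDegree_mul_le.trans (add_le_add hnat.le (rqe_natDegree_le _ _))
      rw [h2, coeff_eq_zero_of_natDegree_lt (lt_of_le_of_lt h3 hj), sub_zero]
  refine ⟨fun i => y (Sum.inl i), fun i j => y (Sum.inr (Sum.inl ⟨i, j⟩)),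
    fun i => y (Sum.inr (Sum.inr i)), fun hv => hy0 ?_, hD⟩
  rw [hv, hzero] at hD
  have hq : ∀ i, mq (fun j : Fin (a i) => y (Sum.inr (Sum.inl ⟨i, j⟩))) = X ^ a i := by
    intro i
    have hdvd : mq (fun j : Fin (a i) => y (Sum.inr (Sum.inl ⟨i, j⟩))) ∣ X ^ d := by
      have h1 : mq (fun j : Fin (a i) => y (Sum.inr (Sum.inl ⟨i, j⟩))) ∣ C u * X ^ d := by
        rw [hD]
        refine Dvd.dvd.mul_right ?_ _
        refine dvd_trans (dvd_pow_self _ (by have := hk i; omega))
          (Finset.dvd_prod_of_mem (fun i => mq (fun j : Fin (a i) => y (Sum.inr (Sum.inl ⟨i, j⟩))) ^ k i)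
            (Finset.mem_univ i))
      have h2 : IsUnit (C u : Polynomial Ω) := isUnit_C.2 (isUnit_iff_ne_zero.2 hx)
      exact (h2.dvd_mul_left).1 h1
    obtain ⟨l, -, hl⟩ := (dvd_prime_pow Polynomial.prime_X _).1 hdvd
    have hl2 : mq (fun j : Fin (a i) => y (Sum.inr (Sum.inl ⟨i, j⟩))) = X ^ l :=
      eq_of_monic_of_associated (mq_monic _) (monic_X_pow l) hl
    have hl3 : l = a i := by
      have h1 := congrArg natDegree hl2
      rw [mq_natDegree, natDegree_X_pow] at h1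
      exact h1.symm
    rw [hl2, hl3]
  have hr : rqe u (fun i => y (Sum.inr (Sum.inr i))) = C u * X ^ e := by
    have h0 : (∏ i, mq (fun j : Fin (a i) => y (Sum.inr (Sum.inl ⟨i, j⟩))) ^ k i) =
        X ^ ∑ i, k i * a i := by
      rw [← hpow]
      exact Finset.prod_congr rfl fun i _ => by rw [hq i]
    rw [h0] at hD
    have h1 : (X ^ (∑ i, k i * a i) : Polynomial Ω) ≠ 0 := pow_ne_zero _ X_ne_zero
    refine mul_left_cancel₀ h1 ?_
    rw [← hD, hd]
    ring
  funext j
  rcases j with j | ⟨i, j⟩ | j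
  · exact congrFun hv j
  · have h1 := mq_coeff (fun j : Fin (a i) => y (Sum.inr (Sum.inl ⟨i, j⟩))) j
    rw [hq i, coeff_X_pow, if_neg (by have := j.2; omega)] at h1
    exact h1.symm
  · have h1 := rqe_coeff u (fun i => y (Sum.inr (Sum.inr i))) j
    rw [hr, coeff_C_mul, coeff_X_pow, if_neg (by have := j.2; omega), mul_zero] at h1
    exact h1.symm

end exist

open MvPolynomial

open Pool.Agent.DS (Smooth pt lp Phi phi Generic)

/-- Unknowns `v` (`m + 1`), the lower coefficients of the monic `q_i` (`a_i`), the lower coefficients of `r`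
(`e`, top coefficient `F (1, x)`): together `m + 1 + ∑ a_i + e`; equations: the coefficients of
`T ^ 0, …, T ^ (d - 1)`, `d = ∑ k_i a_i + e`, so one equation less than unknowns. `v = 0`:
`F (1,x) T ^ d = ∏ q_i ^ k_i * r` forces `q_i = T ^ a_i`, `r = F (1,x) T ^ e`. Copy of
`Pool.Agent.DS.exists_tangent`, `exists_tline`. -/
theorem exists_cline {Ω : Type} [Field Ω] [Algebra ℂ Ω] [IsAlgClosed Ω] {m c : ℕ} (a k : Fin c → ℕ)
    (e : ℕ) (hk : ∀ i, 1 ≤ k i) (hm : ∑ i, (k i - 1) * a i = m) {F : MvPolynomial (Fin (m + 2)) ℂ}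
    (hF : F.IsHomogeneous ((∑ i, k i * a i) + e)) (x : Fin (m + 1) → Ω)
    (hx : aeval (Fin.cons 1 x : Fin (m + 2) → Ω) F ≠ 0) : Nonempty (CLine a k e F x) := by
  have hA : ∀ (A : Type) [CommRing A] [Algebra ℂ A] [Algebra Ω A] [IsScalarTower ℂ Ω A]
      (y : Fin (m + 2) → A), aeval y (map (algebraMap ℂ Ω) F) = aeval y F := by
    intro A _ _ _ _ y
    rw [aeval_map_algebraMap]
  obtain ⟨v, q, r, hv, h⟩ := exists_tangent a k e hk hm (map (algebraMap ℂ Ω) F) (hF.map _) x (by
    rw [hA]; exact hx)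
  refine ⟨⟨v, fun i => Pool.Agent.DS.mq (q i),
    rqe (aeval (Fin.cons 1 x : Fin (m + 2) → Ω) (map (algebraMap ℂ Ω) F)) r, hv,
    fun i => Pool.Agent.DS.mq_monic (q i), fun i => Pool.Agent.DS.mq_natDegree (q i),
    rqe_natDegree_le _ _, ?_⟩⟩
  rw [← h, Pool.Agent.DS.line, hA, Pool.Agent.DS.lp_eq20]

end Pool.Agent.DC
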