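import Pool.Agent.Lib_MP_1209e6_dc.Moves
import Pool.Agent.Lib_MP_1209e6_dp.DerAlg

/-! PIECE FC: the restriction of `F` to the line over the field of constants of `D`. -/

set_option autoImplicit false

open MvPolynomial

namespace Pool.Agent.DC

open Pool.Agent.DS (Smooth pt lp Phi phi Generic)

section aux

variable {Ω : Type} [Field Ω] [Algebra ℂ Ω]

/-- the field of constants of a derivation -/
def cst39 (D : Derivation ℂ Ω Ω) : IntermediateField ℂ Ω where
  carrier := {a | D a = 0}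
  mul_mem' := by
    intro a b (ha : D a = 0) (hb : D b = 0)
    show D (a * b) = 0
    rw [D.leibniz, ha, hb, smul_zero, smul_zero, add_zero]
  add_mem' := by
    intro a b (ha : D a = 0) (hb : D b = 0)
    show D (a + b) = 0
    rw [map_add, ha, hb, add_zero]
  algebraMap_mem' := fun c => D.map_algebraMap c
  inv_mem' := by
    intro a (ha : D a = 0)
    show D a⁻¹ = 0
    rw [D.leibniz_inv, ha, smul_zero]

theorem root39 (D : Derivation ℂ Ω Ω) (G : Polynomial Ω) (hG : G ≠ 0)
    (hc : ∀ n, D (G.coeff n) = 0) (θ : Ω) (hθ : G.IsRoot θ) : D θ = 0 := by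
  refine DP.der_alg (cst39 D) D (fun a ha => ha) ?_
  have hl : G ∈ Polynomial.lifts (algebraMap (cst39 D) Ω) := by
    rw [Polynomial.lifts_iff_coeff_lifts]
    intro n
    exact ⟨⟨G.coeff n, hc n⟩, rfl⟩
  rw [Polynomial.mem_lifts] at hl
  obtain ⟨g, hg⟩ := hl
  refine ⟨g, ?_, ?_⟩
  · rintro rfl
    apply hG
    rw [← hg, Polynomial.map_zero]
  · rw [Polynomial.aeval_def, ← Polynomial.eval_map, hg]
    exact hθ

theorem coeff39 [IsAlgClosed Ω] (D : Derivation ℂ Ω Ω) (G P : Polynomial Ω) (hG : G ≠ 0)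
    (hc : ∀ n, D (G.coeff n) = 0) (hP : P.Monic) (hd : P ∣ G) (n : ℕ) : D (P.coeff n) = 0 := by
  have h1 : P = (P.roots.map fun a => Polynomial.X - Polynomial.C a).prod :=
    (IsAlgClosed.splits P).eq_prod_roots_of_monic hP
  have h2 : P ∈ Polynomial.lifts (algebraMap (cst39 D) Ω) := by
    rw [h1]
    refine Subsemiring.multiset_prod_mem _ _ ?_
    intro p hp
    rw [Multiset.mem_map] at hp
    obtain ⟨a, ha, rfl⟩ := hp
    have ha1 : D a = 0 := by
      refine root39 D G hG hc a ?_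
      exact (Polynomial.isRoot_of_mem_roots ha).dvd hd
    rw [Polynomial.mem_lifts]
    refine ⟨Polynomial.X - Polynomial.C ⟨a, ha1⟩, ?_⟩
    rw [Polynomial.map_sub, Polynomial.map_X, Polynomial.map_C]
    rfl
  rw [Polynomial.lifts_iff_coeff_lifts] at h2
  obtain ⟨a, ha⟩ := h2 n
  rw [← ha]
  exact a.2

theorem hom39 {n d : ℕ} {F : MvPolynomial (Fin n) ℂ} (hF : F.IsHomogeneous d) {R : Type}
    [CommRing R] [Algebra ℂ R] (s : R) (p : Fin n → R) :
    aeval (fun j => s * p j) F = s ^ d * aeval p F := by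
  rw [aeval_def, aeval_def, eval₂_eq', eval₂_eq', Finset.mul_sum]
  refine Finset.sum_congr rfl fun e he => ?_
  have hd : ∑ i, e i = d := by
    have h1 := hF (mem_support_iff.1 he)
    rw [← h1, Finsupp.weight_apply, Finsupp.sum_fintype]
    · simp
    · simp
  simp only [mul_pow, Finset.prod_mul_distrib]
  rw [Finset.prod_pow_eq_pow_sum, hd]
  ring

theorem eval39 {n : ℕ} (p : Fin n → Polynomial Ω) (F : MvPolynomial (Fin n) ℂ) (θ : Ω) :
    (aeval p F).eval θ = aeval (fun i => (p i).eval θ) F := by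
  have h := MvPolynomial.comp_aeval_apply (f := p)
    ((Polynomial.aeval θ).restrictScalars ℂ : Polynomial Ω →ₐ[ℂ] Ω) F
  exact h

theorem reflect39 (N : ℕ) (f : Polynomial Ω) (hf : f.natDegree ≤ N) (s : Ω) (hs : s ≠ 0) :
    (Polynomial.reflect N f).eval s⁻¹ * s ^ N = f.eval s := by
  letI : Invertible s := invertibleOfNonzero hs
  have h := Polynomial.eval₂_reflect_mul_pow (RingHom.id Ω) s N f hf
  rw [Polynomial.eval₂_id, Polynomial.eval₂_id, invOf_eq_inv] at h
  exact h

theorem lift39 (D : Derivation ℂ Ω Ω) {n : ℕ} (p : Fin n → Polynomial Ω)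
    (hp : ∀ i, ∃ q : Polynomial (cst39 D), q.map (algebraMap (cst39 D) Ω) = p i)
    (F : MvPolynomial (Fin n) ℂ) (k : ℕ) : D ((aeval p F).coeff k) = 0 := by
  choose q hq using hp
  have h := MvPolynomial.comp_aeval_apply (f := q)
    (Polynomial.mapAlgHom (cst39 D).val : Polynomial (cst39 D) →ₐ[ℂ] Polynomial Ω) F
  have h1 : (fun i => (Polynomial.mapAlgHom (cst39 D).val : Polynomial (cst39 D) →ₐ[ℂ] Polynomial Ω)
      (q i)) = p := by
    funext i
    rw [← hq i]
    rfl
  rw [h1] at h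
  rw [← h]
  have h2 : ((Polynomial.mapAlgHom (cst39 D).val : Polynomial (cst39 D) →ₐ[ℂ] Polynomial Ω)
      (aeval q F)).coeff k = algebraMap (cst39 D) Ω ((aeval q F).coeff k) := by
    exact Polynomial.coeff_map _ _
  rw [h2]
  exact ((aeval q F).coeff k).2

theorem reflect_prod39 {ι : Type} (s : Finset ι) (q : ι → Polynomial Ω) (a : ι → ℕ)
    (h : ∀ i, (q i).natDegree ≤ a i) :
    Polynomial.reflect (∑ i ∈ s, a i) (∏ i ∈ s, q i) = ∏ i ∈ s, Polynomial.reflect (a i) (q i) ∧
      (∏ i ∈ s, q i).natDegree ≤ ∑ i ∈ s, a i := by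
  classical
  induction s using Finset.induction_on with
  | empty => simp
  | insert i s hi ih =>
    rw [Finset.sum_insert hi, Finset.prod_insert hi, Finset.prod_insert hi]
    refine ⟨?_, ?_⟩
    · rw [Polynomial.reflect_mul _ _ (h i) ih.2, ih.1]
    · exact (Polynomial.natDegree_mul_le).trans (add_le_add (h i) ih.2)

theorem refl_le39 (A : ℕ) (B : Polynomial Ω) (hB : B.natDegree ≤ A) :
    (Polynomial.reflect A B).natDegree ≤ A :=
  (Polynomial.natDegree_reflect_le).trans (max_le le_rfl hB)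

theorem dbl39 (B : Polynomial Ω) (A : ℕ) (hB : B.natDegree ≤ A) (hB0 : B ≠ 0) (u : Ω) (hu : u ≠ 0)
    (h : (Polynomial.X - Polynomial.C u) ^ 2 ∣ Polynomial.reflect A B) :
    (Polynomial.X - Polynomial.C u⁻¹) ^ 2 ∣ B := by
  obtain ⟨H, hH⟩ := h
  have h0 : Polynomial.reflect A B ≠ 0 := fun h => hB0 (Polynomial.reflect_eq_zero_iff.1 h)
  have hH0 : H ≠ 0 := by
    rintro rfl
    exact h0 (by rw [hH, mul_zero])
  have h1 : 2 + H.natDegree ≤ A := by
    have h2 := refl_le39 A B hB
    rw [hH, Polynomial.natDegree_mul (pow_ne_zero _ (Polynomial.X_sub_C_ne_zero u)) hH0,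
      Polynomial.natDegree_pow, Polynomial.natDegree_X_sub_C] at h2
    omega
  obtain ⟨A', rfl⟩ : ∃ A', A = (1 + 1) + A' := ⟨A - 2, by omega⟩
  have h3 : Polynomial.reflect 1 (Polynomial.X - Polynomial.C u) =
      -(Polynomial.C u * (Polynomial.X - Polynomial.C u⁻¹)) := by
    rw [Polynomial.reflect_sub, Polynomial.reflect_one_X, Polynomial.reflect_C, pow_one, mul_sub,
      ← Polynomial.C_mul, mul_inv_cancel₀ hu, Polynomial.C_1]
    ring
  have h4 : B = Polynomial.reflect ((1 + 1) + A') (Polynomial.reflect ((1 + 1) + A') B) :=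
    Polynomial.reflect_reflect.symm
  have h5 : (Polynomial.X - Polynomial.C u).natDegree ≤ 1 := by rw [Polynomial.natDegree_X_sub_C]
  have h6 : Polynomial.reflect (1 + 1) ((Polynomial.X - Polynomial.C u) ^ 2) =
      (Polynomial.C u * (Polynomial.X - Polynomial.C u⁻¹)) ^ 2 := by
    rw [pow_two, Polynomial.reflect_mul _ _ h5 h5, h3]
    ring
  rw [h4, hH, Polynomial.reflect_mul _ _ (F := 1 + 1) (G := A') (by
      rw [Polynomial.natDegree_pow, Polynomial.natDegree_X_sub_C]) (by omega), h6]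
  refine ⟨Polynomial.C u * Polynomial.C u * Polynomial.reflect A' H, ?_⟩
  ring

theorem comp39 (B : Polynomial Ω) (t w θ : Ω) (hw : w ≠ 0)
    (h : (Polynomial.X - Polynomial.C θ) ^ 2 ∣
      B.comp ((Polynomial.X - Polynomial.C t) * Polynomial.C w⁻¹)) :
    (Polynomial.X - Polynomial.C ((θ - t) * w⁻¹)) ^ 2 ∣ B := by
  obtain ⟨H, hH⟩ := h
  have h1 : ((Polynomial.X - Polynomial.C t) * Polynomial.C w⁻¹).comp
      (Polynomial.C w * Polynomial.X + Polynomial.C t) = Polynomial.X := by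
    rw [Polynomial.mul_comp, Polynomial.sub_comp, Polynomial.X_comp, Polynomial.C_comp,
      Polynomial.C_comp, add_sub_cancel_right, mul_comm, ← mul_assoc, ← Polynomial.C_mul,
      inv_mul_cancel₀ hw, Polynomial.C_1, one_mul]
  have h2 : B = (B.comp ((Polynomial.X - Polynomial.C t) * Polynomial.C w⁻¹)).comp
      (Polynomial.C w * Polynomial.X + Polynomial.C t) := by
    rw [Polynomial.comp_assoc, h1, Polynomial.comp_X]
  have h3 : (Polynomial.X - Polynomial.C θ).comp (Polynomial.C w * Polynomial.X + Polynomial.C t) =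
      Polynomial.C w * (Polynomial.X - Polynomial.C ((θ - t) * w⁻¹)) := by
    rw [Polynomial.sub_comp, Polynomial.X_comp, Polynomial.C_comp, mul_sub, ← Polynomial.C_mul]
    have h4 : w * ((θ - t) * w⁻¹) = θ - t := by field_simp
    rw [h4, Polynomial.C_sub]
    ring
  rw [h2, hH, Polynomial.mul_comp, Polynomial.pow_comp, h3]
  refine ⟨Polynomial.C w ^ 2 * H.comp (Polynomial.C w * Polynomial.X + Polynomial.C t), ?_⟩
  ring

end aux

/-- the factorisation over the constants `S` of `D`; `t` is the coordinate on the line -/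
structure Fact {Ω : Type} [Field Ω] [Algebra ℂ Ω] {m c : ℕ} (a k : Fin c → ℕ) (e : ℕ)
    (F : MvPolynomial (Fin (m + 2)) ℂ) (x : Fin (m + 1) → Ω) (D : Derivation ℂ Ω Ω) where
  S : Finset Ω
  t : Ω
  Q : Fin c → Polynomial Ω
  R : Polynomial Ω
  S_const : ∀ y ∈ S, D y = 0
  Dt : D t ≠ 0
  Q_coeff : ∀ i n, (Q i).coeff n ∈ IntermediateField.adjoin ℂ (S : Set Ω)
  R_coeff : ∀ n, R.coeff n ∈ IntermediateField.adjoin ℂ (S : Set Ω)
  Q_monic : ∀ i, (Q i).Monic
  Q_deg : ∀ i, (Q i).natDegree = a i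
  R_deg : R.natDegree ≤ e
  sqfree : ∀ θ, ¬ (Polynomial.X - Polynomial.C θ) ^ 2 ∣ (∏ i, Q i) * R
  x_mem : ∀ j, x j ∈ IntermediateField.adjoin ℂ (S ∪ {t} : Set Ω)
  eq : aeval (Fin.cons 1 x : Fin (m + 2) → Ω) F = (∏ i, (Q i).eval t ^ k i) * R.eval t

/-- Choose `l` with `v_l ≠ 0`, `b = v / v_l`, `t = x_l`, `p = x - t b` (`p_l = 0`): `D b = 0` (`dir_const`), `D p = 0`,
`D t = v_l`. `g = al F p b = F (1, p + X b)`, coefficients in `ℂ(p, b)`, killed by `D`, `g (t) = F (1, x)`. With
`d = ∑ k_i a_i + e` the degree of `F` and `Φ(T) = F ((0,v) + T (1,x)) = ∏ q_i ^ k_i r`: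
`T ^ d g (t + v_l / T) = Φ(T)` (homogeneity). For `q_i = ∏ (T - s)` (simple nonzero roots) put
`Q_i = ∏ (X - (t + v_l / s))`, `R = g / ∏ Q_i ^ k_i`: up to a constant `Q_i` is `(X - t) ^ a_i q_i (v_l / (X - t))` and
`R` is a constant times `(X - t) ^ e r (v_l / (X - t))`, a polynomial of degree `≤ e`. The roots `θ` of `Q_i` are
roots of `g`, algebraic over `ℂ(p, b)`, so `D θ = 0`; `S` = all `p_j`, `b_j`, coefficients of `Q_i` and `R` (those
of `R` are killed by `D` because `R = g / ∏ Q_i ^ k_i`). `sqfree`: a double root `θ` of `(∏ Q_i) R` is `≠ t`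
(`g (t) ≠ 0`) and gives the double root `s = v_l / (θ - t)` of `(∏ q_i) r`. -/
theorem exists_fact {Ω : Type} [Field Ω] [Algebra ℂ Ω] [IsAlgClosed Ω] {m c : ℕ} {a k : Fin c → ℕ}
    {e : ℕ} {F : MvPolynomial (Fin (m + 2)) ℂ} (hF : F.IsHomogeneous ((∑ i, k i * a i) + e))
    {x : Fin (m + 1) → Ω} (h0 : aeval (Fin.cons 1 x : Fin (m + 2) → Ω) F ≠ 0) (T : CLine a k e F x)
    (hT : CNice T) (hk : ∀ i, 2 ≤ k i) (D : Derivation ℂ Ω Ω) (hD : ∀ j, D (x j) = T.v j) :
    Nonempty (Fact a k e F x D) := by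
  classical
  obtain ⟨l₀, hi⟩ : ∃ i, T.v i ≠ 0 := by
    by_contra h
    push Not at h
    exact T.v_ne (funext h)
  obtain ⟨κ, hκ⟩ := dir_const T hT D hD
  have hDt : D (x l₀) ≠ 0 := by rw [hD]; exact hi
  have hv' : ∀ j, D (T.v j * (T.v l₀)⁻¹) = 0 := by
    intro j
    rw [D.leibniz, D.leibniz_inv, hκ, hκ]
    simp only [smul_eq_mul]
    field_simp
    ring
  have hc : ∀ j, D (x j - x l₀ * (T.v j * (T.v l₀)⁻¹)) = 0 := by
    intro j
    rw [map_sub, D.leibniz, hv', hD, hD]
    simp only [smul_eq_mul]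
    field_simp
    ring
  set p : Fin (m + 2) → Polynomial Ω := Fin.cons 1 fun j =>
    Polynomial.C (x j - x l₀ * (T.v j * (T.v l₀)⁻¹)) + Polynomial.X *
      Polynomial.C (T.v j * (T.v l₀)⁻¹) with hp
  set G : Polynomial Ω := aeval p F with hG
  have hGc : ∀ n, D (G.coeff n) = 0 := by
    intro n
    refine lift39 D p ?_ F n
    intro j
    refine Fin.cases ?_ (fun j => ?_) j
    · exact ⟨1, by rw [hp, Fin.cons_zero, Polynomial.map_one]⟩
    · refine ⟨Polynomial.C ⟨_, hc j⟩ + Polynomial.X * Polynomial.C ⟨_, hv' j⟩, ?_⟩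
      rw [hp, Fin.cons_succ, Polynomial.map_add, Polynomial.map_mul, Polynomial.map_X,
        Polynomial.map_C, Polynomial.map_C]
      rfl
  have hGe : ∀ θ, G.eval θ = aeval (Fin.cons 1 fun j => x j + (θ - x l₀) * (T.v l₀)⁻¹ * T.v j :
      Fin (m + 2) → Ω) F := by
    intro θ
    rw [hG, eval39]
    refine congrArg (fun f => aeval f F) ?_
    funext j
    refine Fin.cases ?_ (fun j => ?_) j
    · simp [hp]
    · simp only [hp, Fin.cons_succ, Polynomial.eval_add, Polynomial.eval_mul, Polynomial.eval_X,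
        Polynomial.eval_C]
      ring
  have hGt : G.eval (x l₀) = aeval (Fin.cons 1 x : Fin (m + 2) → Ω) F := by
    rw [hGe]
    refine congrArg (fun f => aeval f F) ?_
    refine congrArg (fun f => (Fin.cons 1 f : Fin (m + 2) → Ω)) ?_
    funext j
    ring
  have hG0 : G ≠ 0 := by
    intro h
    rw [h, Polynomial.eval_zero] at hGt
    exact h0 hGt.symm
  have hqd : ∀ i, (T.q i).natDegree ≤ a i := fun i => (T.q_deg i).le
  have hq0 : ∀ i, (T.q i).coeff 0 ≠ 0 := by
    intro i h
    refine hT.ne_zero i 0 ?_ rfl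
    rw [Polynomial.IsRoot.def, ← Polynomial.coeff_zero_eq_eval_zero, h]
  -- the factors
  set l : Polynomial Ω := (Polynomial.X - Polynomial.C (x l₀)) * Polynomial.C (T.v l₀)⁻¹ with hl
  have hld : l.natDegree = 1 := by
    rw [hl, Polynomial.natDegree_mul_C (inv_ne_zero hi), Polynomial.natDegree_X_sub_C]
  have hle : ∀ θ, l.eval θ = (θ - x l₀) * (T.v l₀)⁻¹ := by
    intro θ
    simp [hl]
  set Q₀ : Fin c → Polynomial Ω := fun i => (Polynomial.reflect (a i) (T.q i)).comp l with hQ₀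
  set R₀ : Polynomial Ω := (Polynomial.reflect e T.r).comp l with hR₀
  have hfac : G = (∏ i, Q₀ i ^ k i) * R₀ := by
    have hmul : (G - (∏ i, Q₀ i ^ k i) * R₀) * (Polynomial.X - Polynomial.C (x l₀)) = 0 := by
      refine Polynomial.funext fun θ => ?_
      by_cases hθ : θ = x l₀
      · simp [hθ]
      · have hne : (θ - x l₀) * (T.v l₀)⁻¹ ≠ 0 := mul_ne_zero (sub_ne_zero.2 hθ) (inv_ne_zero hi)
        obtain ⟨s, hs, hs0⟩ : ∃ s : Ω, (θ - x l₀) * (T.v l₀)⁻¹ = s⁻¹ ∧ s ≠ 0 :=
          ⟨((θ - x l₀) * (T.v l₀)⁻¹)⁻¹, (inv_inv _).symm, inv_ne_zero hne⟩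
        have h1 : G.eval θ * s ^ ((∑ i, k i * a i) + e) =
            (∏ i, (T.q i).eval s ^ k i) * T.r.eval s := by
          have h2 : aeval (pt x T.v s) F = s ^ ((∑ i, k i * a i) + e) * G.eval θ := by
            rw [hGe θ, ← hom39 hF]
            refine congrArg (fun f => aeval f F) ?_
            funext j
            refine Fin.cases ?_ (fun j => ?_) j
            · simp [pt]
            · simp only [pt, Fin.cons_succ]
              rw [hs]
              field_simp
              ring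
          have h3 : (aeval (lp x T.v) F).eval s = aeval (pt x T.v s) F := by
            rw [eval39]
            refine congrArg (fun f => aeval f F) ?_
            funext j
            refine Fin.cases ?_ (fun j => ?_) j
            · simp [pt, Pool.Agent.DS.lp]
            · simp only [pt, Pool.Agent.DS.lp, Fin.cons_succ, Polynomial.eval_add,
                Polynomial.eval_mul, Polynomial.eval_X, Polynomial.eval_C]
          rw [mul_comm, ← h2, ← h3, T.eq, Polynomial.eval_mul, Polynomial.eval_prod]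
          simp only [Polynomial.eval_pow]
        have h4 : ((∏ i, Q₀ i ^ k i) * R₀).eval θ * s ^ ((∑ i, k i * a i) + e) =
            (∏ i, (T.q i).eval s ^ k i) * T.r.eval s := by
          have h5 : ∀ i, (T.q i).eval s ^ k i = (Q₀ i).eval θ ^ k i * s ^ (k i * a i) := by
            intro i
            rw [← reflect39 (a i) (T.q i) (hqd i) s hs0, mul_pow, ← pow_mul, mul_comm (a i),
              hQ₀]
            simp only [Polynomial.eval_comp, hle, hs]
          rw [Polynomial.eval_mul, Polynomial.eval_prod, Finset.prod_congr rfl fun i _ => h5 i,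
            Finset.prod_mul_distrib, Finset.prod_pow_eq_pow_sum, hR₀, Polynomial.eval_comp, hle, hs,
            ← reflect39 e T.r T.r_deg s hs0, pow_add]
          simp only [Polynomial.eval_pow]
          ring
        have h5 : G.eval θ = ((∏ i, Q₀ i ^ k i) * R₀).eval θ :=
          mul_right_cancel₀ (pow_ne_zero _ hs0) (h1.trans h4.symm)
        rw [Polynomial.eval_mul, Polynomial.eval_sub, h5, sub_self, zero_mul, Polynomial.eval_zero]
    have h6 : G - (∏ i, Q₀ i ^ k i) * R₀ = 0 :=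
      (mul_eq_zero.1 hmul).resolve_right (Polynomial.X_sub_C_ne_zero _)
    exact sub_eq_zero.1 h6
  have hk0 : ∀ i, k i ≠ 0 := fun i => by have := hk i; omega
  have hR0 : R₀ ≠ 0 := by
    intro h
    apply hG0
    rw [hfac, h, mul_zero]
  have hQd0 : ∀ i, (Q₀ i).natDegree = a i := by
    intro i
    have h1 : (Polynomial.reflect (a i) (T.q i)).natDegree = a i := by
      refine le_antisymm (refl_le39 _ _ (hqd i)) ?_
      refine Polynomial.le_natDegree_of_ne_zero ?_
      rw [Polynomial.coeff_reflect, Polynomial.revAt_le le_rfl, Nat.sub_self]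
      exact hq0 i
    simp only [hQ₀]
    rw [Polynomial.natDegree_comp, h1, hld, mul_one]
  have hQ0 : ∀ i, Q₀ i ≠ 0 := by
    intro i h
    apply hG0
    rw [hfac, Finset.prod_eq_zero (Finset.mem_univ i) (by rw [h, zero_pow (hk0 i)]), zero_mul]
  set Q : Fin c → Polynomial Ω := fun i => Q₀ i * Polynomial.C (Q₀ i).leadingCoeff⁻¹ with hQ
  set R₁ : Polynomial Ω := R₀ * Polynomial.C R₀.leadingCoeff⁻¹ with hR₁
  have hQm : ∀ i, (Q i).Monic := fun i => Polynomial.monic_mul_leadingCoeff_inv (hQ0 i)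
  have hRm : R₁.Monic := Polynomial.monic_mul_leadingCoeff_inv hR0
  have hQl : ∀ i, (Q₀ i).leadingCoeff ≠ 0 := fun i => Polynomial.leadingCoeff_ne_zero.2 (hQ0 i)
  have hRl : R₀.leadingCoeff ≠ 0 := Polynomial.leadingCoeff_ne_zero.2 hR0
  have hlc : G.leadingCoeff = (∏ i, (Q₀ i).leadingCoeff ^ k i) * R₀.leadingCoeff := by
    rw [hfac, Polynomial.leadingCoeff_mul, Polynomial.leadingCoeff_prod]
    simp only [Polynomial.leadingCoeff_pow]
  set R : Polynomial Ω := Polynomial.C G.leadingCoeff * R₁ with hR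
  have e1 : ∀ i, Q₀ i = Q i * Polynomial.C (Q₀ i).leadingCoeff := by
    intro i
    simp only [hQ]
    rw [mul_assoc, ← Polynomial.C_mul, inv_mul_cancel₀ (hQl i), Polynomial.C_1, mul_one]
  have e2 : R₀ = R₁ * Polynomial.C R₀.leadingCoeff := by
    rw [hR₁, mul_assoc, ← Polynomial.C_mul, inv_mul_cancel₀ hRl, Polynomial.C_1, mul_one]
  have hGQR : G = (∏ i, Q i ^ k i) * R := by
    have e3 : ∏ i, Q₀ i ^ k i = (∏ i, Q i ^ k i) * Polynomial.C (∏ i, (Q₀ i).leadingCoeff ^ k i) := by
      rw [map_prod, ← Finset.prod_mul_distrib]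
      refine Finset.prod_congr rfl fun i _ => ?_
      rw [Polynomial.C_pow, ← mul_pow, ← e1 i]
    rw [hR, hlc, Polynomial.C_mul]
    calc G = (∏ i, Q₀ i ^ k i) * R₀ := hfac
      _ = ((∏ i, Q i ^ k i) * Polynomial.C (∏ i, (Q₀ i).leadingCoeff ^ k i)) *
          (R₁ * Polynomial.C R₀.leadingCoeff) := by rw [← e3, ← e2]
      _ = _ := by ring
  have hQd : ∀ i, Q i ∣ G := fun i => (dvd_pow_self (Q i) (hk0 i)).trans
    ((Finset.dvd_prod_of_mem _ (Finset.mem_univ i)).trans ⟨R, hGQR⟩)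
  have hRd : R₁ ∣ G := ⟨(∏ i, Q i ^ k i) * Polynomial.C G.leadingCoeff, by
    conv_lhs => rw [hGQR, hR]
    ring⟩
  have hQc : ∀ i n, D ((Q i).coeff n) = 0 := fun i n => coeff39 D G (Q i) hG0 hGc (hQm i) (hQd i) n
  have hRc : ∀ n, D (R.coeff n) = 0 := by
    intro n
    rw [hR, Polynomial.coeff_C_mul, D.leibniz, coeff39 D G R₁ hG0 hGc hRm hRd n,
      show D G.leadingCoeff = 0 from hGc _, smul_zero, smul_zero, add_zero]
  set S : Finset Ω := Finset.univ.image (fun j => x j - x l₀ * (T.v j * (T.v l₀)⁻¹)) ∪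
    Finset.univ.image (fun j => T.v j * (T.v l₀)⁻¹) ∪
    Finset.univ.biUnion (fun i => (Q i).support.image (Q i).coeff) ∪
    R.support.image R.coeff with hS
  have hQS : ∀ i n, (Q i).coeff n ∈ IntermediateField.adjoin ℂ (S : Set Ω) := by
    intro i n
    by_cases hn : n ∈ (Q i).support
    · refine IntermediateField.subset_adjoin _ _ ?_
      rw [Finset.mem_coe, hS]
      refine Finset.mem_union_left _ (Finset.mem_union_right _ ?_)
      exact Finset.mem_biUnion.2 ⟨i, Finset.mem_univ i, Finset.mem_image_of_mem _ hn⟩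
    · rw [Polynomial.notMem_support_iff.1 hn]
      exact zero_mem _
  have hRS : ∀ n, R.coeff n ∈ IntermediateField.adjoin ℂ (S : Set Ω) := by
    intro n
    by_cases hn : n ∈ R.support
    · refine IntermediateField.subset_adjoin _ _ ?_
      rw [Finset.mem_coe, hS]
      refine Finset.mem_union_right _ ?_
      exact Finset.mem_image_of_mem _ hn
    · rw [Polynomial.notMem_support_iff.1 hn]
      exact zero_mem _
  have hle1 : IntermediateField.adjoin ℂ (S : Set Ω) ≤
      IntermediateField.adjoin ℂ (S ∪ {x l₀} : Set Ω) :=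
    IntermediateField.adjoin.mono _ _ _ Set.subset_union_left
  have htm : x l₀ ∈ IntermediateField.adjoin ℂ (S ∪ {x l₀} : Set Ω) :=
    IntermediateField.subset_adjoin _ _ (Set.mem_union_right _ rfl)
  refine ⟨{ S := S, t := x l₀, Q := Q, R := R, S_const := ?_, Dt := hDt, Q_coeff := hQS,
            R_coeff := hRS, Q_monic := hQm, Q_deg := ?_, R_deg := ?_, sqfree := ?_,
            x_mem := ?_, eq := ?_ }⟩
  · intro y hy
    rw [hS, Finset.mem_union, Finset.mem_union, Finset.mem_union] at hy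
    rcases hy with ((hy | hy) | hy) | hy
    · obtain ⟨j, _, rfl⟩ := Finset.mem_image.1 hy
      exact hc j
    · obtain ⟨j, _, rfl⟩ := Finset.mem_image.1 hy
      exact hv' j
    · obtain ⟨i, _, hy⟩ := Finset.mem_biUnion.1 hy
      obtain ⟨j, _, rfl⟩ := Finset.mem_image.1 hy
      exact hQc i j
    · obtain ⟨j, _, rfl⟩ := Finset.mem_image.1 hy
      exact hRc j
  · intro i
    simp only [hQ]
    rw [Polynomial.natDegree_mul_C (inv_ne_zero (hQl i)), hQd0 i]
  · have h8 : R₀.natDegree ≤ e := by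
      rw [hR₀]
      refine (Polynomial.natDegree_comp_le).trans ?_
      rw [hld, mul_one]
      exact refl_le39 _ _ T.r_deg
    rw [hR, hR₁]
    refine (Polynomial.natDegree_C_mul_le _ _).trans ?_
    exact (Polynomial.natDegree_mul_C_le _ _).trans h8
  · intro θ hθ
    set B : Polynomial Ω := (∏ i, T.q i) * T.r with hB
    have hq' := reflect_prod39 Finset.univ T.q a hqd
    have hBd : B.natDegree ≤ (∑ i, a i) + e :=
      (Polynomial.natDegree_mul_le).trans (add_le_add hq'.2 T.r_deg)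
    have hBr : Polynomial.reflect ((∑ i, a i) + e) B =
        (∏ i, Polynomial.reflect (a i) (T.q i)) * Polynomial.reflect e T.r := by
      rw [hB, Polynomial.reflect_mul _ _ hq'.2 T.r_deg, hq'.1]
    have hBc : (Polynomial.reflect ((∑ i, a i) + e) B).comp l = (∏ i, Q₀ i) * R₀ := by
      rw [hBr, Polynomial.mul_comp, Polynomial.prod_comp]
    have hne : (∏ i, Q₀ i) * R₀ ≠ 0 := mul_ne_zero (Finset.prod_ne_zero_iff.2 fun i _ => hQ0 i) hR0
    have hB0 : B ≠ 0 := by
      intro h
      apply hne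
      rw [← hBc, h, Polynomial.reflect_zero, Polynomial.zero_comp]
    -- the products differ by a constant
    have hGl : G.leadingCoeff ≠ 0 := Polynomial.leadingCoeff_ne_zero.2 hG0
    have e4 : R₁ = Polynomial.C G.leadingCoeff⁻¹ * R := by
      rw [hR, ← mul_assoc, ← Polynomial.C_mul, inv_mul_cancel₀ hGl, Polynomial.C_1, one_mul]
    have e5 : ∏ i, Q₀ i = (∏ i, Q i) * ∏ i, Polynomial.C (Q₀ i).leadingCoeff := by
      rw [← Finset.prod_mul_distrib]
      exact Finset.prod_congr rfl fun i _ => e1 i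
    have h1 : (∏ i, Q i) * R ∣ (∏ i, Q₀ i) * R₀ := by
      refine ⟨(∏ i, Polynomial.C (Q₀ i).leadingCoeff) * Polynomial.C G.leadingCoeff⁻¹ *
        Polynomial.C R₀.leadingCoeff, ?_⟩
      calc (∏ i, Q₀ i) * R₀ = ((∏ i, Q i) * ∏ i, Polynomial.C (Q₀ i).leadingCoeff) *
            ((Polynomial.C G.leadingCoeff⁻¹ * R) * Polynomial.C R₀.leadingCoeff) := by
            rw [← e5, ← e4, ← e2]
        _ = _ := by ring
    have h2 := hθ.trans h1
    rw [← hBc, hl] at h2
    have h3 := comp39 _ _ _ _ hi h2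
    have h4 : θ ≠ x l₀ := by
      rintro rfl
      have h5 : ((∏ i, Q i) * R).eval (x l₀) = 0 := by
        obtain ⟨H, hH⟩ := (dvd_pow_self (Polynomial.X - Polynomial.C (x l₀)) two_ne_zero).trans hθ
        rw [hH]
        simp
      rw [Polynomial.eval_mul, mul_eq_zero] at h5
      apply h0
      rw [← hGt, hGQR, Polynomial.eval_mul, Polynomial.eval_prod]
      rcases h5 with h5 | h5
      · rw [Polynomial.eval_prod, Finset.prod_eq_zero_iff] at h5
        obtain ⟨i, hi1, hi2⟩ := h5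
        rw [Finset.prod_eq_zero hi1 (by rw [Polynomial.eval_pow, hi2, zero_pow (hk0 i)]), zero_mul]
      · rw [h5, mul_zero]
    have h5 : (θ - x l₀) * (T.v l₀)⁻¹ ≠ 0 := mul_ne_zero (sub_ne_zero.2 h4) (inv_ne_zero hi)
    exact hT.sqfree _ (dbl39 B _ hBd hB0 _ h5 h3)
  · intro j
    have h1 : x j = (x j - x l₀ * (T.v j * (T.v l₀)⁻¹)) + x l₀ * (T.v j * (T.v l₀)⁻¹) := by ring
    rw [h1]
    refine add_mem ?_ (mul_mem htm ?_)
    · refine hle1 (IntermediateField.subset_adjoin _ _ ?_)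
      rw [Finset.mem_coe, hS]
      refine Finset.mem_union_left _ (Finset.mem_union_left _ (Finset.mem_union_left _ ?_))
      exact Finset.mem_image_of_mem _ (Finset.mem_univ j)
    · refine hle1 (IntermediateField.subset_adjoin _ _ ?_)
      rw [Finset.mem_coe, hS]
      refine Finset.mem_union_left _ (Finset.mem_union_left _ (Finset.mem_union_right _ ?_))
      exact Finset.mem_image_of_mem _ (Finset.mem_univ j)
  · rw [← hGt, hGQR, Polynomial.eval_mul, Polynomial.eval_prod]
    simp only [Polynomial.eval_pow]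

end Pool.Agent.DC
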