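import Pool.Agent.Lib_MP_1209e6_dc.Factor
import Pool.Agent.Lib_MP_1209e6_cv.ModelThree

/-! PIECES F2, F3, F4, F6: the genus one model `y ^ ν = R(t)` of the curves `w ^ μ = …`. -/

set_option autoImplicit false

open MvPolynomial

namespace Pool.Agent.DC

open Pool.Agent.DS (Smooth pt lp Phi phi Generic)

/-- a genus one model `y ^ ν = R(t)` (`CV.Good ν ε`: `ν = 2, ε = 4` or `ν = 3, ε = 3`) over the constants `S` of `D` -/
structure CFam {Ω : Type} [Field Ω] [Algebra ℂ Ω] {m : ℕ} (x : Fin (m + 1) → Ω) (w : Ω)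
    (D : Derivation ℂ Ω Ω) where
  ν : ℕ
  ε : ℕ
  good : Pool.Agent.CV.Good ν ε
  ν_pos : ν ≠ 0
  S : Finset Ω
  t : Ω
  y : Ω
  R : Polynomial Ω
  S_const : ∀ a ∈ S, D a = 0
  Dt : D t ≠ 0
  y_ne : y ≠ 0
  R_coeff : ∀ n, R.coeff n ∈ IntermediateField.adjoin ℂ (S : Set Ω)
  R_deg : R.natDegree ≤ ε
  y_pow : y ^ ν = R.eval t
  x_mem : ∀ j, x j ∈ IntermediateField.adjoin ℂ (S ∪ {t, y} : Set Ω)
  w_mem : w ∈ IntermediateField.adjoin ℂ (S ∪ {t, y} : Set Ω)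

end Pool.Agent.DC
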