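import Pool.Agent.Lib_MP_1209e6_dc.Fam

/-! PIECE F2. -/

set_option autoImplicit false

open MvPolynomial

namespace Pool.Agent.DC

open Pool.Agent.DS (Smooth pt lp Phi phi Generic)

/-- `w ^ 2 = Q(t) ^ 2 R(t)`: `y = w / Q(t)`. -/
theorem exists_cfam2 {Ω : Type} [Field Ω] [Algebra ℂ Ω] {m a : ℕ}
    {F : MvPolynomial (Fin (m + 2)) ℂ} {x : Fin (m + 1) → Ω}
    (h0 : aeval (Fin.cons 1 x : Fin (m + 2) → Ω) F ≠ 0) {D : Derivation ℂ Ω Ω}
    (f : Fact ![a] ![2] 4 F x D) (w : Ω)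
    (hw : w ^ 2 = aeval (Fin.cons 1 x : Fin (m + 2) → Ω) F) : Nonempty (CFam x w D) := by
  have he : aeval (Fin.cons 1 x : Fin (m + 2) → Ω) F = (f.Q 0).eval f.t ^ 2 * f.R.eval f.t := by
    rw [f.eq, Fin.prod_univ_one]
    rfl
  have hQ : (f.Q 0).eval f.t ≠ 0 := by
    intro h
    apply h0
    rw [he, h]
    ring
  have hw0 : w ≠ 0 := by
    rintro rfl
    apply h0
    rw [← hw]
    ring
  have htm : f.t ∈ IntermediateField.adjoin ℂ (f.S ∪ {f.t, w / (f.Q 0).eval f.t} : Set Ω) :=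
    IntermediateField.subset_adjoin ℂ _ (Or.inr (Or.inl rfl))
  have hym : w / (f.Q 0).eval f.t ∈
      IntermediateField.adjoin ℂ (f.S ∪ {f.t, w / (f.Q 0).eval f.t} : Set Ω) :=
    IntermediateField.subset_adjoin ℂ _ (Or.inr (Or.inr rfl))
  have hle : IntermediateField.adjoin ℂ (f.S : Set Ω) ≤
      IntermediateField.adjoin ℂ (f.S ∪ {f.t, w / (f.Q 0).eval f.t} : Set Ω) :=
    IntermediateField.adjoin.mono ℂ _ _ Set.subset_union_left
  have hQt : (f.Q 0).eval f.t ∈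
      IntermediateField.adjoin ℂ (f.S ∪ {f.t, w / (f.Q 0).eval f.t} : Set Ω) := by
    have h := Polynomial.eval_eq_sum_range (p := f.Q 0) f.t
    have h2 : ∑ i ∈ Finset.range ((f.Q 0).natDegree + 1), (f.Q 0).coeff i * f.t ^ i ∈
        IntermediateField.adjoin ℂ (f.S ∪ {f.t, w / (f.Q 0).eval f.t} : Set Ω) :=
      sum_mem fun n _ => mul_mem (hle (f.Q_coeff 0 n)) (pow_mem htm n)
    rwa [← h] at h2
  refine ⟨{ ν := 2, ε := 4, good := Pool.Agent.CV.good_two, ν_pos := by norm_num, S := f.S, t := f.t,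
            y := w / (f.Q 0).eval f.t, R := f.R, S_const := f.S_const, Dt := f.Dt,
            y_ne := div_ne_zero hw0 hQ, R_coeff := f.R_coeff, R_deg := f.R_deg, y_pow := ?_,
            x_mem := ?_, w_mem := ?_ }⟩
  · rw [div_pow, hw, he, mul_div_cancel_left₀ _ (pow_ne_zero _ hQ)]
  · intro j
    refine IntermediateField.adjoin.mono ℂ _ _ ?_ (f.x_mem j)
    exact Set.union_subset_union_right _ (Set.singleton_subset_iff.2 (Or.inl rfl))
  · have h := mul_mem hQt hym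
    rwa [mul_div_cancel₀ _ hQ] at h

end Pool.Agent.DC
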