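import Pool.Agent.Lib_MP_1209e6_dc.Fam

/-! PIECE F4. -/

set_option autoImplicit false

open MvPolynomial

namespace Pool.Agent.DC

open Pool.Agent.DS (Smooth pt lp Phi phi Generic)

/-- a derivation which kills `S` kills the field generated by `S` -/
theorem h8_const {Ω : Type} [Field Ω] [Algebra ℂ Ω] (D : Derivation ℂ Ω Ω) {S : Set Ω}
    (h : ∀ a ∈ S, D a = 0) {z : Ω} (hz : z ∈ IntermediateField.adjoin ℂ S) : D z = 0 := by
  induction hz using IntermediateField.adjoin_induction with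
  | mem x hx => exact h x hx
  | algebraMap x => exact D.map_algebraMap x
  | add x y _ _ hx hy => rw [map_add, hx, hy, add_zero]
  | inv x _ hx => rw [Derivation.leibniz_inv, hx, smul_zero]
  | mul x y _ _ hx hy => rw [Derivation.leibniz, hx, hy, smul_zero, smul_zero, add_zero]

theorem h8_eval_mem {Ω : Type} [Field Ω] [Algebra ℂ Ω] (L : IntermediateField ℂ Ω)
    (P : Polynomial Ω) (hP : ∀ n, P.coeff n ∈ L) {t : Ω} (ht : t ∈ L) : P.eval t ∈ L := by
  rw [Polynomial.eval_eq_sum_range]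
  exact sum_mem fun i _ => mul_mem (hP i) (pow_mem ht i)

theorem h8_natCast_mem {Ω : Type} [Field Ω] [Algebra ℂ Ω] (L : IntermediateField ℂ Ω) (n : ℕ) :
    (n : Ω) ∈ L := natCast_mem L n

/-- `w ^ 4 = Q(t) ^ 4 s(t) ^ 2 R(t)`, `s = X - σ`, `deg R ≤ 2`, `R(σ) ≠ 0` (`sqfree`). `w₁ = w / Q(t)`,
`p = w₁ / (t - σ)`, `τ = 1 / (t - σ)`: `p ^ 4 = R(t) τ² = α τ² + β τ + γ`, `α = R(σ)`, `β = R'(σ)`, `γ = R''(σ)/2`
(`R(t) = α + β (t - σ) + γ (t - σ)²`). With `y = 2 α τ + β`: `y² = 4 α p ^ 4 + β² - 4 α γ`: `good_two` with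
coordinate `p`. `D p ≠ 0` (otherwise `y`, `τ`, `t` would be algebraic over constants); `y ≠ 0` likewise
(`D τ ≠ 0`). `t = σ + 2α / (y - β)`, `w = Q(t) (t - σ) p`. -/
theorem exists_cfam4 {Ω : Type} [Field Ω] [Algebra ℂ Ω] {m a : ℕ}
    {F : MvPolynomial (Fin (m + 2)) ℂ} {x : Fin (m + 1) → Ω}
    (h0 : aeval (Fin.cons 1 x : Fin (m + 2) → Ω) F ≠ 0) {D : Derivation ℂ Ω Ω}
    (f : Fact ![a, 1] ![4, 2] 2 F x D) (w : Ω)
    (hw : w ^ 4 = aeval (Fin.cons 1 x : Fin (m + 2) → Ω) F) : Nonempty (CFam x w D) := by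
  haveI : CharZero Ω := charZero_of_injective_algebraMap (algebraMap ℂ Ω).injective
  have h2 : (2 : Ω) ≠ 0 := two_ne_zero
  set A := IntermediateField.adjoin ℂ (f.S : Set Ω) with hA
  have hAconst : ∀ z ∈ A, D z = 0 := fun z hz => h8_const D (fun y hy => f.S_const y hy) hz
  -- `s = X - σ`
  set σ : Ω := -(f.Q 1).coeff 0 with hσ
  have hσA : σ ∈ A := neg_mem (f.Q_coeff 1 0)
  have hs : f.Q 1 = Polynomial.X - Polynomial.C σ := by
    have h1 : (f.Q 1).natDegree = 1 := f.Q_deg 1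
    have h3 := (f.Q_monic 1).as_sum
    rw [h1] at h3
    rw [h3, hσ]
    simp
  -- `R = R0 + R1 X + R2 X ^ 2`
  set R0 := f.R.coeff 0 with hR0
  set R1 := f.R.coeff 1 with hR1
  set R2 := f.R.coeff 2 with hR2
  have hReval : ∀ z : Ω, f.R.eval z = R0 + R1 * z + R2 * z ^ 2 := by
    intro z
    have h1 := Polynomial.eval_eq_sum_range' (p := f.R) (n := 3) (by have := f.R_deg; omega) z
    rw [h1]
    simp [Finset.sum_range_succ, hR0, hR1, hR2]
  set α := f.R.eval σ with hα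
  set β := R1 + 2 * R2 * σ with hβ
  have hαA : α ∈ A := h8_eval_mem A f.R f.R_coeff hσA
  have h2A : (2 : Ω) ∈ A := by exact_mod_cast h8_natCast_mem A 2
  have h4A : (4 : Ω) ∈ A := by exact_mod_cast h8_natCast_mem A 4
  have hβA : β ∈ A := add_mem (f.R_coeff 1) (mul_mem (mul_mem h2A (f.R_coeff 2)) hσA)
  have hγA : R2 ∈ A := f.R_coeff 2
  have hprod : (∏ i, f.Q i) = f.Q 0 * f.Q 1 := Fin.prod_univ_two _
  have hα0 : α ≠ 0 := by
    intro h
    apply f.sqfree σ
    have h1 : (Polynomial.X - Polynomial.C σ) ∣ f.R := Polynomial.dvd_iff_isRoot.2 h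
    rw [hprod, hs, pow_two, mul_assoc]
    exact (mul_dvd_mul (dvd_refl _) h1).mul_left _
  -- the equation
  have heq : w ^ 4 = (f.Q 0).eval f.t ^ 4 * (f.t - σ) ^ 2 * f.R.eval f.t := by
    rw [hw, f.eq, Fin.prod_univ_two, hs]
    simp
  have hw0 : w ≠ 0 := by
    intro h
    rw [← hw, h] at h0
    simp at h0
  have hne : (f.Q 0).eval f.t ^ 4 * (f.t - σ) ^ 2 * f.R.eval f.t ≠ 0 := by
    rw [← heq]
    exact pow_ne_zero 4 hw0
  have hq0 : (f.Q 0).eval f.t ≠ 0 := by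
    intro h
    apply hne
    rw [h]
    ring
  have ht0 : f.t - σ ≠ 0 := by
    intro h
    apply hne
    rw [h]
    ring
  set q := (f.Q 0).eval f.t with hq
  set τ := (f.t - σ)⁻¹ with hτ
  set p := w * q⁻¹ * τ with hp
  set y := 2 * α * τ + β with hy
  have hττ : τ * (f.t - σ) = 1 := inv_mul_cancel₀ ht0
  have hRt : f.R.eval f.t = α + β * (f.t - σ) + R2 * (f.t - σ) ^ 2 := by
    rw [hα, hReval, hReval, hβ]
    ring
  have hp4 : p ^ 4 = α * τ ^ 2 + β * τ + R2 := by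
    have h1 : q * q⁻¹ = 1 := mul_inv_cancel₀ hq0
    calc p ^ 4 = w ^ 4 * (q⁻¹) ^ 4 * τ ^ 4 := by rw [hp]; ring
      _ = (q * q⁻¹) ^ 4 * (τ * (f.t - σ)) ^ 2 * τ ^ 2 * f.R.eval f.t := by rw [heq]; ring
      _ = τ ^ 2 * f.R.eval f.t := by rw [h1, hττ]; ring
      _ = α * τ ^ 2 + β * τ * (τ * (f.t - σ)) + R2 * (τ * (f.t - σ)) ^ 2 := by rw [hRt]; ring
      _ = α * τ ^ 2 + β * τ + R2 := by rw [hττ]; ring
  have hy2 : y ^ 2 = 4 * α * p ^ 4 + (β ^ 2 - 4 * α * R2) := by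
    rw [hp4, hy]
    ring
  have hDτ : D τ = -(τ ^ 2 * D f.t) := by
    rw [hτ, Derivation.leibniz_inv, map_sub, hAconst σ hσA, sub_zero, smul_eq_mul]
    ring
  have hDy : D y = 2 * α * D τ := by
    rw [hy, map_add, hAconst β hβA, add_zero, Derivation.leibniz, hAconst (2 * α) (mul_mem h2A hαA),
      smul_zero, add_zero, smul_eq_mul]
  have hτ0 : τ ≠ 0 := inv_ne_zero ht0
  have hDy0 : D y ≠ 0 := by
    rw [hDy, hDτ]
    exact mul_ne_zero (mul_ne_zero h2 hα0) (neg_ne_zero.2 (mul_ne_zero (pow_ne_zero 2 hτ0) f.Dt))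
  have hy0 : y ≠ 0 := by
    intro h
    rw [h, map_zero] at hDy0
    exact hDy0 rfl
  have hDp : D p ≠ 0 := by
    intro h
    have h1 : D (y ^ 2) = 0 := by
      rw [hy2, map_add, hAconst (β ^ 2 - 4 * α * R2)
        (sub_mem (pow_mem hβA 2) (mul_mem (mul_mem h4A hαA) hγA)), add_zero, Derivation.leibniz,
        hAconst (4 * α) (mul_mem h4A hαA), Derivation.leibniz_pow, h]
      simp
    rw [Derivation.leibniz_pow] at h1
    simp only [smul_eq_mul, nsmul_eq_mul] at h1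
    push_cast at h1
    have h3 : (2 : Ω) * (y ^ (2 - 1) * D y) ≠ 0 := mul_ne_zero h2 (mul_ne_zero (pow_ne_zero _ hy0) hDy0)
    exact h3 h1
  -- membership
  set B := IntermediateField.adjoin ℂ (f.S ∪ {p, y} : Set Ω) with hB
  have hAB : A ≤ B := IntermediateField.adjoin.mono ℂ _ _ Set.subset_union_left
  have hpB : p ∈ B := IntermediateField.subset_adjoin ℂ _ (Or.inr (Or.inl rfl))
  have hyB : y ∈ B := IntermediateField.subset_adjoin ℂ _ (Or.inr (Or.inr rfl))
  have h2B : (2 : Ω) ∈ B := hAB h2A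
  have hτB : τ ∈ B := by
    have h1 : τ = (y - β) * (2 * α)⁻¹ := by
      rw [hy]
      field_simp
      ring
    rw [h1]
    exact mul_mem (sub_mem hyB (hAB hβA)) (inv_mem (mul_mem h2B (hAB hαA)))
  have htB : f.t ∈ B := by
    have h1 : f.t = σ + τ⁻¹ := by
      rw [hτ, inv_inv]
      ring
    rw [h1]
    exact add_mem (hAB hσA) (inv_mem hτB)
  have hqB : q ∈ B := h8_eval_mem B (f.Q 0) (fun n => hAB (f.Q_coeff 0 n)) htB
  refine ⟨{ ν := 2, ε := 4, good := Pool.Agent.CV.good_two, ν_pos := by norm_num, S := f.S, t := p,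
            y := y, R := Polynomial.C (4 * α) * Polynomial.X ^ 4 + Polynomial.C (β ^ 2 - 4 * α * R2),
            S_const := f.S_const, Dt := hDp, y_ne := hy0, R_coeff := ?_, R_deg := ?_, y_pow := ?_,
            x_mem := ?_, w_mem := ?_ }⟩
  · intro n
    rw [Polynomial.coeff_add, Polynomial.coeff_C_mul, Polynomial.coeff_X_pow, Polynomial.coeff_C]
    refine add_mem (mul_mem (mul_mem h4A hαA) ?_) ?_
    · split_ifs
      · exact one_mem _
      · exact zero_mem _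
    · split_ifs
      · exact sub_mem (pow_mem hβA 2) (mul_mem (mul_mem h4A hαA) hγA)
      · exact zero_mem _
  · compute_degree
  · rw [hy2]
    simp
  · intro j
    have h1 : IntermediateField.adjoin ℂ (f.S ∪ {f.t} : Set Ω) ≤ B := by
      rw [IntermediateField.adjoin_le_iff]
      intro z hz
      rcases hz with hz | hz
      · exact hAB (IntermediateField.subset_adjoin ℂ _ hz)
      · rw [Set.mem_singleton_iff] at hz
        rw [hz]
        exact htB
    exact h1 (f.x_mem j)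
  · have h1 : w = q * (f.t - σ) * p := by
      have h3 : q * q⁻¹ = 1 := mul_inv_cancel₀ hq0
      calc w = (q * q⁻¹) * (τ * (f.t - σ)) * w := by rw [h3, hττ]; ring
        _ = q * (f.t - σ) * p := by rw [hp]; ring
    rw [h1]
    exact mul_mem (mul_mem hqB (sub_mem htB (hAB hσA))) hpB

end Pool.Agent.DC
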