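import Pool.Agent.Lib_MP_1209e6_dc.Fam

/-! PIECE F6. -/

set_option autoImplicit false

open MvPolynomial

namespace Pool.Agent.DC

open Pool.Agent.DS (Smooth pt lp Phi phi Generic)

section f6

variable {Ω : Type} [Field Ω] [Algebra ℂ Ω]

theorem f6_const {S : Finset Ω} {D : Derivation ℂ Ω Ω} (hS : ∀ y ∈ S, D y = 0) (a : Ω)
    (ha : a ∈ IntermediateField.adjoin ℂ (S : Set Ω)) : D a = 0 := by
  induction ha using IntermediateField.adjoin_induction with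
  | mem b hb => exact hS b hb
  | algebraMap c => exact D.map_algebraMap c
  | add b c _ _ hb hc => rw [map_add, hb, hc, add_zero]
  | inv b _ hb => rw [D.leibniz_inv, hb, smul_zero]
  | mul b c _ _ hb hc => rw [D.leibniz, hb, hc, smul_zero, smul_zero, add_zero]

theorem f6_eval (K : IntermediateField ℂ Ω) (P : Polynomial Ω) (hP : ∀ n, P.coeff n ∈ K) (t : Ω)
    (ht : t ∈ K) : P.eval t ∈ K := by
  rw [Polynomial.eval_eq_sum_range]
  exact K.sum_mem fun n _ => K.mul_mem (hP n) (pow_mem ht n)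

omit [Algebra ℂ Ω] in
theorem f6_linear (P : Polynomial Ω) (hP : P.Monic) (hd : P.natDegree = 1) :
    P = Polynomial.X - Polynomial.C (-(P.coeff 0)) := by
  have h1 : P.coeff 1 = 1 := by
    have := hP.coeff_natDegree
    rwa [hd] at this
  conv_lhs => rw [Polynomial.eq_X_add_C_of_natDegree_le_one hd.le, h1]
  simp

end f6

/-- `w ^ 6 = Q(t) ^ 6 s(t) ^ 3 u(t) ^ 2 R(t)`, `s = X - σ`, `u = X - ρ`, `σ ≠ ρ`, `R = R₀ + R₁ X`, `R(σ), R(ρ) ≠ 0`
(`sqfree`). `w₁ = w / Q(t)`, with `s, u, r` the values at `t`: `y = w₁³ / (s u r)`, `p = u s / w₁²`: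
`y² = s / r`, `p³ = u / r`. Linear relation (`s`, `u`, `r` polynomials of degree `≤ 1` in `t`):
`(σ - ρ) r = R(ρ)·(-1)… `, i.e. `r (σ - ρ) = R(σ) u - R(ρ) s`: check at `t = σ` and `t = ρ`. So
`R(ρ) y² = R(σ) p³ - (σ - ρ)`: `good_two` (degree `3 ≤ 4`) with coordinate `p` after dividing by `R(ρ)`.
`y² = s / r` is a nonconstant Moebius function of `t`, so `t ∈ ℂ(S, y²)`; `w₁ = y p r` (`w₁³ / w₁²`).
`D p ≠ 0` because `u / r` is a nonconstant Moebius function of `t`. -/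
theorem exists_cfam6 {Ω : Type} [Field Ω] [Algebra ℂ Ω] {m a : ℕ}
    {F : MvPolynomial (Fin (m + 2)) ℂ} {x : Fin (m + 1) → Ω}
    (h0 : aeval (Fin.cons 1 x : Fin (m + 2) → Ω) F ≠ 0) {D : Derivation ℂ Ω Ω}
    (f : Fact ![a, 1, 1] ![6, 3, 2] 1 F x D) (w : Ω)
    (hw : w ^ 6 = aeval (Fin.cons 1 x : Fin (m + 2) → Ω) F) : Nonempty (CFam x w D) := by
  obtain ⟨S, t, Q, R, hS, hDt, hQc, hRc, hQm, hQd, hRd, hsq, hx, heq⟩ := f
  set K : IntermediateField ℂ Ω := IntermediateField.adjoin ℂ (S : Set Ω) with hK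
  -- the roots
  obtain ⟨σ, hσ⟩ : ∃ σ, -((Q 1).coeff 0) = σ := ⟨_, rfl⟩
  obtain ⟨ρ, hρ⟩ : ∃ ρ, -((Q 2).coeff 0) = ρ := ⟨_, rfl⟩
  have hσK : σ ∈ K := by rw [← hσ]; exact K.neg_mem (hQc 1 0)
  have hρK : ρ ∈ K := by rw [← hρ]; exact K.neg_mem (hQc 2 0)
  have hQ1 : Q 1 = Polynomial.X - Polynomial.C σ := by
    rw [← hσ]; exact f6_linear _ (hQm 1) (hQd 1)
  have hQ2 : Q 2 = Polynomial.X - Polynomial.C ρ := by
    rw [← hρ]; exact f6_linear _ (hQm 2) (hQd 2)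
  have hR : R = Polynomial.C (R.coeff 1) * Polynomial.X + Polynomial.C (R.coeff 0) :=
    Polynomial.eq_X_add_C_of_natDegree_le_one hRd
  obtain ⟨R1, hR1⟩ : ∃ R1, R.coeff 1 = R1 := ⟨_, rfl⟩
  obtain ⟨R0, hR0⟩ : ∃ R0, R.coeff 0 = R0 := ⟨_, rfl⟩
  have hR1K : R1 ∈ K := by rw [← hR1]; exact hRc 1
  have hR0K : R0 ∈ K := by rw [← hR0]; exact hRc 0
  rw [hR1, hR0] at hR
  have hRe : ∀ θ, R.eval θ = R1 * θ + R0 := by
    intro θ
    rw [hR]; simp
  simp only [Fin.prod_univ_three] at hsq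
  have hσρ : σ ≠ ρ := by
    intro h
    apply hsq σ
    rw [hQ1, hQ2, ← h]
    exact ⟨Q 0 * R, by ring⟩
  have hRσ : R1 * σ + R0 ≠ 0 := by
    intro h
    apply hsq σ
    obtain ⟨R', hR'⟩ := Polynomial.dvd_iff_isRoot.2 (show R.IsRoot σ by
      rw [Polynomial.IsRoot.def, hRe, h])
    rw [hQ1]
    exact ⟨Q 0 * Q 2 * R', by rw [hR']; ring⟩
  have hRρ : R1 * ρ + R0 ≠ 0 := by
    intro h
    apply hsq ρ
    obtain ⟨R', hR'⟩ := Polynomial.dvd_iff_isRoot.2 (show R.IsRoot ρ by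
      rw [Polynomial.IsRoot.def, hRe, h])
    rw [hQ2]
    exact ⟨Q 0 * Q 1 * R', by rw [hR']; ring⟩
  -- the equation
  have heq' : w ^ 6 = (Q 0).eval t ^ 6 * (t - σ) ^ 3 * (t - ρ) ^ 2 * (R1 * t + R0) := by
    rw [hw, heq, Fin.prod_univ_three, hRe, hQ1, hQ2]
    simp
  have hne : (Q 0).eval t ^ 6 * (t - σ) ^ 3 * (t - ρ) ^ 2 * (R1 * t + R0) ≠ 0 := by
    rw [← heq', hw]; exact h0
  have hq : (Q 0).eval t ≠ 0 := by
    intro h; rw [h] at hne; simp at hne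
  have hs : t - σ ≠ 0 := by
    intro h; rw [h] at hne; simp at hne
  have hu : t - ρ ≠ 0 := by
    intro h; rw [h] at hne; simp at hne
  have hr : R1 * t + R0 ≠ 0 := by
    intro h; rw [h] at hne; simp at hne
  have hr' : t * R1 + R0 ≠ 0 := by rw [mul_comm]; exact hr
  have hw0 : w ≠ 0 := by
    rintro rfl
    rw [← heq'] at hne; simp at hne
  obtain ⟨q, hqe⟩ : ∃ q, (Q 0).eval t = q := ⟨_, rfl⟩
  rw [hqe] at heq' hq
  obtain ⟨w₁, hw₁⟩ : ∃ w₁, w / q = w₁ := ⟨_, rfl⟩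
  have hww : w = q * w₁ := by rw [← hw₁]; field_simp
  have hw₁0 : w₁ ≠ 0 := by
    rintro rfl
    exact hw0 (by rw [hww, mul_zero])
  have h6 : w₁ ^ 6 = (t - σ) ^ 3 * (t - ρ) ^ 2 * (R1 * t + R0) := by
    rw [hww, mul_pow] at heq'
    have : q ^ 6 ≠ 0 := pow_ne_zero _ hq
    apply mul_left_cancel₀ this
    rw [heq']; ring
  obtain ⟨y, hy⟩ : ∃ y, w₁ ^ 3 / ((t - σ) * (t - ρ) * (R1 * t + R0)) = y := ⟨_, rfl⟩
  obtain ⟨p, hp⟩ : ∃ p, (t - ρ) * (t - σ) / w₁ ^ 2 = p := ⟨_, rfl⟩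
  have hy2 : y ^ 2 * (R1 * t + R0) = t - σ := by
    rw [← hy, div_pow]
    have : (w₁ ^ 3) ^ 2 = (t - σ) ^ 3 * (t - ρ) ^ 2 * (R1 * t + R0) := by rw [← h6]; ring
    rw [this]
    field_simp
  have hp3 : p ^ 3 * (R1 * t + R0) = t - ρ := by
    rw [← hp, div_pow]
    have : (w₁ ^ 2) ^ 3 = (t - σ) ^ 3 * (t - ρ) ^ 2 * (R1 * t + R0) := by rw [← h6]; ring
    rw [this]
    field_simp
  have hyp : y * p * (R1 * t + R0) = w₁ := by
    rw [← hy, ← hp]
    field_simp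
  have hy0 : y ≠ 0 := by
    rintro rfl
    rw [zero_mul, zero_mul] at hyp
    exact hw₁0 hyp.symm
  -- the new curve
  have hrel : y ^ 2 * (R1 * ρ + R0) = (R1 * σ + R0) * p ^ 3 - (σ - ρ) := by
    apply mul_right_cancel₀ hr
    have e1 : y ^ 2 * (R1 * ρ + R0) * (R1 * t + R0) = (R1 * ρ + R0) * (t - σ) := by
      rw [← hy2]; ring
    have e2 : ((R1 * σ + R0) * p ^ 3 - (σ - ρ)) * (R1 * t + R0) =
        (R1 * σ + R0) * (t - ρ) - (σ - ρ) * (R1 * t + R0) := by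
      rw [← hp3]; ring
    rw [e1, e2]; ring
  -- membership
  obtain ⟨M, hM⟩ : ∃ M : IntermediateField ℂ Ω, IntermediateField.adjoin ℂ (S ∪ {p, y} : Set Ω) = M :=
    ⟨_, rfl⟩
  have hKM : K ≤ M := by
    rw [hK, ← hM]
    exact IntermediateField.adjoin.mono ℂ _ _ Set.subset_union_left
  have hpM : p ∈ M := by
    rw [← hM]; exact IntermediateField.subset_adjoin ℂ _ (by simp)
  have hyM : y ∈ M := by
    rw [← hM]; exact IntermediateField.subset_adjoin ℂ _ (by simp)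
  have hden : 1 - p ^ 3 * R1 ≠ 0 := by
    intro h
    apply hRρ
    have : (1 - p ^ 3 * R1) * (R1 * t + R0) = R1 * ρ + R0 := by
      have : (1 - p ^ 3 * R1) * (R1 * t + R0) = (R1 * t + R0) - R1 * (p ^ 3 * (R1 * t + R0)) := by ring
      rw [this, hp3]; ring
    rw [← this, h, zero_mul]
  have htM : t ∈ M := by
    have : t = (ρ + p ^ 3 * R0) / (1 - p ^ 3 * R1) := by
      rw [eq_div_iff hden]
      linear_combination -hp3
    rw [this]
    exact M.div_mem (M.add_mem (hKM hρK) (M.mul_mem (pow_mem hpM 3) (hKM hR0K)))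
      (M.sub_mem M.one_mem (M.mul_mem (pow_mem hpM 3) (hKM hR1K)))
  have hrM : R1 * t + R0 ∈ M := M.add_mem (M.mul_mem (hKM hR1K) htM) (hKM hR0K)
  have hwM : w ∈ M := by
    rw [hww, ← hyp, ← hqe]
    exact M.mul_mem (f6_eval M _ (fun n => hKM (hQc 0 n)) t htM)
      (M.mul_mem (M.mul_mem hyM hpM) hrM)
  have hxM : ∀ j, x j ∈ M := by
    intro j
    have h1 : IntermediateField.adjoin ℂ (S ∪ {t} : Set Ω) ≤ M := by
      rw [IntermediateField.adjoin_le_iff]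
      rintro z (hz | hz)
      · exact hKM (IntermediateField.subset_adjoin ℂ _ hz)
      · rw [Set.mem_singleton_iff] at hz
        rw [hz]; exact htM
    exact h1 (hx j)
  -- `D p ≠ 0`
  have hDK : ∀ b ∈ K, D b = 0 := fun b hb => f6_const hS b hb
  have hDp : D p ≠ 0 := by
    intro h
    have e1 := congrArg D hp3
    have e2 : D (p ^ 3) = 0 := by
      rw [Derivation.leibniz_pow, h]; simp
    simp only [Derivation.leibniz, map_add, map_sub, hDK R1 hR1K, hDK R0 hR0K, hDK ρ hρK, e2,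
      add_zero, sub_zero, smul_eq_mul, mul_zero] at e1
    have e3 : (1 - p ^ 3 * R1) * D t = 0 := by linear_combination -e1
    rcases mul_eq_zero.1 e3 with h' | h'
    · exact hden h'
    · exact hDt h'
  refine ⟨⟨2, 4, Pool.Agent.CV.good_two, two_ne_zero, S, p, y,
    Polynomial.C ((R1 * σ + R0) / (R1 * ρ + R0)) * Polynomial.X ^ 3 -
      Polynomial.C ((σ - ρ) / (R1 * ρ + R0)), hS, hDp, hy0, ?_, ?_, ?_, ?_, ?_⟩⟩
  · have hc1 : (R1 * σ + R0) / (R1 * ρ + R0) ∈ K :=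
      K.div_mem (K.add_mem (K.mul_mem hR1K hσK) hR0K) (K.add_mem (K.mul_mem hR1K hρK) hR0K)
    have hc2 : (σ - ρ) / (R1 * ρ + R0) ∈ K :=
      K.div_mem (K.sub_mem hσK hρK) (K.add_mem (K.mul_mem hR1K hρK) hR0K)
    intro n
    rw [Polynomial.coeff_sub, Polynomial.coeff_C_mul, Polynomial.coeff_X_pow, Polynomial.coeff_C]
    refine K.sub_mem (K.mul_mem hc1 ?_) ?_
    · split_ifs
      · exact K.one_mem
      · exact K.zero_mem
    · split_ifs
      · exact hc2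
      · exact K.zero_mem
  · refine (Polynomial.natDegree_sub_le _ _).trans ?_
    rw [Polynomial.natDegree_C]
    refine max_le ((Polynomial.natDegree_C_mul_le _ _).trans ?_) (by norm_num)
    rw [Polynomial.natDegree_X_pow]
    norm_num
  · rw [Polynomial.eval_sub, Polynomial.eval_mul, Polynomial.eval_C, Polynomial.eval_pow,
      Polynomial.eval_X, Polynomial.eval_C]
    field_simp
    linear_combination hrel
  · rw [hM]; exact hxM
  · rw [hM]; exact hwM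

end Pool.Agent.DC
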