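import Pool.Agent.Lib_MP_1209e6_dc.Defs
import Pool.Agent.Lib_MP_1209e6_ds.Good

/-! PIECE GO: the divisors of the differential of `F` on the line (generalise `ds/Div.lean`, `ds/Good.lean`). -/

set_option autoImplicit false

open MvPolynomial

namespace Pool.Agent.DC

open Pool.Agent.DS (Smooth pt lp Phi phi Generic)

section aux

variable {Ω : Type} [Field Ω] [Algebra ℂ Ω]

theorem go_prime (s : Ω) : Prime (Polynomial.X - Polynomial.C s : Polynomial Ω) :=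
  Polynomial.prime_X_sub_C s

/-- `(X - s)² ∣ P` implies `X - s ∣ Δ P` -/
theorem go_dvd_der (Δ : Derivation ℂ (Polynomial Ω) (Polynomial Ω)) (p P : Polynomial Ω)
    (h : p ^ 2 ∣ P) : p ∣ Δ P := by
  obtain ⟨R, rfl⟩ := h
  rw [Δ.leibniz, Derivation.leibniz_pow]
  simp only [smul_eq_mul, nsmul_eq_mul]
  refine dvd_add ?_ ?_
  · exact Dvd.dvd.mul_right (dvd_pow_self p two_ne_zero) _
  · refine Dvd.dvd.mul_left (Dvd.dvd.mul_left ?_ _) R
    exact Dvd.dvd.mul_right (by simp) _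

theorem go_split (p : Polynomial Ω) (hp : Prime p) (a b : Polynomial Ω) (h : p ^ 2 ∣ a * b) :
    p ^ 2 ∣ a ∨ (p ∣ a ∧ p ∣ b) ∨ p ^ 2 ∣ b := by
  by_cases ha : p ∣ a
  · obtain ⟨a', rfl⟩ := ha
    have h1 : p ∣ a' * b := by
      have h2 : p * p ∣ p * (a' * b) := by
        rw [← sq, ← mul_assoc]
        exact h
      exact (mul_dvd_mul_iff_left hp.ne_zero).1 h2
    rcases hp.dvd_or_dvd h1 with h3 | h3
    · left
      rw [sq]
      exact mul_dvd_mul_left p h3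
    · exact Or.inr (Or.inl ⟨dvd_mul_right _ _, h3⟩)
  · right
    right
    exact hp.pow_dvd_of_dvd_mul_left 2 ha h

/-- the logarithmic derivative of `∏ q_i ^ (k_i - 1)` -/
theorem go_log (Δ : Derivation ℂ (Polynomial Ω) (Polynomial Ω)) {ι : Type} (q : ι → Polynomial Ω)
    (k : ι → ℕ) (hk : ∀ i, 2 ≤ k i) (S : Finset ι) :
    ∃ L : Polynomial Ω, Δ (∏ i ∈ S, q i ^ (k i - 1)) * ∏ i ∈ S, q i = (∏ i ∈ S, q i ^ (k i - 1)) * L ∧
      (∀ p : Polynomial Ω, Prime p → p ^ 2 ∣ ∏ i ∈ S, q i → p ∣ L) ∧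
      (Δ Polynomial.X = 0 → Polynomial.X ∣ ∏ i ∈ S, q i → Polynomial.X ∣ L) := by
  classical
  induction S using Finset.induction_on with
  | empty =>
    refine ⟨0, ?_, fun p _ _ => dvd_zero _, fun _ _ => dvd_zero _⟩
    simp
  | insert i S hi ih =>
    obtain ⟨L, hL, h1, h2⟩ := ih
    refine ⟨((k i - 1 : ℕ) : Polynomial Ω) * Δ (q i) * ∏ j ∈ S, q j + q i * L, ?_, ?_, ?_⟩
    · rw [Finset.prod_insert hi, Finset.prod_insert hi, Δ.leibniz, Derivation.leibniz_pow]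
      simp only [smul_eq_mul, nsmul_eq_mul]
      obtain ⟨l, hl⟩ : ∃ l, k i - 1 = l + 1 := ⟨k i - 2, by have := hk i; omega⟩
      rw [hl]
      simp only [Nat.add_sub_cancel]
      linear_combination q i ^ (l + 1) * q i * hL
    · intro p hp hdvd
      rw [Finset.prod_insert hi] at hdvd
      rcases go_split p hp _ _ hdvd with h3 | ⟨h3, h4⟩ | h3
      · refine dvd_add ?_ ?_
        · exact Dvd.dvd.mul_right (Dvd.dvd.mul_left (go_dvd_der Δ p _ h3) _) _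
        · exact Dvd.dvd.mul_right ((dvd_pow_self p two_ne_zero).trans h3) _
      · exact dvd_add (Dvd.dvd.mul_left h4 _) (Dvd.dvd.mul_right h3 _)
      · refine dvd_add ?_ ?_
        · exact Dvd.dvd.mul_left ((dvd_pow_self p two_ne_zero).trans h3) _
        · exact Dvd.dvd.mul_left (h1 p hp h3) _
    · intro hX hdvd
      rw [Finset.prod_insert hi] at hdvd
      rcases Polynomial.prime_X.dvd_or_dvd hdvd with h3 | h3
      · refine dvd_add ?_ (Dvd.dvd.mul_right h3 _)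
        obtain ⟨R, hR⟩ := h3
        refine Dvd.dvd.mul_right (Dvd.dvd.mul_left ?_ _) _
        rw [hR, Δ.leibniz, hX, smul_zero, add_zero]
        exact dvd_mul_right _ _
      · exact dvd_add (Dvd.dvd.mul_left h3 _) (Dvd.dvd.mul_left (h2 hX h3) _)

end aux

variable {Ω : Type} [Field Ω] [Algebra ℂ Ω] {m c : ℕ} {a k : Fin c → ℕ} {e d : ℕ}
  {F : MvPolynomial (Fin (m + 2)) ℂ} {x : Fin (m + 1) → Ω}

theorem go_eq (T : CLine a k e F x) (hk : ∀ i, 2 ≤ k i) :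
    aeval (lp x T.v) F = T.G * ((∏ i, T.q i) * T.r) := by
  rw [T.eq, CLine.G, ← mul_assoc, ← Finset.prod_mul_distrib]
  congr 1
  refine Finset.prod_congr rfl fun i _ => ?_
  rw [← pow_succ]
  congr 1
  have := hk i
  omega

theorem go_der (T : CLine a k e F x) (hk : ∀ i, 2 ≤ k i)
    (Δ : Derivation ℂ (Polynomial Ω) (Polynomial Ω)) :
    ∃ L : Polynomial Ω, Δ (aeval (lp x T.v) F) = T.G * (L * T.r + Δ ((∏ i, T.q i) * T.r)) ∧
      (∀ p : Polynomial Ω, Prime p → p ^ 2 ∣ ∏ i, T.q i → p ∣ L) ∧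
      (Δ Polynomial.X = 0 → Polynomial.X ∣ ∏ i, T.q i → Polynomial.X ∣ L) := by
  obtain ⟨L, hL, h1, h2⟩ := go_log Δ T.q k hk Finset.univ
  refine ⟨L, ?_, h1, h2⟩
  rw [go_eq T hk, Δ.leibniz]
  simp only [smul_eq_mul]
  have hL' : Δ T.G * ∏ i, T.q i = T.G * L := hL
  linear_combination T.r * hL'

theorem go_ne (T : CLine a k e F x) : T.G ≠ 0 := by
  rw [CLine.G]
  exact Finset.prod_ne_zero_iff.2 fun i _ => pow_ne_zero _ (T.q_monic i).ne_zero

theorem go_sq (T : CLine a k e F x) (hk : ∀ i, 2 ≤ k i) (i : Fin c) (s : Ω) (h : (T.q i).IsRoot s) :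
    (Polynomial.X - Polynomial.C s) ^ 2 ∣ aeval (lp x T.v) F := by
  rw [T.eq]
  refine Dvd.dvd.mul_right ?_ _
  refine dvd_trans ?_ (Finset.dvd_prod_of_mem _ (Finset.mem_univ i))
  exact (pow_dvd_pow_of_dvd (Polynomial.dvd_iff_isRoot.2 h) 2).trans (pow_dvd_pow _ (hk i))

theorem go_root (T : CLine a k e F x) (s : Ω) (h : T.G.IsRoot s) : ∃ i, (T.q i).IsRoot s := by
  rw [CLine.G, Polynomial.IsRoot, Polynomial.eval_prod, Finset.prod_eq_zero_iff] at h
  obtain ⟨i, -, hi⟩ := h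
  rw [Polynomial.eval_pow] at hi
  exact ⟨i, eq_zero_of_pow_eq_zero hi⟩

/-- `∏ q_i ^ (k_i - 1)` divides `Δ (∏ q_i ^ k_i * r)` for every derivation `Δ` of `Ω[X]`. -/
theorem cgood_G (hF : F.IsHomogeneous d) (T : CLine a k e F x) (hk : ∀ i, 2 ≤ k i)
    (hp : PartNe F x T.v) : CGood F x T.v T.G := by
  refine ⟨go_ne T, fun δ => ?_, ?_, fun s hs => ?_⟩
  · obtain ⟨Δ, hX, hC⟩ := Pool.Agent.DS.exists_coef δ
    rw [← Pool.Agent.DS.der_line F x T.v δ Δ hX hC]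
    obtain ⟨L, hL, -, -⟩ := go_der T hk Δ
    rw [hL]
    exact dvd_mul_right _ _
  · rw [Pool.Agent.DS.euler_line hF]
    refine dvd_sub ?_ ?_
    · rw [go_eq T hk]
      exact Dvd.dvd.mul_left (dvd_mul_right _ _) _
    · obtain ⟨L, hL, -, -⟩ := go_der T hk (Pool.Agent.DS.gdDer Ω)
      rw [Pool.Agent.DS.gdDer_apply] at hL
      rw [hL]
      exact Dvd.dvd.mul_left (dvd_mul_right _ _) _
  · obtain ⟨i, hi⟩ := go_root T s hs
    exact hp s (go_sq T hk i s hi)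

/-- If `(X - s)²` divides `(∏ q_i) r` then `(X - s) ∏ q_i ^ (k_i - 1)` divides `Δ (∏ q_i ^ k_i * r)`:
`Δ (∏ q_i ^ k_i * r) = ∏ q_i ^ (k_i - 1) * (∑ k_i (Δ q_i) ∏_{j ≠ i} q_j * r + ∏ q_i * Δ r)`, and the bracket is
`∑ (k_i - 1) (Δ q_i) ∏_{j ≠ i} q_j r + Δ (∏ q_i * r)`: if `(X - s)² ∣ q_i` or `(X - s) ∣ q_i, q_l` or
`(X - s) ∣ q_i, r` or `(X - s)² ∣ r` every term is divisible by `X - s`. -/
theorem cgood_double (hF : F.IsHomogeneous d) (T : CLine a k e F x) (hk : ∀ i, 2 ≤ k i)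
    (hp : PartNe F x T.v) (s : Ω) (h : (Polynomial.X - Polynomial.C s) ^ 2 ∣ (∏ i, T.q i) * T.r) :
    CGood F x T.v ((Polynomial.X - Polynomial.C s) * T.G) := by
  have key : ∀ Δ : Derivation ℂ (Polynomial Ω) (Polynomial Ω),
      (Polynomial.X - Polynomial.C s) * T.G ∣ Δ (aeval (lp x T.v) F) := by
    intro Δ
    obtain ⟨L, hL, h1, -⟩ := go_der T hk Δ
    rw [hL, mul_comm _ T.G]
    refine mul_dvd_mul_left _ (dvd_add ?_ (go_dvd_der Δ _ _ h))
    rcases go_split _ (go_prime s) _ _ h with h3 | ⟨-, h4⟩ | h3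
    · exact Dvd.dvd.mul_right (h1 _ (go_prime s) h3) _
    · exact Dvd.dvd.mul_left h4 _
    · exact Dvd.dvd.mul_left ((dvd_pow_self _ two_ne_zero).trans h3) _
  refine ⟨mul_ne_zero (Polynomial.X_sub_C_ne_zero s) (go_ne T), fun δ => ?_, ?_, fun s' hs' => ?_⟩
  · obtain ⟨Δ, hX, hC⟩ := Pool.Agent.DS.exists_coef δ
    rw [← Pool.Agent.DS.der_line F x T.v δ Δ hX hC]
    exact key Δ
  · rw [Pool.Agent.DS.euler_line hF]
    refine dvd_sub ?_ ?_
    · rw [go_eq T hk, mul_comm _ T.G]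
      exact Dvd.dvd.mul_left (mul_dvd_mul_left _ ((dvd_pow_self _ two_ne_zero).trans h)) _
    · have h1 := key (Pool.Agent.DS.gdDer Ω)
      rw [Pool.Agent.DS.gdDer_apply] at h1
      exact Dvd.dvd.mul_left h1 _
  · rcases Polynomial.root_mul.1 hs' with h2 | h2
    · rw [Polynomial.root_X_sub_C] at h2
      rw [← h2]
      refine hp s ?_
      rw [go_eq T hk]
      exact Dvd.dvd.mul_left h _
    · obtain ⟨i, hi⟩ := go_root T s' h2
      exact hp s' (go_sq T hk i s' hi)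

/-- `X ∣ q_i`: `X ∏ q_j ^ (k_j - 1)` divides `Δ (∏ q_j ^ k_j * r)` if `Δ X = 0`, and `d Φ - X Φ'`. -/
theorem cgood_zero (hF : F.IsHomogeneous d) (T : CLine a k e F x) (hk : ∀ i, 2 ≤ k i)
    (hp : PartNe F x T.v) (i : Fin c) (h : (T.q i).IsRoot 0) : CGood F x T.v (Polynomial.X * T.G) := by
  have hXq : (Polynomial.X : Polynomial Ω) ∣ T.q i := by
    have := Polynomial.dvd_iff_isRoot.2 h
    rwa [Polynomial.C_0, sub_zero] at this
  have hXP : (Polynomial.X : Polynomial Ω) ∣ ∏ i, T.q i :=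
    hXq.trans (Finset.dvd_prod_of_mem _ (Finset.mem_univ i))
  refine ⟨mul_ne_zero Polynomial.X_ne_zero (go_ne T), fun δ => ?_, ?_, fun s' hs' => ?_⟩
  · obtain ⟨Δ, hX, hC⟩ := Pool.Agent.DS.exists_coef δ
    rw [← Pool.Agent.DS.der_line F x T.v δ Δ hX hC]
    obtain ⟨L, hL, -, h2⟩ := go_der T hk Δ
    rw [hL, mul_comm _ T.G]
    refine mul_dvd_mul_left _ (dvd_add (Dvd.dvd.mul_right (h2 hX hXP) _) ?_)
    obtain ⟨R, hR⟩ := hXP.mul_right T.r
    rw [hR, Δ.leibniz, hX, smul_zero, add_zero]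
    exact dvd_mul_right _ _
  · rw [Pool.Agent.DS.euler_line hF]
    refine dvd_sub ?_ ?_
    · rw [go_eq T hk, mul_comm _ T.G]
      exact Dvd.dvd.mul_left (mul_dvd_mul_left _ (hXP.mul_right _)) _
    · obtain ⟨L, hL, -, -⟩ := go_der T hk (Pool.Agent.DS.gdDer Ω)
      rw [Pool.Agent.DS.gdDer_apply] at hL
      rw [hL]
      exact mul_dvd_mul_left _ (dvd_mul_right _ _)
  · rcases Polynomial.root_mul.1 hs' with h2 | h2
    · have h3 : s' = 0 := by simpa using h2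
      rw [h3]
      exact hp 0 (go_sq T hk i 0 h)
    · obtain ⟨j, hj⟩ := go_root T s' h2
      exact hp s' (go_sq T hk j s' hj)

end Pool.Agent.DC
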