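import Pool.Agent.Lib_MP_1209e6_dc.Main

/-! The four cases `μ = 2, 3, 4, 6` of `DC.cyclic_cover_of_line`. -/

set_option autoImplicit false

open MvPolynomial Pool.Agent.Campana Pool.Agent.CampanaFlow

namespace Pool.Agent.DC

theorem cyclic_cover_mild {m d μ e : ℕ}
    (h : (μ = 2 ∧ e = 4) ∨ (μ = 3 ∧ e = 3) ∨ (μ = 4 ∧ e = 2) ∨ (μ = 6 ∧ e = 1))
    (hd : (μ - 1) * d = μ * (m + 2)) {F : MvPolynomial (Fin (m + 2)) ℂ} (hF : F.IsHomogeneous d)
    (hs : CMild (d - e) F) {n : ℕ} (P : Ideal (MvPolynomial (Fin (n + 1)) ℂ)) [P.IsPrime]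
    (hP : IsVariety P) (hK : IsCyclic μ (FunField P) F) :
    SpecialField (FunField P) ∧ BrodySpecial P := by
  rcases h with ⟨rfl, rfl⟩ | ⟨rfl, rfl⟩ | ⟨rfl, rfl⟩ | ⟨rfl, rfl⟩
  · refine cyclic_cover_of_line ![m] ![2] 4 2 (by norm_num) (by simp) (by simp) (F := F) ?_ ?_
      (fun h0 D f w hw => exists_cfam2 h0 f w hw) P hP hK
    · convert hF using 1
      simp
      omega
    · convert hs using 1
      simp
      omega
  · obtain ⟨j, hj⟩ : ∃ j, m + 2 = 2 * (j + 1) := ⟨(m + 2) / 2 - 1, by omega⟩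
    refine cyclic_cover_of_line ![j] ![3] 3 3 (by norm_num) (by simp) (by simp; omega) (F := F) ?_ ?_
      (fun h0 D f w hw => exists_cfam3 h0 f w hw) P hP hK
    · convert hF using 1
      simp
      omega
    · convert hs using 1
      simp
      omega
  · obtain ⟨j, hj⟩ : ∃ j, m + 2 = 3 * (j + 1) := ⟨(m + 2) / 3 - 1, by omega⟩
    refine cyclic_cover_of_line ![j, 1] ![4, 2] 2 4 (by norm_num) ?_ ?_ (F := F) ?_ ?_
      (fun h0 D f w hw => exists_cfam4 h0 f w hw) P hP hK
    · intro i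
      fin_cases i <;> simp
    · simp [Fin.sum_univ_two]
      omega
    · convert hF using 1
      simp [Fin.sum_univ_two]
      omega
    · convert hs using 1
      simp [Fin.sum_univ_two]
      omega
  · obtain ⟨j, hj⟩ : ∃ j, m + 2 = 5 * (j + 1) := ⟨(m + 2) / 5 - 1, by omega⟩
    refine cyclic_cover_of_line ![j, 1, 1] ![6, 3, 2] 1 6 (by norm_num) ?_ ?_ (F := F) ?_ ?_
      (fun h0 D f w hw => exists_cfam6 h0 f w hw) P hP hK
    · intro i
      fin_cases i <;> simp
    · simp [Fin.sum_univ_three]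
      omega
    · convert hF using 1
      simp [Fin.sum_univ_three]
      omega
    · convert hs using 1
      simp [Fin.sum_univ_three]
      omega

end Pool.Agent.DC
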