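import Pool.Agent.Lib_MP_1209e6_ds.FirstRoot

/-! The first integral and the nilpotent operator `y ↦ δ_y v + s y` at a root `s`. -/

set_option autoImplicit false

open MvPolynomial Pool.Agent.DS

namespace Pool.Agent.DC

variable {Ω : Type} [Field Ω] [Algebra ℂ Ω] {m : ℕ}

/-- the differential of `a - u b` on the line `x + X v` -/
noncomputable def sDer (x v : Fin (m + 1) → Ω) (a b : MvPolynomial (Fin (m + 1)) ℂ) (u : Ω)
    (y : Fin (m + 1) → Ω) : Polynomial Ω :=
  ∑ j, Polynomial.C (y j) *
    (aeval (fun j => Polynomial.C (x j) + Polynomial.X * Polynomial.C (v j)) (pderiv j a) -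
      Polynomial.C u *
        aeval (fun j => Polynomial.C (x j) + Polynomial.X * Polynomial.C (v j)) (pderiv j b))

theorem sDer_smul (x v : Fin (m + 1) → Ω) (a b : MvPolynomial (Fin (m + 1)) ℂ) (u c : Ω)
    (y : Fin (m + 1) → Ω) : sDer x v a b u (fun j => c * y j) = Polynomial.C c * sDer x v a b u y := by
  unfold sDer
  rw [Finset.mul_sum]
  refine Finset.sum_congr rfl fun j _ => ?_
  rw [map_mul]
  ring

/-- the `X`-derivative of the line identity -/
theorem sDer_v (x v : Fin (m + 1) → Ω) (a b : MvPolynomial (Fin (m + 1)) ℂ) (u : Ω)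
    (h : aeval (fun j => Polynomial.C (x j) + Polynomial.X * Polynomial.C (v j)) a =
      Polynomial.C u * aeval (fun j => Polynomial.C (x j) + Polynomial.X * Polynomial.C (v j)) b) :
    sDer x v a b u v = 0 := by
  set l : Fin (m + 1) → Polynomial Ω :=
    fun j => Polynomial.C (x j) + Polynomial.X * Polynomial.C (v j) with hl
  have hd : ∀ G : MvPolynomial (Fin (m + 1)) ℂ, Polynomial.derivative (aeval l G) =
      ∑ j, Polynomial.C (v j) * aeval l (pderiv j G) := by
    intro G
    have h0 := chain ((Polynomial.derivative' (R := Ω)).restrictScalars ℂ) l G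
    have h2 : ∀ p : Polynomial Ω, ((Polynomial.derivative' (R := Ω)).restrictScalars ℂ) p =
      Polynomial.derivative p := fun p => rfl
    simp only [h2] at h0
    rw [h0]
    refine Finset.sum_congr rfl (fun j _ => ?_)
    simp [hl]
  have h3 := congrArg Polynomial.derivative h
  rw [hd, Polynomial.derivative_C_mul, hd, Finset.mul_sum] at h3
  unfold sDer
  have h4 : ∑ j, Polynomial.C (v j) * (aeval l (pderiv j a) - Polynomial.C u * aeval l (pderiv j b)) =
      ∑ j, Polynomial.C (v j) * aeval l (pderiv j a) -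
        ∑ j, Polynomial.C u * (Polynomial.C (v j) * aeval l (pderiv j b)) := by
    rw [← Finset.sum_sub_distrib]
    refine Finset.sum_congr rfl (fun j _ => ?_)
    ring
  rw [h4, h3, sub_self]

/-- one step: if the differential of `a - u b` kills `δ v + s δ x`, it kills `δ x`, and `δ u = 0` -/
theorem nil_step (x v : Fin (m + 1) → Ω) (a b : MvPolynomial (Fin (m + 1)) ℂ) (u : Ω)
    (h : aeval (fun j => Polynomial.C (x j) + Polynomial.X * Polynomial.C (v j)) a =
      Polynomial.C u * aeval (fun j => Polynomial.C (x j) + Polynomial.X * Polynomial.C (v j)) b)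
    (s : Ω) (hs : s ≠ 0) (hb : aeval (fun j => x j + s⁻¹ * v j) b ≠ 0) (δ : Derivation ℂ Ω Ω)
    (hw : sDer x v a b u (fun j => δ (v j) + s * δ (x j)) = 0) :
    δ u = 0 ∧ sDer x v a b u (fun j => δ (x j)) = 0 := by
  set l : Fin (m + 1) → Polynomial Ω :=
    fun j => Polynomial.C (x j) + Polynomial.X * Polynomial.C (v j) with hl
  obtain ⟨Δ, hX, hC⟩ := exists_coef δ
  -- the derivative of the coefficients
  have e2 : ∑ j, Δ (l j) * (aeval l (pderiv j a) - Polynomial.C u * aeval l (pderiv j b)) =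
      Polynomial.C (δ u) * aeval l b := by
    have h3 := congrArg Δ h
    rw [chain, Derivation.leibniz, chain, hC, smul_eq_mul, smul_eq_mul, Finset.mul_sum] at h3
    have h4 : ∑ j, Δ (l j) * (aeval l (pderiv j a) - Polynomial.C u * aeval l (pderiv j b)) =
        ∑ j, Δ (l j) * aeval l (pderiv j a) -
          ∑ j, Polynomial.C u * (Δ (l j) * aeval l (pderiv j b)) := by
      rw [← Finset.sum_sub_distrib]
      refine Finset.sum_congr rfl (fun j _ => ?_)
      ring
    rw [h4, h3]; ring
  have e3 : ∑ j, Δ (l j) * (aeval l (pderiv j a) - Polynomial.C u * aeval l (pderiv j b)) =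
      (1 - Polynomial.X * Polynomial.C s) * sDer x v a b u (fun j => δ (x j)) +
        Polynomial.X * sDer x v a b u (fun j => δ (v j) + s * δ (x j)) := by
    unfold sDer
    rw [Finset.mul_sum, Finset.mul_sum, ← Finset.sum_add_distrib]
    refine Finset.sum_congr rfl (fun j _ => ?_)
    have h5 : Δ (l j) = Polynomial.C (δ (x j)) + Polynomial.X * Polynomial.C (δ (v j)) := by
      rw [hl]
      simp only [map_add, Derivation.leibniz, hC, hX, smul_eq_mul, mul_zero, add_zero]
    rw [h5, map_add, map_mul]; ring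
  rw [hw, mul_zero, add_zero, e2] at e3
  have e4 := congrArg (fun P : Polynomial Ω => P.eval s⁻¹) e3
  simp only [Polynomial.eval_mul, Polynomial.eval_sub, Polynomial.eval_one, Polynomial.eval_X,
    Polynomial.eval_C] at e4
  rw [inv_mul_cancel₀ hs, sub_self, zero_mul, hl, eval_affine_line] at e4
  have e5 : δ u = 0 := (mul_eq_zero.1 e4).resolve_right hb
  refine ⟨e5, ?_⟩
  rw [e5, map_zero, zero_mul] at e3
  have h6 : (1 - Polynomial.X * Polynomial.C s : Polynomial Ω) ≠ 0 := by
    intro h0
    have h7 := congrArg (fun P : Polynomial Ω => P.eval 0) h0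
    simp at h7
  exact (mul_eq_zero.1 e3.symm).resolve_left h6

/-- the operator `y ↦ δ_y v + s y`, `δ_y = ∑ y_j δ_j` -/
noncomputable def nilOp (v : Fin (m + 1) → Ω) (d : Fin (m + 1) → Derivation ℂ Ω Ω) (s : Ω)
    (y : Fin (m + 1) → Ω) : Fin (m + 1) → Ω :=
  fun i => ∑ j, y j * d j (v i) + s * y i

theorem nil_sum_apply (d : Fin (m + 1) → Derivation ℂ Ω Ω) (y : Fin (m + 1) → Ω) (z : Ω) :
    (∑ j, y j • d j : Derivation ℂ Ω Ω) z = ∑ j, y j * d j z := by
  have h2 := map_sum (Derivation.coeFnAddMonoidHom (R := ℂ) (A := Ω) (M := Ω))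
    (fun k => y k • d k) Finset.univ
  have h3 := congrFun h2 z
  rw [Finset.sum_apply] at h3
  exact h3

/-- CLAIM (V): if `N_s ^ k y ∈ Ω v` then `δ_y u = 0` (and the differential of `a - u b` kills `y`) -/
theorem nil_kill (x v : Fin (m + 1) → Ω) (d : Fin (m + 1) → Derivation ℂ Ω Ω)
    (hd : ∀ i j, d i (x j) = if i = j then 1 else 0) (a b : MvPolynomial (Fin (m + 1)) ℂ) (u : Ω)
    (h : aeval (fun j => Polynomial.C (x j) + Polynomial.X * Polynomial.C (v j)) a =
      Polynomial.C u * aeval (fun j => Polynomial.C (x j) + Polynomial.X * Polynomial.C (v j)) b)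
    (hu : ∑ j, v j * d j u = 0)
    (s : Ω) (hs : s ≠ 0) (hb : aeval (fun j => x j + s⁻¹ * v j) b ≠ 0) (k : ℕ) :
    ∀ y : Fin (m + 1) → Ω, (∃ c, ∀ j, (nilOp v d s)^[k] y j = c * v j) →
      ∑ j, y j * d j u = 0 ∧ sDer x v a b u y = 0 := by
  induction k with
  | zero =>
    rintro y ⟨c, hc⟩
    have hy : y = fun j => c * v j := funext hc
    constructor
    · rw [hy]
      simp only [mul_assoc, ← Finset.mul_sum]
      rw [hu, mul_zero]
    · rw [hy, sDer_smul, sDer_v x v a b u h, mul_zero]
  | succ k ih =>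
    rintro y ⟨c, hc⟩
    obtain ⟨-, h2⟩ := ih (nilOp v d s y) ⟨c, hc⟩
    set δ : Derivation ℂ Ω Ω := ∑ j, y j • d j with hδ
    have hδx : ∀ j, δ (x j) = y j := by
      intro j
      rw [hδ, nil_sum_apply]
      simp only [hd, mul_ite, mul_one, mul_zero, Finset.sum_ite_eq', Finset.mem_univ, if_true]
    have h3 : (fun j => δ (v j) + s * δ (x j)) = nilOp v d s y := by
      funext j
      rw [hδx, hδ, nil_sum_apply]
      rfl
    obtain ⟨h4, h5⟩ := nil_step x v a b u h s hs hb δ (by rw [h3]; exact h2)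
    have h6 : (fun j => δ (x j)) = y := funext hδx
    rw [h6] at h5
    refine ⟨?_, h5⟩
    rw [← nil_sum_apply]
    exact h4

end Pool.Agent.DC
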