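import Pool.Agent.Lib_MP_1209e6_dc.Defs
import Pool.Agent.Lib_MP_1209e6_ds.FirstRoot
import Pool.Agent.Lib_MP_1209e6_dc.Nil

/-! PIECE KE: a first integral has no derivatives. -/

set_option autoImplicit false

open MvPolynomial

namespace Pool.Agent.DC

open Pool.Agent.DS (Smooth pt lp Phi phi Generic)

/-- `S y = ∑ (a_j - u b_j)(x + X v) y_j ∈ Ω[X]`. For a derivation `δ`: `S (δ x) + X S (δ v) = C (δ u) b(x + X v)`
and `S v = 0` (both are proved in `ds/FirstRoot.lean`: `e2`, `e1`). CLAIM, by induction on the multiset `σ` of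
roots of `G`: if `G ∣ (∏_{s ∈ σ} (X - s)) * Phi y`, then `δ_y u = 0` and `S y = 0` (`δ_y = ∑ y_j δ_j`).
`σ = 0`: `G ∣ Phi y`, so `y = c v` (`CNice.ker`), `δ_y u = c D u = 0` (`hDu`), `S v = 0`. Step: `y' = - δ_y v - s y`
has `Phi y' = (X - s) Phi y` modulo `G` (`CNice.der` for `δ_y`), so `S (δ_y v) = - s S y` by the induction
hypothesis for `y'`; so `(1 - s X) S y = C (δ_y u) b (x + X v)`; put `X = 1 / s`, `b (x + v / s) ≠ 0`: `δ_y u = 0`,
so `S y = 0`. Finally `σ = G.roots` and every `y` (`Ω` algebraically closed: `G` is the product up to a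
constant). -/
theorem key {Ω : Type} [Field Ω] [Algebra ℂ Ω] [IsAlgClosed Ω] {m c : ℕ} {a k : Fin c → ℕ} {e : ℕ}
    {F : MvPolynomial (Fin (m + 2)) ℂ} {x : Fin (m + 1) → Ω} (T : CLine a k e F x) (hT : CNice T)
    (p b : MvPolynomial (Fin (m + 1)) ℂ) (u : Ω)
    (h : aeval (fun j => Polynomial.C (x j) + Polynomial.X * Polynomial.C (T.v j)) p =
      Polynomial.C u * aeval (fun j => Polynomial.C (x j) + Polynomial.X * Polynomial.C (T.v j)) b)
    (hb : ∀ s, T.G.IsRoot s → aeval (fun j => x j + s⁻¹ * T.v j) b ≠ 0)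
    (δ : Fin (m + 1) → Derivation ℂ Ω Ω) (hδ : ∀ i j, δ i (x j) = if i = j then 1 else 0)
    (hDu : ∑ j, T.v j * δ j u = 0) : ∀ j, δ j u = 0 := by
  classical
  have hGroot : ∀ s, T.G.IsRoot s → s ≠ 0 := by
    intro s hs
    have h1 : T.G.eval s = 0 := hs
    rw [CLine.G, Polynomial.eval_prod, Finset.prod_eq_zero_iff] at h1
    obtain ⟨i, -, hi⟩ := h1
    rw [Polynomial.eval_pow] at hi
    exact hT.ne_zero i s (eq_zero_of_pow_eq_zero hi)
  have hDer : ∀ y : Fin (m + 1) → Ω, ∀ j, (∑ i, y i • δ i : Derivation ℂ Ω Ω) (x j) = y j := by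
    intro y j
    rw [nil_sum_apply]
    simp only [hδ, mul_ite, mul_one, mul_zero, Finset.sum_ite_eq', Finset.mem_univ, if_true]
  have claim : ∀ σ : Multiset Ω, (∀ s ∈ σ, T.G.IsRoot s) → ∀ y : Fin (m + 1) → Ω,
      (T.G ∣ (σ.map fun s => Polynomial.X - Polynomial.C s).prod *
        Phi F x T.v fun j => Polynomial.C (y j)) →
      ∑ j, y j * δ j u = 0 ∧ sDer x T.v p b u y = 0 := by
    intro σ
    induction σ using Multiset.induction_on with
    | empty =>
      intro _ y hy
      rw [Multiset.map_zero, Multiset.prod_zero, one_mul] at hy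
      obtain ⟨c₀, hc⟩ := hT.ker y hy
      have hy' : y = fun j => c₀ * T.v j := funext hc
      constructor
      · rw [hy']
        simp only [mul_assoc, ← Finset.mul_sum]
        rw [hDu, mul_zero]
      · rw [hy', sDer_smul, sDer_v x T.v p b u h, mul_zero]
    | cons s σ ih =>
      intro hσ y hy
      rw [Multiset.map_cons, Multiset.prod_cons] at hy
      set d : Derivation ℂ Ω Ω := ∑ i, y i • δ i with hd
      have hdx : ∀ j, d (x j) = y j := hDer y
      have hder := hT.der d
      have h3 : (Phi F x T.v fun j => Polynomial.C (-(d (T.v j) + s * d (x j)))) =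
          (Polynomial.X - Polynomial.C s) * (Phi F x T.v fun j => Polynomial.C (y j)) -
            Phi F x T.v fun j => Polynomial.C (d (T.v j)) + Polynomial.X * Polynomial.C (d (x j)) := by
        simp only [Phi, hdx, Finset.mul_sum, ← Finset.sum_sub_distrib]
        refine Finset.sum_congr rfl fun j _ => ?_
        rw [map_neg, map_add, map_mul]
        ring
      obtain ⟨-, h4⟩ := ih (fun t ht => hσ t (Multiset.mem_cons_of_mem ht))
        (fun j => -(d (T.v j) + s * d (x j))) (by
          rw [h3, mul_sub]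
          refine dvd_sub ?_ (Dvd.dvd.mul_left hder _)
          have h5 : (σ.map fun s => Polynomial.X - Polynomial.C s).prod *
              ((Polynomial.X - Polynomial.C s) * (Phi F x T.v fun j => Polynomial.C (y j))) =
              (Polynomial.X - Polynomial.C s) * (σ.map fun s => Polynomial.X - Polynomial.C s).prod *
                Phi F x T.v fun j => Polynomial.C (y j) := by ring
          rw [h5]
          exact hy)
      have h6 : (fun j => -(d (T.v j) + s * d (x j))) =
          fun j => (-1 : Ω) * (d (T.v j) + s * d (x j)) := by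
        funext j
        ring
      rw [h6, sDer_smul] at h4
      have h7 : sDer x T.v p b u (fun j => d (T.v j) + s * d (x j)) = 0 := by
        refine (mul_eq_zero.1 h4).resolve_left ?_
        rw [Polynomial.C_eq_zero]
        exact neg_ne_zero.2 one_ne_zero
      have hs : T.G.IsRoot s := hσ s (Multiset.mem_cons_self s σ)
      obtain ⟨h8, h9⟩ := nil_step x T.v p b u h s (hGroot s hs) (hb s hs) d h7
      have h10 : (fun j => d (x j)) = y := funext hdx
      rw [h10] at h9
      refine ⟨?_, h9⟩
      rw [← nil_sum_apply]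
      exact h8
  have hmonic : T.G.Monic := by
    rw [CLine.G]
    exact Polynomial.monic_prod_of_monic _ _ fun i _ => (T.q_monic i).pow _
  have hprod : (T.G.roots.map fun s => Polynomial.X - Polynomial.C s).prod = T.G :=
    Polynomial.prod_multiset_X_sub_C_of_monic_of_roots_card_eq hmonic
      (IsAlgClosed.splits T.G).natDegree_eq_card_roots.symm
  intro j
  have h1 := (claim T.G.roots (fun s hs => Polynomial.isRoot_of_mem_roots hs) (Pi.single j 1) (by
    rw [hprod]
    exact dvd_mul_right _ _)).1
  simpa only [Pi.single_apply, ite_mul, one_mul, zero_mul, Finset.sum_ite_eq', Finset.mem_univ,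
    if_true] using h1

end Pool.Agent.DC
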