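import Pool.Agent.Lib_MP_1209e6_dc.Good
import Pool.Agent.Lib_MP_1209e6_ds.Isol

/-! PIECE MI: isolated singularities (generalise `ds/Isol.lean`, `ds/IsolUp.lean`). -/

set_option autoImplicit false

open MvPolynomial

namespace Pool.Agent.DC

open Pool.Agent.DS (Smooth pt lp Phi phi Generic)

/-- the hypersurface `F = 0` has at most finitely many singular points, and some line through each singular
point meets it there with multiplicity less than `M` -/
structure CMild (M : ℕ) {m : ℕ} (F : MvPolynomial (Fin (m + 2)) ℂ) : Prop where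
  ne : F ≠ 0
  fin : ∃ A : Finset (Fin (m + 2) → ℂ), ∀ p : Fin (m + 2) → ℂ, (∀ j, aeval p (pderiv j F) = 0) →
    ∃ a ∈ A, ∃ c : ℂ, p = c • a
  mult : ∀ a : Fin (m + 2) → ℂ, a ≠ 0 → (∀ j, aeval a (pderiv j F) = 0) →
    ∃ y : Fin (m + 2) → ℂ, ¬ Polynomial.X ^ M ∣
      aeval (fun i => Polynomial.C (a i) + Polynomial.X * Polynomial.C (y i)) F

section

variable {Ω : Type} [Field Ω] [Algebra ℂ Ω] {m : ℕ} {F : MvPolynomial (Fin (m + 2)) ℂ}
  {x : Fin (m + 1) → Ω}

/-- `Mild.up` for `CMild` -/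
theorem CMild.up {M : ℕ} (hs : CMild M F) {d : ℕ} (hF : F.IsHomogeneous d) (p : Fin (m + 2) → Ω)
    (h : ∀ j, aeval p (pderiv j F) = 0) (hp : p ≠ 0) :
    ∃ a : Fin (m + 2) → ℂ, a ≠ 0 ∧ (∀ j, aeval a (pderiv j F) = 0) ∧
      ∃ c : Ω, c ≠ 0 ∧ ∀ i, p i = c * algebraMap ℂ Ω (a i) := by
  obtain ⟨A, hA⟩ := hs.fin
  obtain ⟨k, hk⟩ : ∃ k, p k ≠ 0 := by
    by_contra hcon
    push Not at hcon
    exact hp (funext hcon)
  -- `p` is on one of the lines
  have key : ∃ a ∈ A, a ≠ 0 ∧ ∃ c : Ω, ∀ i, p i = c * algebraMap ℂ Ω (a i) := by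
    by_contra hcon
    push Not at hcon
    have hL : ∀ a : Fin (m + 2) → ℂ, ∃ L : MvPolynomial (Fin (m + 2)) ℂ, a ∈ A →
        (∀ c : ℂ, aeval (c • a) L = 0) ∧ aeval p L ≠ 0 := by
      intro a
      by_cases haA : a ∈ A
      swap
      · exact ⟨0, fun h => absurd h haA⟩
      by_cases ha : a = 0
      · refine ⟨X k, fun _ => ⟨fun c => ?_, ?_⟩⟩
        · rw [ha, smul_zero, aeval_X, Pi.zero_apply]
        · rw [aeval_X]; exact hk
      · obtain ⟨i, hi⟩ : ∃ i, a i ≠ 0 := by
          by_contra hc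
          push Not at hc
          exact ha (funext hc)
        have hi' : algebraMap ℂ Ω (a i) ≠ 0 := by
          rw [Ne, FaithfulSMul.algebraMap_eq_zero_iff]
          exact hi
        obtain ⟨j, hj⟩ := hcon a haA ha (p i / algebraMap ℂ Ω (a i))
        refine ⟨C (a i) * X j - C (a j) * X i, fun _ => ⟨fun c => ?_, ?_⟩⟩
        · simp only [map_sub, map_mul, aeval_X, algHom_C, Pi.smul_apply, smul_eq_mul,
            Algebra.algebraMap_self, RingHom.id_apply]
          ring
        · simp only [map_sub, map_mul, aeval_X, algHom_C]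
          intro h0
          apply hj
          rw [div_mul_eq_mul_div, eq_div_iff hi']
          linear_combination h0
    choose L hL using hL
    have h1 := Pool.Agent.DS.zero_up (Ω := Ω) (F := F) (∏ a ∈ A, L a) (fun q hq => by
      obtain ⟨a, ha, c, hc⟩ := hA q hq
      rw [map_prod]
      refine Finset.prod_eq_zero ha ?_
      rw [hc]
      exact (hL a ha).1 c) p h
    rw [map_prod, Finset.prod_eq_zero_iff] at h1
    obtain ⟨a, ha, h2⟩ := h1
    exact (hL a ha).2 h2
  obtain ⟨a, -, ha0, c, hc⟩ := key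
  have hc0 : c ≠ 0 := by
    rintro rfl
    exact hp (funext fun i => by rw [hc i, zero_mul, Pi.zero_apply])
  refine ⟨a, ha0, fun j => ?_, c, hc0, hc⟩
  have h1 := h j
  have hpe : p = fun i => c * algebraMap ℂ Ω (a i) := funext hc
  have h2 : aeval (fun i => algebraMap ℂ Ω (a i)) (pderiv j F) =
      algebraMap ℂ Ω (aeval a (pderiv j F)) := aeval_algebraMap_apply Ω a (pderiv j F)
  rw [hpe, Pool.Agent.DS.is_scale hF.pderiv c (fun i => algebraMap ℂ Ω (a i)), h2] at h1
  have h3 := (mul_eq_zero.1 h1).resolve_left (pow_ne_zero _ hc0)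
  rwa [FaithfulSMul.algebraMap_eq_zero_iff] at h3



theorem mi_sing_all (v : Fin (m + 1) → Ω) (s : Ω)
    (h : (Polynomial.X - Polynomial.C s) ^ 2 ∣ aeval (lp x v) F)
    (hz : ∀ j : Fin (m + 1), aeval (pt x v s) (pderiv (Fin.succ j) F) = 0) :
    ∀ j, aeval (pt x v s) (pderiv j F) = 0 := by
  obtain ⟨R, hR⟩ := h
  have h1 := congrArg (Polynomial.eval s) (Pool.Agent.DS.deriv_line F x v)
  rw [Polynomial.eval_add, Pool.Agent.DS.eval_line, Pool.Agent.DS.eval_Phi, hR] at h1
  have h2 : phi F x v s (fun j => (Polynomial.C (x j)).eval s) = 0 := by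
    rw [Pool.Agent.DS.phi]
    refine Finset.sum_eq_zero fun j _ => ?_
    rw [hz j, mul_zero]
  rw [h2] at h1
  have h3 : aeval (pt x v s) (pderiv 0 F) = 0 := by
    rw [add_zero] at h1
    rw [← h1]
    simp [Polynomial.derivative_mul, Polynomial.derivative_pow]
  exact fun j => Fin.cases h3 (fun j => hz j) j

omit [Algebra ℂ Ω] in
theorem mi_pt_ne (v : Fin (m + 1) → Ω) (hv : v ≠ 0) (s : Ω) : pt x v s ≠ 0 := by
  intro h4
  have h5 : s = 0 := congrFun h4 0
  apply hv
  funext j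
  have h6 := congrFun h4 (Fin.succ j)
  simp only [Pool.Agent.DS.pt, Fin.cons_succ, h5, zero_mul, add_zero] at h6
  exact h6

/-- the singular multiple root is the only multiple root -/
theorem mi_root_eq {M d : ℕ} (hF : F.IsHomogeneous d) (hs : CMild M F)
    (δ : Fin (m + 1) → Derivation ℂ Ω Ω) (hδ : ∀ i j, δ i (x j) = if i = j then 1 else 0)
    (v : Fin (m + 1) → Ω) (hv0 : v ≠ 0) (hm : 0 < m) (s : Ω)
    (h : (Polynomial.X - Polynomial.C s) ^ 2 ∣ aeval (lp x v) F)
    (hz : ∀ j : Fin (m + 1), aeval (pt x v s) (pderiv (Fin.succ j) F) = 0) (s' : Ω)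
    (h' : (Polynomial.X - Polynomial.C s') ^ 2 ∣ aeval (lp x v) F) : s' = s := by
  by_contra hss
  have hpr : (Polynomial.X - Polynomial.C s') ∣ aeval (lp x v) F :=
    (dvd_pow_self _ two_ne_zero).trans h'
  have hroot : ∀ P : Polynomial Ω, (Polynomial.X - Polynomial.C s') ∣ P → P.eval s' = 0 :=
    fun P hP => Polynomial.dvd_iff_isRoot.1 hP
  have hv : phi F x v s' v = 0 := by
    have h1 := congrArg (Polynomial.eval s') (Pool.Agent.DS.euler_line hF x v)
    rw [Pool.Agent.DS.eval_Phi, Polynomial.eval_sub, Polynomial.eval_mul, Polynomial.eval_mul,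
      hroot _ hpr, mul_zero, zero_sub] at h1
    have h2 : (Polynomial.derivative (aeval (lp x v) F)).eval s' = 0 :=
      hroot _ (go_dvd_der (Pool.Agent.DS.gdDer Ω) _ _ h')
    rw [h2, mul_zero, neg_zero] at h1
    simpa using h1
  have hd : ∀ δ : Derivation ℂ Ω Ω,
      phi F x v s' (fun j => 1 * δ (v j) + s' * δ (x j)) = 0 := by
    intro δ
    obtain ⟨Δ, hX, hC⟩ := Pool.Agent.DS.exists_coef δ
    have h1 := hroot _ (go_dvd_der Δ _ _ h')
    rw [Pool.Agent.DS.der_line F x v δ Δ hX hC, Pool.Agent.DS.eval_Phi] at h1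
    rw [← h1]
    congr 1
    funext j
    simp only [Polynomial.eval_add, Polynomial.eval_mul, Polynomial.eval_C, Polynomial.eval_X, one_mul]
  obtain ⟨a, -, -, c, hc, hp⟩ := hs.up hF _ (mi_sing_all v s h hz) (mi_pt_ne v hv0 s)
  have h1 : ∀ δ : Derivation ℂ Ω Ω, phi F x v s' (fun j => δ (x j)) = 0 := by
    intro δ
    obtain ⟨κ, hκ⟩ := Pool.Agent.DS.is_der v s c a hc hp δ
    have h2 := hd δ
    rw [Pool.Agent.DS.is_phi_add] at h2
    have h3 : (fun j => δ (v j)) = fun j => κ * v j + (-s) * δ (x j) := by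
      funext j; rw [hκ j]; ring
    rw [h3, Pool.Agent.DS.is_phi_add, hv] at h2
    have h4 : (s' - s) * phi F x v s' (fun j => δ (x j)) = 0 := by linear_combination h2
    exact (mul_eq_zero.1 h4).resolve_left (sub_ne_zero.2 hss)
  have hz' : ∀ j : Fin (m + 1), aeval (pt x v s') (pderiv (Fin.succ j) F) = 0 := by
    intro j
    have h2 := h1 (δ j)
    rw [Pool.Agent.DS.phi, Finset.sum_eq_single j] at h2
    · rwa [hδ, if_pos rfl, one_mul] at h2
    · intro i _ hij
      rw [hδ, if_neg (Ne.symm hij), zero_mul]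
    · simp
  obtain ⟨a', -, -, c', hc', hp'⟩ := hs.up hF _ (mi_sing_all v s' h' hz') (mi_pt_ne v hv0 s')
  have h5 : ∀ δ : Derivation ℂ Ω Ω, ∃ μ, ∀ j, (s' - s) * δ (x j) = μ * v j := by
    intro δ
    obtain ⟨κ, hκ⟩ := Pool.Agent.DS.is_der v s c a hc hp δ
    obtain ⟨κ', hκ'⟩ := Pool.Agent.DS.is_der v s' c' a' hc' hp' δ
    refine ⟨κ' - κ, fun j => ?_⟩
    have := (hκ j).symm.trans (hκ' j)
    linear_combination this
  have h6 : ∀ i j : Fin (m + 1), i ≠ j → v j = 0 := by
    intro i j hij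
    obtain ⟨μ, hμ⟩ := h5 (δ i)
    have h7 := hμ i
    have h8 := hμ j
    rw [hδ, if_pos rfl] at h7
    rw [hδ, if_neg hij] at h8
    have hμ0 : μ ≠ 0 := by
      rintro rfl
      rw [zero_mul, mul_one] at h7
      exact hss (sub_eq_zero.1 h7)
    rw [mul_zero] at h8
    exact (mul_eq_zero.1 h8.symm).resolve_left hμ0
  refine hv0 (funext fun j => ?_)
  by_cases hj : j = 0
  · refine h6 (Fin.last m) j (by rw [hj]; intro h0; have := congrArg Fin.val h0; simp at this; omega)
  · exact h6 0 j (Ne.symm hj)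

end

/-- Copy of `DS.exists_partial_ne_mild`, `DS.is_root_eq` and `DS.Mild.up` (which uses only `fin`): if all `F_j`
vanish at the multiple root `s` of `Φ = ∏ q_i ^ k_i * r`, `pt x v s` is a multiple of a complex point, every other
multiple root of `Φ` would be one too (`is_root_eq` for arbitrary multiple roots: `Φ(s') = Φ'(s') = 0`), so `s` is
the only root of the `q_i`, `(X - s) ^ (∑ k_i a_i) ∣ Φ`: `mult_generic`, `CMild.mult`. -/
theorem part_of_mild {Ω : Type} [Field Ω] [Algebra ℂ Ω] [IsAlgClosed Ω] {m c : ℕ} {a k : Fin c → ℕ}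
    {e d : ℕ} {F : MvPolynomial (Fin (m + 2)) ℂ} {x : Fin (m + 1) → Ω} (hF : F.IsHomogeneous d)
    (T : CLine a k e F x) (hk : ∀ i, 2 ≤ k i) (hm : ∑ i, (k i - 1) * a i = m)
    (hs : CMild (∑ i, k i * a i) F) (hx : Generic x)
    (δ : Fin (m + 1) → Derivation ℂ Ω Ω) (hδ : ∀ i j, δ i (x j) = if i = j then 1 else 0) :
    PartNe F x T.v := by
  intro s h
  by_contra hz
  push Not at hz
  have hroot : ∀ i s', (T.q i).IsRoot s' → s' = s := by
    intro i s' h'
    have ha : 0 < a i := by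
      rw [← T.q_deg i, Polynomial.natDegree_pos_iff_degree_pos]
      exact Polynomial.degree_pos_of_root (T.q_monic i).ne_zero h'
    have h1 : (k i - 1) * a i ≤ m := by
      calc (k i - 1) * a i ≤ ∑ i, (k i - 1) * a i :=
            Finset.single_le_sum (f := fun i => (k i - 1) * a i) (fun _ _ => Nat.zero_le _)
              (Finset.mem_univ i)
        _ = m := hm
    have h2 : 0 < (k i - 1) * a i := Nat.mul_pos (by have := hk i; omega) ha
    exact mi_root_eq hF hs δ hδ T.v T.v_ne (h2.trans_le h1) s h hz s' (go_sq T hk i s' h')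
  obtain ⟨b, hb, hsing, c, hc, hp⟩ := hs.up hF _ (mi_sing_all T.v s h hz) (mi_pt_ne T.v T.v_ne s)
  have hq : ∀ i, T.q i = (Polynomial.X - Polynomial.C s) ^ a i := by
    intro i
    have hsp := IsAlgClosed.splits (T.q i)
    have h1 : (T.q i).roots = Multiset.replicate (a i) s := by
      rw [Multiset.eq_replicate]
      refine ⟨?_, fun b hb => hroot i b (Polynomial.isRoot_of_mem_roots hb)⟩
      exact hsp.natDegree_eq_card_roots.symm.trans (T.q_deg i)
    have h2 := hsp.eq_prod_roots_of_monic (T.q_monic i)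
    rw [h1, Multiset.map_replicate, Multiset.prod_replicate] at h2
    exact h2
  obtain ⟨y, hy⟩ := hs.mult b hb hsing
  refine hy (Pool.Agent.DS.mult_generic hx.ind F b _ ?_ y)
  -- the substitution `X ↦ c X + s`
  let φ : Polynomial Ω →ₐ[ℂ] Polynomial Ω :=
    (Polynomial.aeval (R := Ω) (Polynomial.C c * Polynomial.X + Polynomial.C s)).restrictScalars ℂ
  have hφX : φ Polynomial.X = Polynomial.C c * Polynomial.X + Polynomial.C s :=
    Polynomial.aeval_X _
  have hφC : ∀ b, φ (Polynomial.C b) = Polynomial.C b := fun b => Polynomial.aeval_C _ b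
  have h1 : φ (aeval (lp x T.v) F) = Polynomial.C c ^ d *
      aeval (fun i => Polynomial.C (algebraMap ℂ Ω (b i)) +
        Polynomial.X * Polynomial.C ((Fin.cons 1 x : Fin (m + 2) → Ω) i)) F := by
    rw [← Pool.Agent.DS.is_scale hF, ← AlgHom.comp_apply, comp_aeval]
    congr 2
    funext i
    refine Fin.cases ?_ (fun j => ?_) i
    · have h0 := hp 0
      simp only [Pool.Agent.DS.pt, Fin.cons_zero] at h0
      simp only [Pool.Agent.DS.lp, Fin.cons_zero, hφX, Polynomial.C_1, mul_one, mul_add]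
      rw [← Polynomial.C_mul, ← h0]
      ring
    · have h0 := hp (Fin.succ j)
      simp only [Pool.Agent.DS.pt, Fin.cons_succ] at h0
      simp only [Pool.Agent.DS.lp, Fin.cons_succ, map_add, map_mul, hφX, hφC, mul_add]
      rw [← Polynomial.C_mul, ← h0, Polynomial.C_add, Polynomial.C_mul]
      ring
  have h2 : ∀ n : ℕ, φ ((Polynomial.X - Polynomial.C s) ^ n) = (Polynomial.C c * Polynomial.X) ^ n := by
    intro n
    rw [map_pow, map_sub, hφX, hφC]
    ring
  have h3 : (Polynomial.X : Polynomial Ω) ^ (∑ i, k i * a i) ∣ Polynomial.C c ^ d *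
      aeval (fun i => Polynomial.C (algebraMap ℂ Ω (b i)) +
        Polynomial.X * Polynomial.C ((Fin.cons 1 x : Fin (m + 2) → Ω) i)) F := by
    rw [← h1, T.eq, map_mul, map_prod]
    have h4 : ∀ i, φ (T.q i ^ k i) = Polynomial.C c ^ (k i * a i) * Polynomial.X ^ (k i * a i) := by
      intro i
      rw [map_pow, hq i, h2, ← pow_mul, mul_comm (a i), mul_pow]
    rw [Finset.prod_congr rfl fun i _ => h4 i, Finset.prod_mul_distrib, Finset.prod_pow_eq_pow_sum,
      Finset.prod_pow_eq_pow_sum]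
    refine ⟨Polynomial.C c ^ (∑ i, k i * a i) * φ T.r, ?_⟩
    ring
  have hu : IsUnit ((Polynomial.C c : Polynomial Ω) ^ d) :=
    (Polynomial.isUnit_C.2 (Ne.isUnit hc)).pow _
  exact (hu.dvd_mul_left).1 h3

end Pool.Agent.DC
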