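import Pool.Agent.Lib_MP_1209e6_dc.Good
import Pool.Agent.Lib_MP_1209e6_dc.Surj

/-! PIECE NI: the line is nondegenerate (generalise `ds/Simple.lean`). -/

set_option autoImplicit false

open MvPolynomial

namespace Pool.Agent.DC

open Pool.Agent.DS (Smooth pt lp Phi phi Generic)

/-- `deg G = m`; `cgood_double`, `cgood_zero` have degree `m + 1`, contradiction to `deg_le`; `ker_eq`. -/
theorem cnice {Ω : Type} [Field Ω] [Algebra ℂ Ω] [IsAlgClosed Ω] {m c : ℕ} {a k : Fin c → ℕ} {e d : ℕ}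
    {F : MvPolynomial (Fin (m + 2)) ℂ} {x : Fin (m + 1) → Ω} (hF : F.IsHomogeneous d)
    (T : CLine a k e F x) (hk : ∀ i, 2 ≤ k i) (hm : ∑ i, (k i - 1) * a i = m) (hp : PartNe F x T.v)
    (δ : Fin (m + 1) → Derivation ℂ Ω Ω) (hδ : ∀ i j, δ i (x j) = if i = j then 1 else 0) : CNice T := by
  have hG := cgood_G hF T hk hp
  have hdeg : T.G.natDegree = m := by
    rw [CLine.G, Polynomial.natDegree_prod_of_monic _ _ fun i _ => (T.q_monic i).pow _]
    exact (Finset.sum_congr rfl fun i _ => by rw [(T.q_monic i).natDegree_pow, T.q_deg]).trans hm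
  refine ⟨?_, ?_, ?_, hG.dir, hG.der⟩
  · rintro i s hs rfl
    have h1 := deg_le T.v_ne (cgood_zero hF T hk hp i hs) δ hδ
    rw [Polynomial.natDegree_mul Polynomial.X_ne_zero hG.ne, Polynomial.natDegree_X, hdeg] at h1
    omega
  · intro s h
    have h1 := deg_le T.v_ne (cgood_double hF T hk hp s h) δ hδ
    rw [Polynomial.natDegree_mul (Polynomial.X_sub_C_ne_zero s) hG.ne, Polynomial.natDegree_X_sub_C,
      hdeg] at h1
    omega
  · intro y hy
    exact ker_eq T.v_ne hG δ hδ hdeg y hy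

end Pool.Agent.DC
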