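import Pool.Agent.Lib_MP_1209e6_dc.Moves
import Pool.Agent.Lib_MP_1209e6_dc.Key
import Pool.Agent.Lib_MP_1209e6_ds.NoInt

/-! PIECE NO: no rational first integral (copy of `ds/NoInt.lean` with `key`). -/

set_option autoImplicit false

open MvPolynomial

namespace Pool.Agent.DC

open Pool.Agent.DS (Smooth pt lp Phi phi Generic)

theorem const_of_D {Ω : Type} [Field Ω] [Algebra ℂ Ω] [IsAlgClosed Ω] {m c : ℕ} {a k : Fin c → ℕ}
    {e d : ℕ} {F : MvPolynomial (Fin (m + 2)) ℂ} {x : Fin (m + 1) → Ω} (hF : F.IsHomogeneous d)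
    (hx : Generic x) (T : CLine a k e F x) (hT : CNice T) (hk : ∀ i, 2 ≤ k i)
    (D : Derivation ℂ Ω Ω) (hD : ∀ j, D (x j) = T.v j) (u : Ω)
    (hu : u ∈ IntermediateField.adjoin ℂ (Set.range x)) (hDu : D u = 0) :
    ∃ c : ℂ, u = algebraMap ℂ Ω c := by
  classical
  rw [IntermediateField.mem_adjoin_range_iff] at hu
  obtain ⟨p₀, b₀, hab₀⟩ := hu
  by_cases hb₀ : aeval x b₀ = 0
  · exact ⟨0, by rw [hab₀, hb₀, div_zero, map_zero]⟩
  have hb₀' : b₀ ≠ 0 := fun h => hb₀ (by rw [h, map_zero])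
  obtain ⟨p, b, e₀, hrel, ha, hb⟩ := UniqueFactorizationMonoid.exists_reduced_factors' p₀ b₀ hb₀'
  have he : aeval x e₀ ≠ 0 := fun h => hb₀ (by rw [← hb, map_mul, h, zero_mul])
  have hbx : aeval x b ≠ 0 := fun h => hb₀ (by rw [← hb, map_mul, h, mul_zero])
  have hb0 : b ≠ 0 := fun h => hbx (by rw [h, map_zero])
  have hab : aeval x p = u * aeval x b := by
    rw [hab₀, ← ha, ← hb, map_mul, map_mul]
    field_simp
  obtain ⟨κ, hκ⟩ := dir_const T hT D hD
  have hline := Pool.Agent.DS.first_line x T.v D hD κ hκ p b u hDu hab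
  have hroot : ∀ s, T.G.IsRoot s → aeval (fun j => x j + s⁻¹ * T.v j) b ≠ 0 := by
    intro s hs h0
    have hsi : ∃ i, (T.q i).IsRoot s := by
      have h1 : T.G.eval s = 0 := hs
      rw [CLine.G, Polynomial.eval_prod, Finset.prod_eq_zero_iff] at h1
      obtain ⟨i, -, hi⟩ := h1
      rw [Polynomial.eval_pow] at hi
      exact ⟨i, eq_zero_of_pow_eq_zero hi⟩
    obtain ⟨i, hi⟩ := hsi
    have h1 := congrArg (Polynomial.eval s⁻¹) hline
    rw [Polynomial.eval_mul, Polynomial.eval_C, Pool.Agent.DS.eval_affine_line,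
      Pool.Agent.DS.eval_affine_line, h0, mul_zero] at h1
    have h5 := Pool.Agent.DS.trdeg_lt (fun j => x j + s⁻¹ * T.v j) p b hrel hb0 h1 h0
    have h6 := Pool.Agent.DS.trdeg_ge hx T.v (fun j => x j + s⁻¹ * T.v j) fun δ hδ =>
      point_moves hF T hT hk δ i s hi hδ
    exact absurd h5 (not_lt.2 h6)
  obtain ⟨δ, hδ⟩ := Pool.Agent.DS.exists_dual hx
  have h1 := Pool.Agent.DS.noint_expand hx δ hδ D u
  simp only [hD] at h1
  have hdu : ∀ j, δ j u = 0 := key T hT p b u hline hroot δ hδ (by rw [← h1, hDu])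
  refine Pool.Agent.DS.const_of_der hx u fun ε => ?_
  rw [Pool.Agent.DS.noint_expand hx δ hδ ε u]
  simp only [hdu, mul_zero, Finset.sum_const_zero]

end Pool.Agent.DC
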