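import Pool.Agent.Lib_MP_1209e6_dc.Exist
import Pool.Agent.Lib_MP_1209e6_dc.Mild
import Pool.Agent.Lib_MP_1209e6_dc.Nice
import Pool.Agent.Lib_MP_1209e6_dc.NoInt
import Pool.Agent.Lib_MP_1209e6_dc.Factor
import Pool.Agent.Lib_MP_1209e6_dc.Fam2
import Pool.Agent.Lib_MP_1209e6_dc.Fam3
import Pool.Agent.Lib_MP_1209e6_dc.Fam4
import Pool.Agent.Lib_MP_1209e6_dc.Fam6
import Pool.Agent.Lib_MP_1209e6_dc.Cover
import Pool.Agent.Lib_MP_1209e6_dc.Conj
import Pool.Agent.Lib_MP_1209e6_ds.Main

/-! PIECE MAIN: cyclic covers of projective space. -/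

set_option autoImplicit false

open MvPolynomial Pool.Agent.Campana Pool.Agent.CampanaFlow

namespace Pool.Agent.DC

open Pool.Agent.DS (Smooth pt lp Phi phi Generic)

theorem gen_closure {m μ : ℕ} (hμ : μ ≠ 0) {F : MvPolynomial (Fin (m + 2)) ℂ} {K : Type} [Field K]
    [Algebra ℂ K] (z : Fin (m + 1) → K) (w : K) (hz : AlgebraicIndependent ℂ z)
    (hw : w ^ μ = aeval (Fin.cons 1 z) F)
    (hgen : IntermediateField.adjoin ℂ (Set.range z ∪ {w}) = ⊤) :
    Generic fun j => algebraMap K (AlgebraicClosure K) (z j) := by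
  refine ⟨?_, ?_⟩
  · exact hz.map' (f := IsScalarTower.toAlgHom ℂ K (AlgebraicClosure K))
      (algebraMap K (AlgebraicClosure K)).injective
  · intro a
    set F0 := IntermediateField.adjoin ℂ (Set.range z) with hF0
    set F1 := IntermediateField.adjoin ℂ
      (Set.range fun j => algebraMap K (AlgebraicClosure K) (z j)) with hF1
    have hw0 : IsAlgebraic F0 w := by
      have h1 : IsAlgebraic F0 (w ^ μ) := by
        rw [hw]
        exact isAlgebraic_algebraMap (A := K) (⟨_, Pool.Agent.DS.aeval_mem_adjoin F z⟩ : F0)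
      exact h1.of_pow (Nat.pos_of_ne_zero hμ)
    have hK : Algebra.IsAlgebraic F0 K := by
      have hle : (⊤ : IntermediateField ℂ K) ≤
          (algebraicClosure F0 K).restrictScalars ℂ := by
        rw [← hgen, IntermediateField.adjoin_le_iff]
        rintro y (⟨j, rfl⟩ | hy)
        · refine (mem_algebraicClosure_iff).2 ?_
          exact isAlgebraic_algebraMap (A := K)
            (⟨z j, IntermediateField.subset_adjoin _ _ ⟨j, rfl⟩⟩ : F0)
        · rw [Set.mem_singleton_iff] at hy
          rw [hy]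
          exact (mem_algebraicClosure_iff).2 hw0
      exact ⟨fun y => mem_algebraicClosure_iff.1 (hle (IntermediateField.mem_top (x := y)))⟩
    have hA : IsAlgebraic F0 a := by
      have : Algebra.IsAlgebraic K (AlgebraicClosure K) := inferInstance
      exact ((Algebra.IsAlgebraic.trans F0 K (AlgebraicClosure K)).isAlgebraic a)
    have hmap : ∀ u : F0, algebraMap K (AlgebraicClosure K) (u : K) ∈ F1 := by
      intro u
      have h1 : F1 = F0.map (IsScalarTower.toAlgHom ℂ K (AlgebraicClosure K)) := by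
        rw [hF0, hF1, IntermediateField.adjoin_map]
        congr 1
        rw [← Set.range_comp]
        rfl
      rw [h1]
      exact ⟨u, u.2, rfl⟩
    let f : F0 →+* F1 := RingHom.codRestrict
      ((algebraMap K (AlgebraicClosure K)).comp (algebraMap F0 K)) F1 hmap
    have := IsAlgebraic.ringHom_of_comp_eq f (RingHom.id (AlgebraicClosure K)) hA f.injective (by
      ext u; rfl)
    exact this

/-- the coefficients of `∏ (X - b_i)` are killed by `D` -/
theorem prod_coeff {Ω : Type} [Field Ω] [Algebra ℂ Ω] (D : Derivation ℂ Ω Ω) {r : ℕ} (b : Fin r → Ω)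
    (hb : ∀ i, D (b i) = 0) (s : Finset (Fin r)) (n : ℕ) :
    D ((∏ i ∈ s, (Polynomial.X - Polynomial.C (b i))).coeff n) = 0 := by
  classical
  induction s using Finset.induction_on generalizing n with
  | empty =>
    rw [Finset.prod_empty, Polynomial.coeff_one]
    split_ifs
    · exact D.map_one_eq_zero
    · exact map_zero D
  | insert i s hi ih =>
    rw [Finset.prod_insert hi, mul_comm]
    cases n with
    | zero =>
      rw [Polynomial.mul_coeff_zero, Derivation.leibniz, ih, smul_zero, add_zero,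
        Polynomial.coeff_sub, Polynomial.coeff_X_zero, Polynomial.coeff_C_zero, zero_sub, map_neg, hb,
        neg_zero, smul_zero]
    | succ n =>
      rw [Polynomial.coeff_mul_X_sub_C, map_sub, ih, Derivation.leibniz, ih, hb, smul_zero, smul_zero,
        add_zero, sub_zero]

theorem cyclic_cover_of_line {m c : ℕ} (a k : Fin c → ℕ) (e μ : ℕ) (hμ : μ ≠ 0) (hk : ∀ i, 2 ≤ k i)
    (hm : ∑ i, (k i - 1) * a i = m) {F : MvPolynomial (Fin (m + 2)) ℂ}
    (hF : F.IsHomogeneous ((∑ i, k i * a i) + e)) (hs : CMild (∑ i, k i * a i) F)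
    (hfam : ∀ {Ω : Type} [Field Ω] [Algebra ℂ Ω] {x : Fin (m + 1) → Ω},
      aeval (Fin.cons 1 x : Fin (m + 2) → Ω) F ≠ 0 → ∀ {D : Derivation ℂ Ω Ω} (_ : Fact a k e F x D)
      (w : Ω), w ^ μ = aeval (Fin.cons 1 x : Fin (m + 2) → Ω) F → Nonempty (CFam x w D)) {n : ℕ}
    (P : Ideal (MvPolynomial (Fin (n + 1)) ℂ)) [P.IsPrime] (hP : IsVariety P)
    (hK : IsCyclic μ (FunField P) F) : SpecialField (FunField P) ∧ BrodySpecial P := by
  obtain ⟨z, w, hz, hw, hgen⟩ := hK
  have hx := gen_closure hμ z w hz hw hgen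
  have h0 : aeval (Fin.cons 1 fun j => algebraMap (FunField P) (AlgebraicClosure (FunField P)) (z j) :
      Fin (m + 2) → AlgebraicClosure (FunField P)) F ≠ 0 :=
    Pool.Agent.DS.generic_ne_of_ne hs.ne hF hx.ind
  have hw0 : w ≠ 0 := by
    rintro rfl
    rw [zero_pow hμ] at hw
    exact Pool.Agent.DS.generic_ne_of_ne hs.ne hF hz hw.symm
  obtain ⟨δ, hδ⟩ := Pool.Agent.DS.exists_dual hx
  obtain ⟨T⟩ := exists_cline a k e (fun i => le_trans one_le_two (hk i)) hm hF _ h0
  have hp := part_of_mild hF T hk hm hs hx δ hδ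
  have hT := cnice hF T hk hm hp δ hδ
  obtain ⟨D, hD⟩ := Pool.Agent.DS.exists_along δ hδ T.v
  obtain ⟨f⟩ := exists_fact hF h0 T hT hk D hD
  have hwΩ : (algebraMap (FunField P) (AlgebraicClosure (FunField P)) w) ^ μ =
      aeval (Fin.cons 1 fun j => algebraMap (FunField P) (AlgebraicClosure (FunField P)) (z j) :
        Fin (m + 2) → AlgebraicClosure (FunField P)) F := by
    rw [← map_pow, hw, ← aeval_algebraMap_apply]
    congr 2
    funext i
    refine Fin.cases ?_ (fun j => ?_) i
    · simp
    · simp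
  obtain ⟨M⟩ := hfam h0 f _ hwΩ
  obtain ⟨L, iL, aL, j, ε, kk, N, X, hej, hfin, hX, hkk⟩ := exists_cover z w hgen D M
  obtain ⟨r, σ, ⟨i₀, hi₀⟩, hσ⟩ := exists_conj hμ z w hw hw0 hgen
  have hadj : ∀ u ∈ IntermediateField.adjoin ℂ (Set.range z),
      algebraMap (FunField P) (AlgebraicClosure (FunField P)) u ∈ IntermediateField.adjoin ℂ
        (Set.range fun j => algebraMap (FunField P) (AlgebraicClosure (FunField P)) (z j)) := by
    intro u hu
    have h1 : IntermediateField.adjoin ℂ (Set.range z) ≤
        (IntermediateField.adjoin ℂ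
        (Set.range fun j => algebraMap (FunField P) (AlgebraicClosure (FunField P)) (z j))).comap
          (IsScalarTower.toAlgHom ℂ (FunField P) (AlgebraicClosure (FunField P))) := by
      rw [IntermediateField.adjoin_le_iff]
      rintro _ ⟨i, rfl⟩
      exact IntermediateField.subset_adjoin _ _ ⟨i, rfl⟩
    exact h1 hu
  refine Pool.Agent.DS.multi_cover P hP (r := r) (fun i => j.comp (σ i).toAlgHom) ?_ kk X hX ?_
  · intro i
    have h1 : j.toRingHom.Finite := hfin
    have h2 : (σ i).toAlgHom.toRingHom.Finite :=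
      RingHom.Finite.of_surjective _ fun u => (σ i).surjective u
    exact h1.comp h2
  · intro u hu
    have hD1 : ∀ i, D (algebraMap (FunField P) (AlgebraicClosure (FunField P)) (σ i u)) = 0 := by
      intro i
      have h1 : IsAlgebraic kk (j (σ i u)) := hu i
      have h2 := hkk _ h1
      rwa [hej] at h2
    set p : Polynomial (FunField P) := ∏ i, (Polynomial.X - Polynomial.C (σ i u)) with hp'
    have hcoef : ∀ l, ∃ c : ℂ, p.coeff l = algebraMap ℂ (FunField P) c := by
      intro l
      have h1 : D (algebraMap (FunField P) (AlgebraicClosure (FunField P)) (p.coeff l)) = 0 := by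
        have h2 := prod_coeff D _ hD1 Finset.univ l
        have h3 : (∏ i, (Polynomial.X - Polynomial.C
            (algebraMap (FunField P) (AlgebraicClosure (FunField P)) (σ i u)))) =
            p.map (algebraMap (FunField P) (AlgebraicClosure (FunField P))) := by
          rw [hp', Polynomial.map_prod]
          refine Finset.prod_congr rfl fun i _ => ?_
          rw [Polynomial.map_sub, Polynomial.map_X, Polynomial.map_C]
        rw [h3, Polynomial.coeff_map] at h2
        exact h2
      obtain ⟨c, hc⟩ := const_of_D hF hx T hT hk D hD _ (hadj _ (hσ u l)) h1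
      refine ⟨c, (algebraMap (FunField P) (AlgebraicClosure (FunField P))).injective ?_⟩
      rw [hc, ← IsScalarTower.algebraMap_apply ℂ (FunField P) (AlgebraicClosure (FunField P))]
    have hlift : p ∈ Polynomial.lifts (algebraMap ℂ (FunField P)) := by
      rw [Polynomial.lifts_iff_coeff_lifts]
      intro l
      obtain ⟨c, hc⟩ := hcoef l
      exact ⟨c, hc.symm⟩
    obtain ⟨q, hq⟩ := (Polynomial.mem_lifts _).1 hlift
    have hpu : p.eval u = 0 := by
      rw [hp', Polynomial.eval_prod]
      refine Finset.prod_eq_zero (Finset.mem_univ i₀) ?_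
      rw [Polynomial.eval_sub, Polynomial.eval_X, Polynomial.eval_C, hi₀, sub_self]
    have hp0 : p ≠ 0 := by
      rw [hp']
      exact Finset.prod_ne_zero_iff.2 fun i _ => Polynomial.X_sub_C_ne_zero _
    have halg : IsAlgebraic ℂ u := by
      refine ⟨q, fun h => hp0 (by rw [← hq, h, Polynomial.map_zero]), ?_⟩
      rw [Polynomial.aeval_def, ← Polynomial.eval_map, hq]
      exact hpu
    have h2 : u ∈ (algebraMap ℂ (FunField P)).range := by
      have h3 : IsIntegral ℂ u := halg.isIntegral
      have h4 := IsAlgClosed.degree_eq_one_of_irreducible ℂ (minpoly.irreducible h3)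
      exact minpoly.mem_range_of_degree_eq_one ℂ u h4
    obtain ⟨c, hc⟩ := h2
    exact ⟨c, hc.symm⟩

end Pool.Agent.DC
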