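import Pool.Agent.Lib_MP_1209e6_dc.Defs
import Pool.Agent.Lib_MP_1209e6_ds.Coef
import Pool.Agent.Lib_MP_1209e6_ds.SmoothUp

/-! PIECE PA: smooth points (copy of `ds/Part.lean`). -/

set_option autoImplicit false

open MvPolynomial

namespace Pool.Agent.DC

open Pool.Agent.DS (Smooth pt lp Phi phi Generic)

theorem part_of_smooth {Ω : Type} [Field Ω] [Algebra ℂ Ω] {m : ℕ} {F : MvPolynomial (Fin (m + 2)) ℂ}
    (hs : Smooth F) (x v : Fin (m + 1) → Ω) (hv : v ≠ 0) : PartNe F x v := by
  intro s h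
  by_contra hcon
  push Not at hcon
  obtain ⟨R, hR⟩ := h
  have h1 := congrArg (Polynomial.eval s) (Pool.Agent.DS.deriv_line F x v)
  rw [Polynomial.eval_add, Pool.Agent.DS.eval_line, Pool.Agent.DS.eval_Phi, hR] at h1
  have h2 : phi F x v s (fun j => (Polynomial.C (x j)).eval s) = 0 := by
    rw [Pool.Agent.DS.phi]
    refine Finset.sum_eq_zero fun j _ => ?_
    rw [hcon j, mul_zero]
  rw [h2] at h1
  have h3 : aeval (pt x v s) (pderiv 0 F) = 0 := by
    rw [add_zero] at h1
    rw [← h1]
    simp [Polynomial.derivative_mul, Polynomial.derivative_pow]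
  have h4 : pt x v s = 0 := by
    apply hs.up
    intro j
    refine Fin.cases h3 (fun j => hcon j) j
  have h5 : s = 0 := congrFun h4 0
  apply hv
  funext j
  have h6 := congrFun h4 (Fin.succ j)
  simp only [Pool.Agent.DS.pt, Fin.cons_succ, h5, zero_mul, add_zero] at h6
  exact h6

end Pool.Agent.DC
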