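import Pool.Agent.Lib_MP_1209e6_dc.Exist
import Pool.Agent.Lib_MP_1209e6_dc.Part
import Pool.Agent.Lib_MP_1209e6_dc.Nice
import Pool.Agent.Lib_MP_1209e6_dc.NoInt
import Pool.Agent.Lib_MP_1209e6_dc.Fam2
import Pool.Agent.Lib_MP_1209e6_dc.Fam3
import Pool.Agent.Lib_MP_1209e6_dc.Fam4
import Pool.Agent.Lib_MP_1209e6_dc.Fam6
import Pool.Agent.Lib_MP_1209e6_dc.Cover
import Pool.Agent.Lib_MP_1209e6_dc.Conj
import Pool.Agent.Lib_MP_1209e6_ds.Main

/-! PIECE MAIN: smooth cyclic covers of projective space. -/

set_option autoImplicit false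

open MvPolynomial Pool.Agent.Campana Pool.Agent.CampanaFlow

namespace Pool.Agent.DC

open Pool.Agent.DS (Smooth pt lp Phi phi Generic)

/-- `K` is algebraic over `ℂ(z)` -/
theorem generic_closure {m μ : ℕ} (hμ : μ ≠ 0) {F : MvPolynomial (Fin (m + 2)) ℂ} {K : Type} [Field K]
    [Algebra ℂ K] (z : Fin (m + 1) → K) (w : K) (hz : AlgebraicIndependent ℂ z)
    (hw : w ^ μ = aeval (Fin.cons 1 z) F)
    (hgen : IntermediateField.adjoin ℂ (Set.range z ∪ {w}) = ⊤) :
    Generic fun j => algebraMap K (AlgebraicClosure K) (z j) := by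
  refine ⟨?_, ?_⟩
  · exact hz.map' (f := IsScalarTower.toAlgHom ℂ K (AlgebraicClosure K))
      (algebraMap K (AlgebraicClosure K)).injective
  · intro a
    set F0 := IntermediateField.adjoin ℂ (Set.range z) with hF0
    set F1 := IntermediateField.adjoin ℂ
      (Set.range fun j => algebraMap K (AlgebraicClosure K) (z j)) with hF1
    have hw0 : IsAlgebraic F0 w := by
      have h1 : IsAlgebraic F0 (w ^ μ) := by
        rw [hw]
        exact isAlgebraic_algebraMap (A := K) (⟨_, Pool.Agent.DS.aeval_mem_adjoin F z⟩ : F0)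
      exact h1.of_pow (Nat.pos_of_ne_zero hμ)
    have hK : Algebra.IsAlgebraic F0 K := by
      have hle : (⊤ : IntermediateField ℂ K) ≤
          (algebraicClosure F0 K).restrictScalars ℂ := by
        rw [← hgen, IntermediateField.adjoin_le_iff]
        rintro y (⟨j, rfl⟩ | hy)
        · refine (mem_algebraicClosure_iff).2 ?_
          exact isAlgebraic_algebraMap (A := K)
            (⟨z j, IntermediateField.subset_adjoin _ _ ⟨j, rfl⟩⟩ : F0)
        · rw [Set.mem_singleton_iff] at hy
          rw [hy]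
          exact (mem_algebraicClosure_iff).2 hw0
      exact ⟨fun y => mem_algebraicClosure_iff.1 (hle (IntermediateField.mem_top (x := y)))⟩
    have hA : IsAlgebraic F0 a := by
      have : Algebra.IsAlgebraic K (AlgebraicClosure K) := inferInstance
      exact ((Algebra.IsAlgebraic.trans F0 K (AlgebraicClosure K)).isAlgebraic a)
    have hmap : ∀ u : F0, algebraMap K (AlgebraicClosure K) (u : K) ∈ F1 := by
      intro u
      have h1 : F1 = F0.map (IsScalarTower.toAlgHom ℂ K (AlgebraicClosure K)) := by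
        rw [hF0, hF1, IntermediateField.adjoin_map]
        congr 1
        rw [← Set.range_comp]
        rfl
      rw [h1]
      exact ⟨u, u.2, rfl⟩
    let f : F0 →+* F1 := RingHom.codRestrict
      ((algebraMap K (AlgebraicClosure K)).comp (algebraMap F0 K)) F1 hmap
    have := IsAlgebraic.ringHom_of_comp_eq f (RingHom.id (AlgebraicClosure K)) hA f.injective (by
      ext u; rfl)
    exact this

/-- the coefficients of `∏ (X - a_i)` are killed by `D` if all `a_i` are -/
theorem coeff_const {Ω : Type} [Field Ω] [Algebra ℂ Ω] (D : Derivation ℂ Ω Ω) {r : ℕ} (a : Fin r → Ω)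
    (h : ∀ i, D (a i) = 0) (n : ℕ) : D ((∏ i, (Polynomial.X - Polynomial.C (a i))).coeff n) = 0 := by
  let S : Subring Ω :=
    { carrier := {u | D u = 0}
      mul_mem' := fun {u v} hu hv => by
        have hu' : D u = 0 := hu
        have hv' : D v = 0 := hv
        show D (u * v) = 0
        rw [D.leibniz, hu', hv', smul_zero, smul_zero, add_zero]
      one_mem' := by
        show D 1 = 0
        exact D.map_one_eq_zero
      add_mem' := fun {u v} hu hv => by
        have hu' : D u = 0 := hu
        have hv' : D v = 0 := hv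
        show D (u + v) = 0
        rw [map_add, hu', hv', add_zero]
      zero_mem' := by
        show D 0 = 0
        exact map_zero D
      neg_mem' := fun {u} hu => by
        have hu' : D u = 0 := hu
        show D (-u) = 0
        rw [map_neg, hu', neg_zero] }
  have h1 : (∏ i, (Polynomial.X - Polynomial.C (a i))) =
      (∏ i, (Polynomial.X - Polynomial.C (⟨a i, h i⟩ : S))).map S.subtype := by
    rw [Polynomial.map_prod]
    refine Finset.prod_congr rfl fun i _ => ?_
    rw [Polynomial.map_sub, Polynomial.map_X, Polynomial.map_C]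
    rfl
  rw [h1, Polynomial.coeff_map]
  exact ((∏ i, (Polynomial.X - Polynomial.C (⟨a i, h i⟩ : S))).coeff n).2

/-- an algebraic element of a field over `ℂ` is a constant -/
theorem const_of_alg {L : Type} [Field L] [Algebra ℂ L] {a : L} (h1 : IsAlgebraic ℂ a) :
    ∃ c : ℂ, a = algebraMap ℂ L c := by
  have h2 : a ∈ (algebraMap ℂ L).range := by
    have h3 : IsIntegral ℂ a := h1.isIntegral
    have h4 := IsAlgClosed.degree_eq_one_of_irreducible ℂ (minpoly.irreducible h3)
    exact minpoly.mem_range_of_degree_eq_one ℂ a h4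
  obtain ⟨c, hc⟩ := h2
  exact ⟨c, hc.symm⟩

/-- the cyclic cover `w ^ μ = F` of `ℙⁿ`, for a nondegenerate tangent line through the generic point -/
theorem cover_of_nice {m μ : ℕ} (hμ : μ ≠ 0) {c : ℕ} {a k : Fin c → ℕ} {e : ℕ} (hk : ∀ i, 2 ≤ k i)
    {F : MvPolynomial (Fin (m + 2)) ℂ}
    (hF : F.IsHomogeneous ((∑ i, k i * a i) + e)) (hne : F ≠ 0) {n : ℕ}
    (P : Ideal (MvPolynomial (Fin (n + 1)) ℂ)) [P.IsPrime] (hP : IsVariety P)
    (z : Fin (m + 1) → FunField P) (w : FunField P) (hz : AlgebraicIndependent ℂ z)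
    (hw : w ^ μ = aeval (Fin.cons 1 z) F)
    (hgen : IntermediateField.adjoin ℂ (Set.range z ∪ {w}) = ⊤)
    (T : CLine a k e F fun j => algebraMap (FunField P) (AlgebraicClosure (FunField P)) (z j))
    (hT : CNice T)
    (hfam : ∀ D : Derivation ℂ (AlgebraicClosure (FunField P)) (AlgebraicClosure (FunField P)),
      Fact a k e F (fun j => algebraMap (FunField P) (AlgebraicClosure (FunField P)) (z j)) D →
      Nonempty (CFam (fun j => algebraMap (FunField P) (AlgebraicClosure (FunField P)) (z j))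
        (algebraMap (FunField P) (AlgebraicClosure (FunField P)) w) D)) :
    SpecialField (FunField P) ∧ BrodySpecial P := by
  have hx := generic_closure hμ z w hz hw hgen
  have h0 : aeval (Fin.cons 1 fun j => algebraMap (FunField P) (AlgebraicClosure (FunField P)) (z j) :
      Fin (m + 2) → AlgebraicClosure (FunField P)) F ≠ 0 :=
    Pool.Agent.DS.generic_ne_of_ne hne hF hx.ind
  have hw0 : w ≠ 0 := by
    rintro rfl
    rw [zero_pow hμ] at hw
    exact Pool.Agent.DS.generic_ne_of_ne hne hF hz hw.symm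
  obtain ⟨δ, hδ⟩ := Pool.Agent.DS.exists_dual hx
  obtain ⟨D, hD⟩ := Pool.Agent.DS.exists_along δ hδ T.v
  obtain ⟨f⟩ := exists_fact hF h0 T hT hk D hD
  obtain ⟨M⟩ := hfam D f
  obtain ⟨L, iL, aL, j, e', k', N, X, hej, hfin, hX, hk'⟩ := exists_cover z w hgen D M
  obtain ⟨r, σ, ⟨i₀, hi₀⟩, hσ⟩ := exists_conj hμ z w hw hw0 hgen
  have hadj : ∀ u ∈ IntermediateField.adjoin ℂ (Set.range z),
      algebraMap (FunField P) (AlgebraicClosure (FunField P)) u ∈ IntermediateField.adjoin ℂ
        (Set.range fun j => algebraMap (FunField P) (AlgebraicClosure (FunField P)) (z j)) := by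
    intro u hu
    have h1 : IntermediateField.adjoin ℂ (Set.range z) ≤
        (IntermediateField.adjoin ℂ
        (Set.range fun j => algebraMap (FunField P) (AlgebraicClosure (FunField P)) (z j))).comap
          (IsScalarTower.toAlgHom ℂ (FunField P) (AlgebraicClosure (FunField P))) := by
      rw [IntermediateField.adjoin_le_iff]
      rintro _ ⟨i, rfl⟩
      exact IntermediateField.subset_adjoin _ _ ⟨i, rfl⟩
    exact h1 hu
  have hcomp : ∀ i, @Module.Finite (FunField P) L _ _
      ((j.comp (σ i : FunField P →ₐ[ℂ] FunField P)).toRingHom.toAlgebra).toModule := by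
    intro i
    have h1 : j.toRingHom.Finite := hfin
    have h2 : (σ i : FunField P →ₐ[ℂ] FunField P).toRingHom.Finite :=
      RingHom.Finite.of_surjective _ (σ i).surjective
    exact h1.comp h2
  refine Pool.Agent.DS.multi_cover P hP (r := r)
    (fun i => j.comp (σ i : FunField P →ₐ[ℂ] FunField P)) hcomp k' X hX ?_
  intro u hu
  have hD1 : ∀ i, D (algebraMap (FunField P) (AlgebraicClosure (FunField P)) (σ i u)) = 0 := by
    intro i
    have h1 : IsAlgebraic k' (j (σ i u)) := hu i
    have h2 := hk' _ h1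
    rwa [hej] at h2
  set Q : Polynomial (FunField P) := ∏ i, (Polynomial.X - Polynomial.C (σ i u)) with hQ
  have hcoef : ∀ l, ∃ s : ℂ, Q.coeff l = algebraMap ℂ (FunField P) s := by
    intro l
    have h1 : D (algebraMap (FunField P) (AlgebraicClosure (FunField P)) (Q.coeff l)) = 0 := by
      rw [← Polynomial.coeff_map, hQ, Polynomial.map_prod]
      simp only [Polynomial.map_sub, Polynomial.map_X, Polynomial.map_C]
      exact coeff_const D _ hD1 l
    obtain ⟨s, hs⟩ := const_of_D hF hx T hT hk D hD _ (hadj _ (hσ u l)) h1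
    refine ⟨s, (algebraMap (FunField P) (AlgebraicClosure (FunField P))).injective ?_⟩
    rw [hs, ← IsScalarTower.algebraMap_apply ℂ (FunField P) (AlgebraicClosure (FunField P))]
  have hlift : Q ∈ Polynomial.lifts (algebraMap ℂ (FunField P)) := by
    rw [Polynomial.lifts_iff_coeff_lifts]
    intro l
    obtain ⟨s, hs⟩ := hcoef l
    exact ⟨s, hs.symm⟩
  obtain ⟨q, hq⟩ := (Polynomial.mem_lifts _).1 hlift
  have hQ0 : Q ≠ 0 := by
    rw [hQ]
    exact (Polynomial.monic_prod_of_monic _ _ fun i _ => Polynomial.monic_X_sub_C _).ne_zero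
  refine const_of_alg ⟨q, ?_, ?_⟩
  · rintro rfl
    rw [Polynomial.map_zero] at hq
    exact hQ0 hq.symm
  · rw [Polynomial.aeval_def, ← Polynomial.eval_map, hq, hQ, Polynomial.eval_prod]
    refine Finset.prod_eq_zero (Finset.mem_univ i₀) ?_
    rw [Polynomial.eval_sub, Polynomial.eval_X, Polynomial.eval_C, hi₀, sub_self]

/-- the frame: smooth `F`, any exponents -/
theorem cover_of_fam {m μ : ℕ} (hμ : μ ≠ 0) {c : ℕ} (a k : Fin c → ℕ) (e : ℕ) (hk : ∀ i, 2 ≤ k i)
    (hm : ∑ i, (k i - 1) * a i = m) {F : MvPolynomial (Fin (m + 2)) ℂ}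
    (hF : F.IsHomogeneous ((∑ i, k i * a i) + e)) (hs : Smooth F) {n : ℕ}
    (P : Ideal (MvPolynomial (Fin (n + 1)) ℂ)) [P.IsPrime] (hP : IsVariety P)
    (hK : IsCyclic μ (FunField P) F)
    (hfam : ∀ {x : Fin (m + 1) → AlgebraicClosure (FunField P)}
      (_ : aeval (Fin.cons 1 x : Fin (m + 2) → AlgebraicClosure (FunField P)) F ≠ 0)
      {D : Derivation ℂ (AlgebraicClosure (FunField P)) (AlgebraicClosure (FunField P))}
      (_ : Fact a k e F x D) (w : AlgebraicClosure (FunField P))
      (_ : w ^ μ = aeval (Fin.cons 1 x : Fin (m + 2) → AlgebraicClosure (FunField P)) F),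
      Nonempty (CFam x w D)) :
    SpecialField (FunField P) ∧ BrodySpecial P := by
  have hne : F ≠ 0 := by
    rintro rfl
    have h := congrFun (hs 1 fun j => by rw [map_zero, map_zero]) 0
    exact one_ne_zero h
  obtain ⟨z, w, hz, hw, hgen⟩ := hK
  have hx := generic_closure hμ z w hz hw hgen
  have h0 := Pool.Agent.DS.generic_ne_of_ne hne hF hx.ind
  obtain ⟨T⟩ := exists_cline a k e (fun i => le_trans one_le_two (hk i)) hm hF _ h0
  obtain ⟨δ, hδ⟩ := Pool.Agent.DS.exists_dual hx
  refine cover_of_nice hμ hk hF hne P hP z w hz hw hgen T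
    (cnice hF T hk hm (part_of_smooth hs _ _ T.v_ne) δ hδ) fun D f => hfam h0 f _ ?_
  rw [← map_pow, hw]
  have h1 := MvPolynomial.comp_aeval_apply
    (Fin.cons 1 z : Fin (m + 2) → FunField P)
    (IsScalarTower.toAlgHom ℂ (FunField P) (AlgebraicClosure (FunField P))) F
  rw [IsScalarTower.coe_toAlgHom'] at h1
  rw [h1]
  congr 2
  funext i
  refine Fin.cases ?_ (fun j => ?_) i
  · simp only [Fin.cons_zero, map_one]
  · simp only [Fin.cons_succ]

end Pool.Agent.DC
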