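import Pool.Agent.Lib_MP_1209e6_dc.Defs
import Pool.Agent.Lib_MP_1209e6_ds.Coef

/-! PIECE MO: the direction is constant, the tangency points move. -/

set_option autoImplicit false

open MvPolynomial

namespace Pool.Agent.DC

open Pool.Agent.DS (Smooth pt lp Phi phi Generic)

variable {Ω : Type} [Field Ω] [Algebra ℂ Ω] {m c : ℕ} {a k : Fin c → ℕ} {e d : ℕ}
  {F : MvPolynomial (Fin (m + 2)) ℂ} {x : Fin (m + 1) → Ω}

/-- `G ∣ Phi (D v + X v)` (`CNice.der`) and `G ∣ Phi v`, so `G ∣ Phi (D v)`; `CNice.ker`. -/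
theorem dir_const (T : CLine a k e F x) (hT : CNice T) (D : Derivation ℂ Ω Ω)
    (hD : ∀ j, D (x j) = T.v j) : ∃ κ, ∀ j, D (T.v j) = κ * T.v j := by
  refine hT.ker (fun j => D (T.v j)) ?_
  have h1 := hT.der D
  have h2 : (Phi F x T.v fun j => Polynomial.C (D (T.v j)) + Polynomial.X * Polynomial.C (D (x j))) =
      (Phi F x T.v fun j => Polynomial.C (D (T.v j))) +
        Polynomial.X * (Phi F x T.v fun j => Polynomial.C (T.v j)) := by
    simp only [Phi, hD, add_mul, Finset.sum_add_distrib, Finset.mul_sum, mul_assoc]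
  rw [h2] at h1
  exact (dvd_add_left (Dvd.dvd.mul_left hT.dir _)).1 h1

/-- Let `y = δ x`, `κ = δ s / s²`; `δ v = - s y + κ s v` (`h`). Let `Δ` be the derivation of `Ω[X]` with
`Δ (C a) = C (δ a)` and `Δ X = κ X²` (`exists_coef` plus `(C κ * X²) • derivative`). Then
`Δ (X - s) = κ (X - s)(X + s)`, so `Δ` maps the multiples of `(X - s) ^ l` to multiples of `(X - s) ^ l`. On the
line `Δ (lp 0) = κ X * lp 0`, `Δ (lp j) = (X - s) y_j - κ (X - s) v_j + κ X * lp j`, so (`chain`, Euler: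
`∑ lp_i * F_i = d F`) `Δ Φ = (X - s) (Phi y - κ Phi v) + κ X d Φ`, `Φ = aeval (lp x v) F`. As `(X - s) ^ k_i ∣ Φ`,
`(X - s) ^ (k_i - 1)` divides `Phi y - κ Phi v` and `Phi v = d Φ - X Φ'` (`euler_line`), so `Phi y`. Further
`G ∣ Phi (δ v + X y) = (X - s) Phi y + κ s Phi v`, `G ∣ Phi v`, so `G ∣ (X - s) Phi y`. By `sqfree`,
`G = (X - s) ^ (k_i - 1) G₁` with `G₁` prime to `X - s`: `G₁ ∣ Phi y` and `G ∣ Phi y`; `CNice.ker`. -/
theorem point_moves (hF : F.IsHomogeneous d) (T : CLine a k e F x) (hT : CNice T) (hk : ∀ i, 2 ≤ k i)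
    (δ : Derivation ℂ Ω Ω) (i : Fin c) (s : Ω) (hs : (T.q i).IsRoot s)
    (h : ∀ j, δ (x j + s⁻¹ * T.v j) = 0) : ∃ c, ∀ j, δ (x j) = c * T.v j := by
  classical
  have hs0 : s ≠ 0 := hT.ne_zero i s hs
  obtain ⟨κ, hκ⟩ : ∃ κ : Ω, κ * s ^ 2 = δ s := ⟨δ s / s ^ 2, div_mul_cancel₀ _ (pow_ne_zero 2 hs0)⟩
  have hv : ∀ j, δ (T.v j) = κ * s * T.v j - s * δ (x j) := by
    intro j
    have h1 := h j
    rw [map_add, Derivation.leibniz, Derivation.leibniz_inv] at h1
    simp only [smul_eq_mul] at h1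
    rw [← hκ] at h1
    have h2 : s * (δ (x j) + (s⁻¹ * δ (T.v j) + T.v j * (-s⁻¹ ^ 2 * (κ * s ^ 2)))) = 0 := by
      rw [h1, mul_zero]
    field_simp at h2 ⊢
    linear_combination h2
  -- the derivation
  obtain ⟨Δ₀, hX0, hC0⟩ := Pool.Agent.DS.exists_coef δ
  obtain ⟨Δ, hX, hC⟩ : ∃ Δ : Derivation ℂ (Polynomial Ω) (Polynomial Ω),
      Δ Polynomial.X = Polynomial.C κ * Polynomial.X ^ 2 ∧ ∀ b, Δ (Polynomial.C b) =
        Polynomial.C (δ b) := by
    refine ⟨Δ₀ + (Polynomial.C κ * Polynomial.X ^ 2) •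
      ((Polynomial.derivative' (R := Ω)).restrictScalars ℂ), ?_, fun b => ?_⟩
    · rw [Derivation.add_apply, hX0, Derivation.smul_apply, zero_add]
      have h2 : ((Polynomial.derivative' (R := Ω)).restrictScalars ℂ) Polynomial.X =
        Polynomial.derivative (Polynomial.X : Polynomial Ω) := rfl
      rw [h2, Polynomial.derivative_X, smul_eq_mul, mul_one]
    · rw [Derivation.add_apply, hC0, Derivation.smul_apply]
      have h2 : ((Polynomial.derivative' (R := Ω)).restrictScalars ℂ) (Polynomial.C b) =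
        Polynomial.derivative (Polynomial.C b : Polynomial Ω) := rfl
      rw [h2, Polynomial.derivative_C, smul_zero, add_zero]
  have hXs : Δ (Polynomial.X - Polynomial.C s) =
      (Polynomial.X - Polynomial.C s) * (Polynomial.C κ * (Polynomial.X + Polynomial.C s)) := by
    rw [map_sub, hX, hC, ← hκ]
    simp only [Polynomial.C_mul, Polynomial.C_pow]
    ring
  have hpow : ∀ (l : ℕ) (p : Polynomial Ω), (Polynomial.X - Polynomial.C s) ^ l ∣ p →
      (Polynomial.X - Polynomial.C s) ^ l ∣ Δ p := by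
    rintro l p ⟨g, rfl⟩
    have h1 : (Polynomial.X - Polynomial.C s) ^ l ∣ Δ ((Polynomial.X - Polynomial.C s) ^ l) := by
      cases l with
      | zero => simp
      | succ l =>
        rw [Derivation.leibniz_pow, hXs]
        refine ⟨((l + 1 : ℕ) : Polynomial Ω) * (Polynomial.C κ * (Polynomial.X + Polynomial.C s)), ?_⟩
        rw [Nat.add_sub_cancel, nsmul_eq_mul, smul_eq_mul]
        ring
    rw [Derivation.leibniz, smul_eq_mul, smul_eq_mul]
    exact dvd_add (Dvd.intro _ rfl) (Dvd.dvd.mul_left h1 _)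
  set Φ : Polynomial Ω := aeval (lp x T.v) F with hΦ
  -- chain rule and Euler
  have hmain : Δ Φ = (Polynomial.X - Polynomial.C s) *
      ((Phi F x T.v fun j => Polynomial.C (δ (x j))) - Polynomial.C κ *
        (Phi F x T.v fun j => Polynomial.C (T.v j))) +
      Polynomial.C κ * Polynomial.X * ((d : Polynomial Ω) * Φ) := by
    have h1 := congrArg (aeval (lp x T.v)) hF.sum_X_mul_pderiv
    rw [map_sum, Fin.sum_univ_succ, map_nsmul, nsmul_eq_mul] at h1
    simp only [map_mul, aeval_X] at h1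
    rw [hΦ, ← h1, Pool.Agent.DS.chain, Fin.sum_univ_succ]
    have h2 : ∀ j : Fin (m + 1), Pool.Agent.DS.lp x T.v j.succ = Polynomial.C (T.v j) + Polynomial.X *
        Polynomial.C (x j) := fun j => by simp [Pool.Agent.DS.lp]
    have h3 : Pool.Agent.DS.lp x T.v 0 = Polynomial.X := by simp [Pool.Agent.DS.lp]
    have h4 : ∀ j : Fin (m + 1), Δ (Pool.Agent.DS.lp x T.v j.succ) =
        (Polynomial.X - Polynomial.C s) * (Polynomial.C (δ (x j)) -
          Polynomial.C κ * Polynomial.C (T.v j)) + Polynomial.C κ * Polynomial.X *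
            Pool.Agent.DS.lp x T.v j.succ := by
      intro j
      rw [h2, map_add, Derivation.leibniz, hX, hC, hC, hv]
      simp only [smul_eq_mul, Polynomial.C_mul, Polynomial.C_sub]
      ring
    simp only [h4, h3, hX, Phi]
    have h5 : ∑ j : Fin (m + 1), ((Polynomial.X - Polynomial.C s) * (Polynomial.C (δ (x j)) -
          Polynomial.C κ * Polynomial.C (T.v j)) + Polynomial.C κ * Polynomial.X *
            Pool.Agent.DS.lp x T.v j.succ) * aeval (Pool.Agent.DS.lp x T.v) (pderiv j.succ F) =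
        (Polynomial.X - Polynomial.C s) * (∑ j : Fin (m + 1), Polynomial.C (δ (x j)) *
          aeval (Pool.Agent.DS.lp x T.v) (pderiv j.succ F) - Polynomial.C κ *
          ∑ j : Fin (m + 1), Polynomial.C (T.v j) *
          aeval (Pool.Agent.DS.lp x T.v) (pderiv j.succ F)) + Polynomial.C κ * Polynomial.X *
          ∑ j : Fin (m + 1), Pool.Agent.DS.lp x T.v j.succ *
            aeval (Pool.Agent.DS.lp x T.v) (pderiv j.succ F) := by
      rw [Finset.mul_sum, Finset.mul_sum, ← Finset.sum_sub_distrib, Finset.mul_sum,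
        ← Finset.sum_add_distrib]
      exact Finset.sum_congr rfl fun j _ => by ring
    rw [h5]
    ring
  -- the multiplicity of `X - s`
  have hqi : (Polynomial.X - Polynomial.C s) ∣ T.q i := Polynomial.dvd_iff_isRoot.2 hs
  have hGi : (Polynomial.X - Polynomial.C s) ^ (k i - 1) ∣ T.G :=
    (pow_dvd_pow_of_dvd hqi _).trans (Finset.dvd_prod_of_mem (fun j => T.q j ^ (k j - 1))
      (Finset.mem_univ i))
  have hΦi : (Polynomial.X - Polynomial.C s) ^ (k i) ∣ Φ := by
    rw [hΦ, T.eq]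
    exact Dvd.dvd.mul_right ((pow_dvd_pow_of_dvd hqi _).trans
      (Finset.dvd_prod_of_mem (fun j => T.q j ^ (k j)) (Finset.mem_univ i))) _
  have hne : (Polynomial.X - Polynomial.C s) ≠ 0 := Polynomial.X_sub_C_ne_zero s
  have hy1 : (Polynomial.X - Polynomial.C s) ^ (k i - 1) ∣
      (Phi F x T.v fun j => Polynomial.C (δ (x j))) := by
    have h1 : (Polynomial.X - Polynomial.C s) ^ (k i) ∣ (Polynomial.X - Polynomial.C s) *
      ((Phi F x T.v fun j => Polynomial.C (δ (x j))) - Polynomial.C κ *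
        (Phi F x T.v fun j => Polynomial.C (T.v j))) := by
      have h2 := hpow _ _ hΦi
      rw [hmain] at h2
      exact (dvd_add_left (Dvd.dvd.mul_left (Dvd.dvd.mul_left hΦi _) _)).1 h2
    have h3 : k i = (k i - 1) + 1 := by have := hk i; omega
    rw [h3, pow_succ'] at h1
    have h4 := (mul_dvd_mul_iff_left hne).1 h1
    exact (dvd_sub_left (Dvd.dvd.mul_left (hGi.trans hT.dir) _)).1 h4
  have hy2 : T.G ∣ (Polynomial.X - Polynomial.C s) *
      (Phi F x T.v fun j => Polynomial.C (δ (x j))) := by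
    have h1 := hT.der δ
    have h2 : (Phi F x T.v fun j => Polynomial.C (δ (T.v j)) + Polynomial.X * Polynomial.C (δ (x j))) =
        (Polynomial.X - Polynomial.C s) * (Phi F x T.v fun j => Polynomial.C (δ (x j))) +
          Polynomial.C (κ * s) * (Phi F x T.v fun j => Polynomial.C (T.v j)) := by
      simp only [Phi]
      rw [Finset.mul_sum, Finset.mul_sum, ← Finset.sum_add_distrib]
      refine Finset.sum_congr rfl fun j _ => ?_
      rw [hv]
      simp only [Polynomial.C_mul, Polynomial.C_sub]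
      ring
    rw [h2] at h1
    exact (dvd_add_left (Dvd.dvd.mul_left hT.dir _)).1 h1
  -- the factor prime to `X - s`
  obtain ⟨q', hq'⟩ := hqi
  have hprod : (∏ j, T.q j) = T.q i * ∏ j ∈ Finset.univ.erase i, T.q j :=
    (Finset.mul_prod_erase Finset.univ T.q (Finset.mem_univ i)).symm
  have hGprod : T.G = T.q i ^ (k i - 1) * ∏ j ∈ Finset.univ.erase i, T.q j ^ (k j - 1) :=
    (Finset.mul_prod_erase Finset.univ (fun j => T.q j ^ (k j - 1)) (Finset.mem_univ i)).symm
  have hpr : Prime (Polynomial.X - Polynomial.C s) := Polynomial.prime_X_sub_C s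
  have hn1 : ¬ (Polynomial.X - Polynomial.C s) ∣ q' := by
    intro h1
    refine hT.sqfree s ?_
    rw [hprod, hq', pow_two]
    exact Dvd.dvd.mul_right (Dvd.dvd.mul_right (mul_dvd_mul_left _ h1) _) _
  have hn2 : ∀ j ∈ Finset.univ.erase i, ¬ (Polynomial.X - Polynomial.C s) ∣ T.q j := by
    intro j hj h1
    refine hT.sqfree s ?_
    rw [hprod, hq', pow_two]
    refine Dvd.dvd.mul_right (mul_dvd_mul (Dvd.intro _ rfl) (h1.trans
      (Finset.dvd_prod_of_mem T.q hj))) _
  have hcop : ∀ p : Polynomial Ω, ¬ (Polynomial.X - Polynomial.C s) ∣ p →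
      IsCoprime (Polynomial.X - Polynomial.C s) p := fun p hp =>
    (hpr.irreducible.coprime_iff_not_dvd).2 hp
  have hG1 : IsCoprime (Polynomial.X - Polynomial.C s)
      (q' ^ (k i - 1) * ∏ j ∈ Finset.univ.erase i, T.q j ^ (k j - 1)) := by
    refine IsCoprime.mul_right (IsCoprime.pow_right (hcop _ hn1)) ?_
    exact IsCoprime.prod_right fun j hj => IsCoprime.pow_right (hcop _ (hn2 j hj))
  have hG2 : T.G = (Polynomial.X - Polynomial.C s) ^ (k i - 1) *
      (q' ^ (k i - 1) * ∏ j ∈ Finset.univ.erase i, T.q j ^ (k j - 1)) := by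
    rw [hGprod, hq', mul_pow, mul_assoc]
  refine hT.ker _ ?_
  rw [hG2]
  refine IsCoprime.mul_dvd (IsCoprime.pow_left hG1) hy1 ?_
  refine hG1.symm.dvd_of_dvd_mul_left ?_
  exact (Dvd.intro_left _ hG2.symm).trans hy2

end Pool.Agent.DC
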